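import Pool.Agent.Helper39.CJ.CQ

/-!
# A calculus of recursively enumerable predicates, computable vectors and matrices over ℚ
-/

set_option autoImplicit false

namespace Pool.Agent.CQ

open Encodable

section RE

variable {α β γ : Type*} [Primcodable α] [Primcodable β] [Primcodable γ]

theorem re_of_bool {p : α → Prop} (f : α → ℕ → Bool) (hf : Computable₂ f)
    (h : ∀ a, p a ↔ ∃ k, f a k = true) : REPred p := by
  have h1 : Partrec (fun a => Nat.rfind fun k => Part.some (f a k)) :=
    Partrec.rfind hf.partrec₂
  refine (h1.dom_re).of_eq (fun a => ?_)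
  rw [h a, Nat.rfind_dom]
  constructor
  · rintro ⟨k, hk, _⟩
    exact ⟨k, by simpa using hk⟩
  · rintro ⟨k, hk⟩
    exact ⟨k, by simpa using hk, fun {m} _ => trivial⟩

/-- Normal form of r.e. predicates. -/
theorem re_normal {p : α → Prop} (hp : REPred p) :
    ∃ f : α → ℕ → Bool, Primrec₂ f ∧ ∀ a, p a ↔ ∃ k, f a k = true := by
  have h : Nat.Partrec fun n => Part.bind (decode (α := α) n) fun a =>
      (Part.assert (p a) fun _ => Part.some ()).map encode := hp
  obtain ⟨c, hc⟩ := Nat.Partrec.Code.exists_code.1 h
  refine ⟨fun a k => (Nat.Partrec.Code.evaln k c (encode a)).isSome, ?_, fun a => ?_⟩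
  · have h1 : Primrec (fun q : α × ℕ => Nat.Partrec.Code.evaln q.2 c (encode q.1)) :=
      Nat.Partrec.Code.primrec_evaln.comp
        ((Primrec.snd.pair (Primrec.const c)).pair (Primrec.encode.comp Primrec.fst))
    exact Primrec.option_isSome.comp h1
  · have h2 : (Nat.Partrec.Code.eval c (encode a)).Dom ↔ p a := by
      rw [hc]
      simp [Part.bind_dom, Part.assert]
    rw [← h2, Part.dom_iff_mem]
    constructor
    · rintro ⟨x, hx⟩
      obtain ⟨k, hk⟩ := Nat.Partrec.Code.evaln_complete.1 hx
      refine ⟨k, ?_⟩
      rw [Option.mem_def] at hk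
      simp [hk]
    · rintro ⟨k, hk⟩
      obtain ⟨x, hx⟩ := Option.isSome_iff_exists.1 hk
      exact ⟨x, Nat.Partrec.Code.evaln_sound hx⟩

theorem re_comp {p : β → Prop} (hp : REPred p) {f : α → β} (hf : Computable f) :
    REPred (fun a => p (f a)) :=
  Partrec.comp hp hf

theorem re_and {p q : α → Prop} (hp : REPred p) (hq : REPred q) :
    REPred (fun a => p a ∧ q a) := by
  obtain ⟨f, hf, hf'⟩ := re_normal hp
  obtain ⟨g, hg, hg'⟩ := re_normal hq
  refine re_of_bool (fun a k => f a k.unpair.1 && g a k.unpair.2) ?_ (fun a => ?_)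
  · refine Primrec.to_comp ?_
    exact Primrec.and.comp
      (hf.comp Primrec.fst (Primrec.fst.comp (Primrec.unpair.comp Primrec.snd)))
      (hg.comp Primrec.fst (Primrec.snd.comp (Primrec.unpair.comp Primrec.snd)))
  · rw [hf', hg']
    constructor
    · rintro ⟨⟨k, hk⟩, ⟨l, hl⟩⟩
      exact ⟨Nat.pair k l, by simp [hk, hl]⟩
    · rintro ⟨k, hk⟩
      simp only [Bool.and_eq_true] at hk
      exact ⟨⟨_, hk.1⟩, ⟨_, hk.2⟩⟩

theorem re_or {p q : α → Prop} (hp : REPred p) (hq : REPred q) :
    REPred (fun a => p a ∨ q a) := by
  obtain ⟨f, hf, hf'⟩ := re_normal hp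
  obtain ⟨g, hg, hg'⟩ := re_normal hq
  refine re_of_bool (fun a k => f a k || g a k) ?_ (fun a => ?_)
  · refine Primrec.to_comp ?_
    exact Primrec.or.comp hf hg
  · rw [hf', hg']
    constructor
    · rintro (⟨k, hk⟩ | ⟨k, hk⟩)
      · exact ⟨k, by simp [hk]⟩
      · exact ⟨k, by simp [hk]⟩
    · rintro ⟨k, hk⟩
      simp only [Bool.or_eq_true] at hk
      rcases hk with hk | hk
      · exact Or.inl ⟨k, hk⟩
      · exact Or.inr ⟨k, hk⟩

theorem re_exists {R : α → β → Prop} (hR : REPred (fun p : α × β => R p.1 p.2)) :
    REPred (fun a => ∃ b, R a b) := by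
  obtain ⟨f, hf, hf'⟩ := re_normal hR
  have hF : Primrec₂ (fun (a : α) (k : ℕ) =>
      Option.casesOn (motive := fun _ => Bool) (decode (α := β) k.unpair.1) false
        (fun b => f (a, b) k.unpair.2)) := by
    refine Primrec.option_casesOn (o := fun p : α × ℕ => decode (α := β) p.2.unpair.1)
      (f := fun _ => false) (g := fun (p : α × ℕ) (b : β) => f (p.1, b) p.2.unpair.2) ?_ ?_ ?_
    · exact Primrec.decode.comp (Primrec.fst.comp (Primrec.unpair.comp Primrec.snd))
    · exact Primrec.const false
    · exact hf.comp ((Primrec.fst.comp Primrec.fst).pair Primrec.snd)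
        (Primrec.snd.comp (Primrec.unpair.comp (Primrec.snd.comp Primrec.fst)))
  refine re_of_bool _ hF.to_comp (fun a => ?_)
  constructor
  · rintro ⟨b, hb⟩
    obtain ⟨k, hk⟩ := (hf' (a, b)).1 hb
    exact ⟨Nat.pair (encode b) k, by simp [hk]⟩
  · rintro ⟨k, hk⟩
    rcases h : decode (α := β) k.unpair.1 with _ | b
    · rw [h] at hk; simp at hk
    · rw [h] at hk
      exact ⟨b, (hf' (a, b)).2 ⟨_, hk⟩⟩

theorem re_true : REPred (fun _ : α => True) :=
  re_of_bool (fun _ _ => true) (Computable.const true) (fun a => by simp)

theorem re_false : REPred (fun _ : α => False) :=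
  re_of_bool (fun _ _ => false) (Computable.const false) (fun a => by simp)

theorem re_forall_fintype {ι : Type*} [Fintype ι] {p : ι → α → Prop}
    (hp : ∀ i, REPred (p i)) : REPred (fun a => ∀ i, p i a) := by
  classical
  have h : ∀ s : Finset ι, REPred (fun a => ∀ i ∈ s, p i a) := by
    intro s
    induction s using Finset.induction_on with
    | empty => exact re_true.of_eq (fun a => by simp)
    | insert i s _ ih =>
      exact (re_and (hp i) ih).of_eq (fun a => by simp)
  exact (h Finset.univ).of_eq (fun a => by simp)

theorem re_exists_fintype {ι : Type*} [Fintype ι] {p : ι → α → Prop}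
    (hp : ∀ i, REPred (p i)) : REPred (fun a => ∃ i, p i a) := by
  classical
  have h : ∀ s : Finset ι, REPred (fun a => ∃ i ∈ s, p i a) := by
    intro s
    induction s using Finset.induction_on with
    | empty => exact re_false.of_eq (fun a => by simp)
    | insert i s _ ih =>
      exact (re_or (hp i) ih).of_eq (fun a => by simp)
  exact (h Finset.univ).of_eq (fun a => by simp)

theorem re_exists_finset {ι : Type*} {s : Finset ι} {p : ι → α → Prop}
    (hp : ∀ i ∈ s, REPred (p i)) : REPred (fun a => ∃ i ∈ s, p i a) := by
  classical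
  induction s using Finset.induction_on with
  | empty => exact re_false.of_eq (fun a => by simp)
  | insert i s _ ih =>
    exact (re_or (hp i (Finset.mem_insert_self _ _))
      (ih (fun j hj => hp j (Finset.mem_insert_of_mem hj)))).of_eq (fun a => by simp)

/-- Universal quantification over the elements of a list. -/
theorem re_forall_list {R : α → β → Prop} (hR : REPred (fun p : α × β => R p.1 p.2))
    {l : α → List β} (hl : Computable l) : REPred (fun a => ∀ b ∈ l a, R a b) := by
  obtain ⟨f, hf, hf'⟩ := re_normal hR
  -- the predicate on (a, list)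
  have key : REPred (fun p : α × List β => ∀ b ∈ p.2, R p.1 b) := by
    have hany : Primrec₂ (fun (q : (α × List β) × ℕ) (b : β) =>
        (List.range (q.2 + 1)).any (fun k => f (q.1.1, b) k)) := by
      have h1 : PrimrecPred (fun q : (((α × List β) × ℕ) × β) =>
          ∃ k < q.1.2 + 1, f (q.1.1.1, q.2) k = true) := by
        have h2 : PrimrecRel (fun (k : ℕ) (q : (((α × List β) × ℕ) × β)) =>
            f (q.1.1.1, q.2) k = true) := by
          refine Primrec.eq.comp ?_ (Primrec.const true)
          exact hf.comp ((Primrec.fst.comp (Primrec.fst.comp (Primrec.fst.comp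
            Primrec.snd))).pair (Primrec.snd.comp Primrec.snd)) Primrec.fst
        have h3 := PrimrecRel.exists_mem_list h2
        exact (h3.comp (Primrec.list_range.comp
          (Primrec.succ.comp (Primrec.snd.comp Primrec.fst))) Primrec.id).of_eq
            (fun q => by simp)
      have h4 := h1.decide
      refine h4.of_eq (fun q => ?_)
      rw [Bool.eq_iff_iff]
      simp
    have hall : Primrec (fun q : (α × List β) × ℕ =>
        q.1.2.all (fun b => (List.range (q.2 + 1)).any (fun k => f (q.1.1, b) k))) := by
      have h5 : Primrec (fun q : (α × List β) × ℕ => q.1.2.foldr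
          (fun b acc => ((List.range (q.2 + 1)).any (fun k => f (q.1.1, b) k)) && acc) true) := by
        refine Primrec.list_foldr (f := fun q : (α × List β) × ℕ => q.1.2)
          (g := fun _ => true)
          (h := fun (q : (α × List β) × ℕ) (p : β × Bool) =>
            ((List.range (q.2 + 1)).any (fun k => f (q.1.1, p.1) k)) && p.2) ?_ ?_ ?_
        · exact Primrec.snd.comp Primrec.fst
        · exact Primrec.const true
        · exact Primrec.and.comp (hany.comp Primrec.fst (Primrec.fst.comp Primrec.snd))
            (Primrec.snd.comp Primrec.snd)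
      refine h5.of_eq (fun q => ?_)
      induction q.1.2 with
      | nil => rfl
      | cons b l ih => simp only [List.foldr_cons, List.all_cons, ih]
    refine re_of_bool (fun p K => p.2.all (fun b =>
      (List.range (K + 1)).any (fun k => f (p.1, b) k))) hall.to_comp (fun p => ?_)
    constructor
    · intro h
      have h2 : ∀ b ∈ p.2, ∃ k, f (p.1, b) k = true := fun b hb => (hf' (p.1, b)).1 (h b hb)
      have h3 : ∀ l : List β, (∀ b ∈ l, ∃ k, f (p.1, b) k = true) →
          ∃ K, ∀ b ∈ l, ∃ k < K + 1, f (p.1, b) k = true := by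
        intro l
        induction l with
        | nil => intro _; exact ⟨0, by simp⟩
        | cons b l ih =>
          intro hl
          obtain ⟨K, hK⟩ := ih (fun c hc => hl c (List.mem_cons_of_mem _ hc))
          obtain ⟨k, hk⟩ := hl b (List.mem_cons_self)
          refine ⟨max K k, fun c hc => ?_⟩
          rcases List.mem_cons.1 hc with rfl | hc
          · exact ⟨k, by omega, hk⟩
          · obtain ⟨k', hk', hk''⟩ := hK c hc
            exact ⟨k', by omega, hk''⟩
      obtain ⟨K, hK⟩ := h3 p.2 h2
      refine ⟨K, ?_⟩
      rw [List.all_eq_true]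
      intro b hb
      rw [List.any_eq_true]
      obtain ⟨k, hk, hk'⟩ := hK b hb
      exact ⟨k, List.mem_range.2 hk, hk'⟩
    · rintro ⟨K, hK⟩ b hb
      rw [List.all_eq_true] at hK
      have := hK b hb
      rw [List.any_eq_true] at this
      obtain ⟨k, _, hk⟩ := this
      exact (hf' (p.1, b)).2 ⟨k, hk⟩
  exact re_comp key (Computable.id.pair hl)

/-- Decidable = both sides r.e. -/
theorem computable_of_re {p : α → Prop} (h1 : REPred p) (h2 : REPred (fun a => ¬ p a)) :
    ComputablePred p :=
  ComputablePred.computable_iff_re_compl_re'.2 ⟨h1, h2⟩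

/-- Computable choice of witnesses. -/
theorem re_choice [Inhabited β] {R : α → β → Prop} (hR : REPred (fun p : α × β => R p.1 p.2))
    (h : ∀ a, ∃ b, R a b) : ∃ g : α → β, Computable g ∧ ∀ a, R a (g a) := by
  obtain ⟨f, hf, hf'⟩ := re_normal hR
  have hF : Computable₂ (fun (a : α) (k : ℕ) =>
      Option.casesOn (motive := fun _ => Bool) (decode (α := β) k.unpair.1) false
        (fun b => f (a, b) k.unpair.2)) := by
    have : Primrec₂ (fun (a : α) (k : ℕ) =>
      Option.casesOn (motive := fun _ => Bool) (decode (α := β) k.unpair.1) false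
        (fun b => f (a, b) k.unpair.2)) := by
      refine Primrec.option_casesOn (o := fun p : α × ℕ => decode (α := β) p.2.unpair.1)
        (f := fun _ => false) (g := fun (p : α × ℕ) (b : β) => f (p.1, b) p.2.unpair.2) ?_ ?_ ?_
      · exact Primrec.decode.comp (Primrec.fst.comp (Primrec.unpair.comp Primrec.snd))
      · exact Primrec.const false
      · exact hf.comp ((Primrec.fst.comp Primrec.fst).pair Primrec.snd)
          (Primrec.snd.comp (Primrec.unpair.comp (Primrec.snd.comp Primrec.fst)))
    exact this.to_comp
  set F := (fun (a : α) (k : ℕ) =>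
      Option.casesOn (motive := fun _ => Bool) (decode (α := β) k.unpair.1) false
        (fun b => f (a, b) k.unpair.2)) with hFdef
  have hex : ∀ a, ∃ k, F a k = true := by
    intro a
    obtain ⟨b, hb⟩ := h a
    obtain ⟨k, hk⟩ := (hf' (a, b)).1 hb
    exact ⟨Nat.pair (encode b) k, by simp [hFdef, hk]⟩
  have hFp : ComputablePred (fun p : α × ℕ => F p.1 p.2 = true) := by
    refine ⟨inferInstance, ?_⟩
    refine Computable.of_eq hF (fun p => by simp)
  have hfind := Computable.find (P := fun a k => F a k = true) hFp hex
  refine ⟨fun a => Option.getD (decode (α := β) (Nat.find (hex a)).unpair.1) default, ?_,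
    fun a => ?_⟩
  · exact (Primrec.option_getD.to_comp).comp
      (Computable.decode.comp (Computable.fst.comp (Computable.unpair.comp hfind)))
      (Computable.const default)
  · have key : ∀ k, F a k = true → R a (Option.getD (decode (α := β) k.unpair.1) default) := by
      intro k hk
      rcases h' : decode (α := β) k.unpair.1 with _ | b
      · simp only [hFdef, h'] at hk
        exact absurd hk (by simp)
      · simp only [hFdef, h'] at hk
        exact (hf' (a, b)).2 ⟨_, hk⟩
    exact key _ (Nat.find_spec (hex a))

end RE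

section Vec

variable {α β σ : Type*} [Primcodable α] [Primcodable β] [Primcodable σ]

theorem c_pi {n : ℕ} {f : α → Fin n → σ} (hf : ∀ i, Computable (fun a => f a i)) :
    Computable f := by
  have h1 : Computable (fun a => List.Vector.ofFn fun i => f a i) :=
    Computable.vector_ofFn (f := fun i a => f a i) hf
  have h2 : Computable (@List.Vector.get σ n) := Primrec.vector_get'.to_comp
  exact (h2.comp h1).of_eq (fun a => by funext i; simp)

theorem c_app {n : ℕ} {f : α → Fin n → σ} (hf : Computable f) (i : Fin n) :
    Computable (fun a => f a i) :=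
  Computable.fin_app.comp hf (Computable.const i)

theorem c_app' {n : ℕ} {f : α → Fin n → σ} (hf : Computable f) {g : α → Fin n}
    (hg : Computable g) : Computable (fun a => f a (g a)) :=
  Computable.fin_app.comp hf hg

lemma c_qadd {f g : α → ℚ} (hf : Computable f) (hg : Computable g) :
    Computable (fun a => f a + g a) := by
  have h : Primrec₂ (fun x y : ℚ => x + y) := pr_qadd Primrec.fst Primrec.snd
  exact h.to_comp.comp hf hg

lemma c_qneg {f : α → ℚ} (hf : Computable f) : Computable (fun a => - f a) :=
  (pr_qneg (α := ℚ) Primrec.id).to_comp.comp hf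

lemma c_qsub {f g : α → ℚ} (hf : Computable f) (hg : Computable g) :
    Computable (fun a => f a - g a) := by
  have h : Primrec₂ (fun x y : ℚ => x - y) := pr_qsub Primrec.fst Primrec.snd
  exact h.to_comp.comp hf hg

lemma c_qmul {f g : α → ℚ} (hf : Computable f) (hg : Computable g) :
    Computable (fun a => f a * g a) := by
  have h : Primrec₂ (fun x y : ℚ => x * y) := pr_qmul Primrec.fst Primrec.snd
  exact h.to_comp.comp hf hg

lemma c_qinv {f : α → ℚ} (hf : Computable f) : Computable (fun a => (f a)⁻¹) :=
  (pr_qinv (α := ℚ) Primrec.id).to_comp.comp hf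

lemma c_qdiv {f g : α → ℚ} (hf : Computable f) (hg : Computable g) :
    Computable (fun a => f a / g a) :=
  (c_qmul hf (c_qinv hg)).of_eq (fun a => by rw [div_eq_mul_inv])

lemma c_intCast {f : α → ℤ} (hf : Computable f) : Computable (fun a => (f a : ℚ)) :=
  (pr_ratCast (α := ℤ) Primrec.id).to_comp.comp hf

lemma c_natCast {f : α → ℕ} (hf : Computable f) : Computable (fun a => (f a : ℚ)) := by
  have h := (pr_ratCast (α := ℕ) (pr_natCast Primrec.id)).to_comp.comp hf
  exact h.of_eq (fun a => by simp)

lemma c_sum {ι : Type*} [Fintype ι] {f : ι → α → ℚ} (hf : ∀ i, Computable (f i)) :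
    Computable (fun a => ∑ i, f i a) := by
  classical
  have h : ∀ s : Finset ι, Computable (fun a => ∑ i ∈ s, f i a) := by
    intro s
    induction s using Finset.induction_on with
    | empty => exact (Computable.const 0).of_eq (fun a => by simp)
    | insert i s hi ih =>
      exact (c_qadd (hf i) ih).of_eq (fun a => by rw [Finset.sum_insert hi])
  exact h Finset.univ

lemma c_prod {ι : Type*} [Fintype ι] {f : ι → α → ℚ} (hf : ∀ i, Computable (f i)) :
    Computable (fun a => ∏ i, f i a) := by
  classical
  have h : ∀ s : Finset ι, Computable (fun a => ∏ i ∈ s, f i a) := by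
    intro s
    induction s using Finset.induction_on with
    | empty => exact (Computable.const 1).of_eq (fun a => by simp)
    | insert i s hi ih =>
      exact (c_qmul (hf i) ih).of_eq (fun a => by rw [Finset.prod_insert hi])
  exact h Finset.univ

theorem cp_eq {f g : α → σ} (hf : Computable f) (hg : Computable g) :
    ComputablePred (fun a => f a = g a) := by
  classical
  have h : PrimrecRel (fun a b : σ => a = b) := Primrec.eq
  have h1 : Computable (fun p : σ × σ => decide (p.1 = p.2)) := h.decide.to_comp
  refine ⟨inferInstance, ?_⟩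
  exact (h1.comp (hf.pair hg)).of_eq (fun a => by simp)

theorem re_eq {f g : α → σ} (hf : Computable f) (hg : Computable g) :
    REPred (fun a => f a = g a) :=
  (cp_eq hf hg).to_re

theorem re_ne {f g : α → σ} (hf : Computable f) (hg : Computable g) :
    REPred (fun a => f a ≠ g a) :=
  (cp_eq hf hg).not.to_re

instance primcodableMatrix {m n : ℕ} : Primcodable (Matrix (Fin m) (Fin n) σ) :=
  inferInstanceAs (Primcodable (Fin m → Fin n → σ))

theorem c_matrix {m n : ℕ} {f : α → Matrix (Fin m) (Fin n) σ}
    (hf : ∀ i j, Computable (fun a => f a i j)) : Computable f :=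
  c_pi (σ := Fin n → σ) (f := f) (fun i => c_pi (fun j => hf i j))

theorem c_entry {m n : ℕ} {f : α → Matrix (Fin m) (Fin n) σ} (hf : Computable f)
    (i : Fin m) (j : Fin n) : Computable (fun a => f a i j) :=
  c_app (f := fun a => f a i) (c_app (σ := Fin n → σ) (f := f) hf i) j

theorem c_mmul {l m n : ℕ} {f : α → Matrix (Fin l) (Fin m) ℚ} {g : α → Matrix (Fin m) (Fin n) ℚ}
    (hf : Computable f) (hg : Computable g) : Computable (fun a => f a * g a) := by
  refine c_matrix (fun i j => ?_)
  simp only [Matrix.mul_apply]
  exact c_sum (fun k => c_qmul (c_entry hf i k) (c_entry hg k j))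

theorem c_madd {m n : ℕ} {f g : α → Matrix (Fin m) (Fin n) ℚ}
    (hf : Computable f) (hg : Computable g) : Computable (fun a => f a + g a) := by
  refine c_matrix (fun i j => ?_)
  simp only [Matrix.add_apply]
  exact c_qadd (c_entry hf i j) (c_entry hg i j)

theorem c_msub {m n : ℕ} {f g : α → Matrix (Fin m) (Fin n) ℚ}
    (hf : Computable f) (hg : Computable g) : Computable (fun a => f a - g a) := by
  refine c_matrix (fun i j => ?_)
  simp only [Matrix.sub_apply]
  exact c_qsub (c_entry hf i j) (c_entry hg i j)

theorem c_smul {m n : ℕ} {c : α → ℚ} {f : α → Matrix (Fin m) (Fin n) ℚ}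
    (hc : Computable c) (hf : Computable f) : Computable (fun a => c a • f a) := by
  refine c_matrix (fun i j => ?_)
  simp only [Matrix.smul_apply, smul_eq_mul]
  exact c_qmul hc (c_entry hf i j)

theorem c_mulVec {m n : ℕ} {f : α → Matrix (Fin m) (Fin n) ℚ} {v : α → Fin n → ℚ}
    (hf : Computable f) (hv : Computable v) : Computable (fun a => (f a).mulVec (v a)) := by
  refine c_pi (fun i => ?_)
  simp only [Matrix.mulVec, dotProduct]
  exact c_sum (fun k => c_qmul (c_entry hf i k) (c_app hv k))

theorem c_vadd {n : ℕ} {f g : α → Fin n → ℚ} (hf : Computable f) (hg : Computable g) :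
    Computable (fun a => f a + g a) := by
  refine c_pi (fun i => ?_)
  simp only [Pi.add_apply]
  exact c_qadd (c_app hf i) (c_app hg i)

theorem c_vsub {n : ℕ} {f g : α → Fin n → ℚ} (hf : Computable f) (hg : Computable g) :
    Computable (fun a => f a - g a) := by
  refine c_pi (fun i => ?_)
  simp only [Pi.sub_apply]
  exact c_qsub (c_app hf i) (c_app hg i)

theorem c_vsmul {n : ℕ} {c : α → ℚ} {f : α → Fin n → ℚ} (hc : Computable c)
    (hf : Computable f) : Computable (fun a => c a • f a) := by
  refine c_pi (fun i => ?_)
  simp only [Pi.smul_apply, smul_eq_mul]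
  exact c_qmul hc (c_app hf i)

/-- Linear conditions with coefficients in an arbitrary rational vector space are decidable. -/
theorem cp_linear {ι : Type*} [Fintype ι] {K : Type*} [AddCommGroup K] [Module ℚ K]
    (c : ι → K) {q : ι → α → ℚ} (hq : ∀ i, Computable (q i)) :
    ComputablePred (fun a => ∑ i, q i a • c i = 0) := by
  classical
  let S : Submodule ℚ K := Submodule.span ℚ (Set.range c)
  haveI : Module.Finite ℚ S := Module.Finite.span_of_finite ℚ (Set.finite_range c)
  let b := Module.finBasis ℚ S
  have hmem : ∀ i, c i ∈ S := fun i => Submodule.subset_span ⟨i, rfl⟩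
  let c' : ι → S := fun i => ⟨c i, hmem i⟩
  have h1 : ∀ a, (∑ i, q i a • c i = 0) ↔
      (fun k => ∑ i, q i a * (b.repr (c' i) k)) = (fun _ => 0 : Fin (Module.finrank ℚ S) → ℚ) := by
    intro a
    have e1 : (∑ i, q i a • c i = 0) ↔ (∑ i, q i a • c' i = 0) := by
      rw [← Subtype.coe_inj]
      simp [c']
    rw [e1]
    constructor
    · intro h
      funext k
      have := congrArg (fun v => b.repr v k) h
      simpa [Finsupp.finsetSum_apply, map_sum] using this
    · intro h
      apply b.repr.injective
      ext k
      have := congrFun h k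
      simpa [Finsupp.finsetSum_apply, map_sum] using this
  have h2 : Computable (fun a => (fun k => ∑ i, q i a * (b.repr (c' i) k) :
      Fin (Module.finrank ℚ S) → ℚ)) :=
    c_pi (fun k => c_sum (fun i => c_qmul (hq i) (Computable.const _)))
  exact (cp_eq h2 (Computable.const _)).of_eq (fun a => (h1 a).symm)

end Vec

end Pool.Agent.CQ
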