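import Pool.Agent.Helper39.CJ.LatA
import Pool.Agent.Helper29.CP.Defs

/-!
# The lattice theorem
-/

set_option autoImplicit false

namespace Pool.Agent.NP

open Finset Pool.Agent.LIN Pool.Agent.Kol Pool.Agent.CQ

open scoped commutatorElement

variable {n : ℕ}

/-! ### the commutator subgroup of a finitely generated subgroup is r.e. -/

/-- inverse word -/
def iw {k : ℕ} (w : List (Fin k × Bool)) : List (Fin k × Bool) :=
  (w.map (fun p => (p.1, !p.2))).reverse

lemma wev_iw {k : ℕ} (s : Fin k → GL (Fin n) ℚ) (w : List (Fin k × Bool)) :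
    wev s (iw w) = (wev s w)⁻¹ := by
  unfold iw
  induction w with
  | nil => simp [wev]
  | cons p w ih =>
    rw [List.map_cons, List.reverse_cons, wev_append, ih]
    have h1 : wev s (p :: w) = wev s [p] * wev s w := wev_append s [p] w
    rw [h1, mul_inv_rev]
    congr 1
    obtain ⟨i, b⟩ := p
    cases b <;> simp [wev]

/-- commutator word -/
def cw {k : ℕ} (p : List (Fin k × Bool) × List (Fin k × Bool)) : List (Fin k × Bool) :=
  p.1 ++ p.2 ++ iw p.1 ++ iw p.2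

lemma wev_cw {k : ℕ} (s : Fin k → GL (Fin n) ℚ)
    (p : List (Fin k × Bool) × List (Fin k × Bool)) :
    wev s (cw p) = wev s p.1 * wev s p.2 * (wev s p.1)⁻¹ * (wev s p.2)⁻¹ := by
  unfold cw
  rw [wev_append, wev_append, wev_append, wev_iw, wev_iw]

lemma pr_iw {k : ℕ} : Primrec (iw : List (Fin k × Bool) → List (Fin k × Bool)) := by
  unfold iw
  have h1 : Primrec (fun p : Fin k × Bool => (p.1, !p.2)) := Primrec.dom_finite _
  exact Primrec.list_reverse.comp (pr_listMap h1)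

lemma pr_cw {k : ℕ} : Primrec (cw : List (Fin k × Bool) × List (Fin k × Bool) →
    List (Fin k × Bool)) := by
  unfold cw
  exact Primrec.list_append.comp (Primrec.list_append.comp (Primrec.list_append.comp
    Primrec.fst Primrec.snd) (pr_iw.comp Primrec.fst)) (pr_iw.comp Primrec.snd)

lemma wev_flatten {k : ℕ} (s : Fin k → GL (Fin n) ℚ) (l : List (List (Fin k × Bool))) :
    wev s l.flatten = (l.map (wev s)).prod := by
  induction l with
  | nil => simp [wev]
  | cons w l ih => rw [List.flatten_cons, wev_append, ih, List.map_cons, List.prod_cons]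

lemma mem_commutator_iff {k : ℕ} {G : Subgroup (GL (Fin n) ℚ)} (s : Fin k → GL (Fin n) ℚ)
    (hs : ∀ x, x ∈ G ↔ ∃ w, wev s w = x) (x : GL (Fin n) ℚ) :
    x ∈ ⁅G, G⁆ ↔ ∃ l : List (List (Fin k × Bool) × List (Fin k × Bool)),
      wev s (l.map cw).flatten = x := by
  constructor
  · intro hx
    rw [Subgroup.commutator_def] at hx
    refine Subgroup.closure_induction (p := fun x _ =>
      ∃ l : List (List (Fin k × Bool) × List (Fin k × Bool)),
        wev s (l.map cw).flatten = x) ?_ ?_ ?_ ?_ hx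
    · rintro _ ⟨a, ha, b, hb, rfl⟩
      obtain ⟨u, rfl⟩ := (hs a).1 ha
      obtain ⟨v, rfl⟩ := (hs b).1 hb
      refine ⟨[(u, v)], ?_⟩
      simp [wev_cw, commutatorElement_def]
    · exact ⟨[], by simp [wev]⟩
    · rintro a b _ _ ⟨l, rfl⟩ ⟨l', rfl⟩
      refine ⟨l ++ l', ?_⟩
      rw [List.map_append, List.flatten_append, wev_append]
    · rintro a _ ⟨l, rfl⟩
      refine ⟨(l.map (fun p => (p.2, p.1))).reverse, ?_⟩
      have key : ∀ l : List (List (Fin k × Bool) × List (Fin k × Bool)),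
          wev s (((l.map (fun p => (p.2, p.1))).reverse).map cw).flatten =
            (wev s (l.map cw).flatten)⁻¹ := by
        intro l
        induction l with
        | nil => simp [wev]
        | cons p l ih =>
          have e1 : wev s (List.map cw (p :: l)).flatten =
              wev s (cw p) * wev s (l.map cw).flatten := by
            rw [List.map_cons, List.flatten_cons, wev_append]
          have e2 : wev s ((((p :: l).map (fun p => (p.2, p.1))).reverse).map cw).flatten =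
              wev s (((l.map (fun p => (p.2, p.1))).reverse).map cw).flatten *
                wev s (cw (p.2, p.1)) := by
            rw [List.map_cons, List.reverse_cons, List.map_append, List.flatten_append, wev_append]
            congr 1
            simp only [List.map_cons, List.map_nil, List.flatten_cons, List.flatten_nil,
              List.append_nil]
          rw [e1, e2, ih, mul_inv_rev, wev_cw, wev_cw]
          group
      exact key l
  · rintro ⟨l, rfl⟩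
    rw [wev_flatten]
    refine Subgroup.list_prod_mem _ ?_
    intro x hx
    obtain ⟨w, hw, rfl⟩ := List.mem_map.1 hx
    obtain ⟨p, _, rfl⟩ := List.mem_map.1 hw
    rw [wev_cw]
    exact Subgroup.commutator_mem_commutator ((hs _).2 ⟨_, rfl⟩) ((hs _).2 ⟨_, rfl⟩)

theorem re_commutator {G : Subgroup (GL (Fin n) ℚ)} (hG : G.FG) :
    REPred (fun A : Matrix (Fin n) (Fin n) ℚ =>
      ∃ x ∈ ⁅G, G⁆, (x : Matrix (Fin n) (Fin n) ℚ) = A) := by
  obtain ⟨k, s, _, hs⟩ := exists_gens hG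
  have h1 : Primrec (fun l : List (List (Fin k × Bool) × List (Fin k × Bool)) =>
      (wev s (l.map cw).flatten : Matrix (Fin n) (Fin n) ℚ)) :=
    (pr_wev s).comp (Primrec.list_flatten.comp (pr_listMap pr_cw))
  have h : REPred (fun A : Matrix (Fin n) (Fin n) ℚ =>
      ∃ l : List (List (Fin k × Bool) × List (Fin k × Bool)),
      (wev s (l.map cw).flatten : Matrix (Fin n) (Fin n) ℚ) = A) :=
    re_exists (re_eq (h1.to_comp.comp Computable.snd) Computable.fst)
  refine h.of_eq (fun A => ?_)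
  constructor
  · rintro ⟨l, hl⟩
    exact ⟨_, (mem_commutator_iff s hs _).2 ⟨l, rfl⟩, hl⟩
  · rintro ⟨x, hx, hxA⟩
    obtain ⟨l, rfl⟩ := (mem_commutator_iff s hs x).1 hx
    exact ⟨l, hxA⟩

lemma c_Lg {α : Type*} [Primcodable α] {f : α → Matrix (Fin n) (Fin n) ℚ} (hf : Computable f)
    (c : ℕ) : Computable (fun a => Lg c (f a)) := by
  unfold Lg
  exact c_msum _ (fun k _ => c_smul (Computable.const _)
    (c_pow (c_msub hf (Computable.const 1)) k))

theorem re_LL {R : Subgroup (GL (Fin n) ℚ)}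
    (hR : REPred (fun A : Matrix (Fin n) (Fin n) ℚ =>
      ∃ x ∈ R, (x : Matrix (Fin n) (Fin n) ℚ) = A)) (c t : ℕ) :
    REPred (fun X : Matrix (Fin n) (Fin n) ℚ => X ∈ LL R c t) := by
  refine re_addClosure ?_
  have h : REPred (fun X : Matrix (Fin n) (Fin n) ℚ => ∃ A : Matrix (Fin n) (Fin n) ℚ,
      (∃ x ∈ R, (x : Matrix (Fin n) (Fin n) ℚ) = A) ∧ X = (t : ℚ) • Lg c A) := by
    refine re_exists (re_and (re_comp hR Computable.snd) (re_eq Computable.fst ?_))
    exact c_smul (Computable.const _) (c_Lg Computable.snd c)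
  refine h.of_eq (fun X => ?_)
  constructor
  · rintro ⟨A, ⟨x, hx, rfl⟩, rfl⟩
    exact ⟨x, hx, by ext i j; simp⟩
  · rintro ⟨x, hx, rfl⟩
    exact ⟨_, ⟨x, hx, rfl⟩, by ext i j; simp⟩

/-! ### denominators -/

lemma InR_mono {s s' : ℕ} (h : s ∣ s') {q : ℚ} (hq : InR s q) : InR s' q := by
  obtain ⟨d, rfl⟩ := h
  obtain ⟨j, z, hz⟩ := hq
  refine ⟨j, (d : ℤ) ^ j * z, ?_⟩
  push_cast
  rw [mul_pow, ← hz]; ring

/-- matrices with entries in `ℤ[1/s]` -/
def MInR (s : ℕ) (X : Matrix (Fin n) (Fin n) ℚ) : Prop := ∀ i j, InR s (X i j)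

lemma MInR.mul {s : ℕ} {X Y : Matrix (Fin n) (Fin n) ℚ} (hX : MInR s X) (hY : MInR s Y) :
    MInR s (X * Y) := by
  intro i j
  rw [Matrix.mul_apply]
  exact InR.sum _ (fun k _ => (hX i k).mul (hY k j))

lemma MInR.one (s : ℕ) : MInR s (1 : Matrix (Fin n) (Fin n) ℚ) := by
  intro i j
  by_cases h : i = j
  · rw [h, Matrix.one_apply_eq]; simpa using InR.int s 1
  · rw [Matrix.one_apply_ne h]; exact InR.zero s

lemma InR.neg' {s : ℕ} {q : ℚ} (h : InR s q) : InR s (-q) := by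
  have := (InR.int s (-1)).mul h
  simpa using this

lemma MInR.add {s : ℕ} {X Y : Matrix (Fin n) (Fin n) ℚ} (hX : MInR s X) (hY : MInR s Y) :
    MInR s (X + Y) := fun i j => (hX i j).add (hY i j)

lemma MInR.neg {s : ℕ} {X : Matrix (Fin n) (Fin n) ℚ} (hX : MInR s X) :
    MInR s (-X) := fun i j => InR.neg' (hX i j)

lemma MInR.smul {s : ℕ} {q : ℚ} (hq : InR s q) {X : Matrix (Fin n) (Fin n) ℚ} (hX : MInR s X) :
    MInR s (q • X) := fun i j => by
  rw [Matrix.smul_apply, smul_eq_mul]; exact hq.mul (hX i j)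

lemma MInR.pow {s : ℕ} {X : Matrix (Fin n) (Fin n) ℚ} (hX : MInR s X) (k : ℕ) :
    MInR s (X ^ k) := by
  induction k with
  | zero => rw [pow_zero]; exact MInR.one s
  | succ k ih => rw [pow_succ]; exact ih.mul hX

lemma MInR.sum {s : ℕ} {ι : Type*} (T : Finset ι) {X : ι → Matrix (Fin n) (Fin n) ℚ}
    (hX : ∀ i ∈ T, MInR s (X i)) : MInR s (∑ i ∈ T, X i) := by
  intro i j
  rw [Matrix.sum_apply]
  exact InR.sum _ (fun k hk => hX k hk i j)

lemma exists_den_group {G : Subgroup (GL (Fin n) ℚ)} (hG : G.FG) :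
    ∃ s : ℕ, 0 < s ∧ ∀ x ∈ G, MInR s (x : Matrix (Fin n) (Fin n) ℚ) := by
  obtain ⟨k, g, _, hg⟩ := exists_gens hG
  obtain ⟨d, hd, hdz⟩ := exists_den (fun q : (Fin k × Bool) × (Fin n × Fin n) =>
    ((if q.1.2 then g q.1.1 else (g q.1.1)⁻¹ : GL (Fin n) ℚ) : Matrix (Fin n) (Fin n) ℚ)
      q.2.1 q.2.2)
  refine ⟨d, hd, fun x hx => ?_⟩
  obtain ⟨w, rfl⟩ := (hg x).1 hx
  induction w with
  | nil => simp only [wev, List.map_nil, List.prod_nil, Units.val_one]; exact MInR.one d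
  | cons p w ih =>
    have h1 : wev g (p :: w) = (if p.2 then g p.1 else (g p.1)⁻¹) * wev g w := by
      unfold wev; rw [List.map_cons, List.prod_cons]
    rw [h1, Units.val_mul]
    refine MInR.mul ?_ (ih ((hg _).2 ⟨w, rfl⟩))
    intro i j
    obtain ⟨z, hz⟩ := hdz (p, (i, j))
    exact ⟨1, z, by simpa using hz⟩

lemma den_LL {R : Subgroup (GL (Fin n) ℚ)} {s : ℕ}
    (hs : ∀ x ∈ R, MInR s (x : Matrix (Fin n) (Fin n) ℚ)) (c t : ℕ) :
    ∀ X ∈ LL R c t, MInR (s * c.factorial) X := by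
  have hinv : ∀ k ∈ range c, InR (s * c.factorial) ((k : ℚ)⁻¹) := by
    intro k hk
    rcases Nat.eq_zero_or_pos k with h0 | h0
    · rw [h0]; simpa using InR.zero _
    · obtain ⟨d, hd⟩ : k ∣ c.factorial := Nat.dvd_factorial h0 (Finset.mem_range.1 hk).le
      refine ⟨1, s * d, ?_⟩
      have : (k : ℚ) ≠ 0 := by exact_mod_cast h0.ne'
      rw [hd]
      push_cast
      field_simp
  intro X hX
  refine AddSubgroup.closure_induction (p := fun X _ => MInR (s * c.factorial) X)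
    ?_ ?_ ?_ ?_ hX
  · rintro _ ⟨x, hx, rfl⟩
    have h1 : MInR (s * c.factorial) (Lg c (x : Matrix (Fin n) (Fin n) ℚ)) := by
      unfold Lg
      refine MInR.sum _ (fun k hk => MInR.smul (InR.mul ?_ (hinv k hk)) (MInR.pow ?_ k))
      · have := InR.int (s * c.factorial) ((-1) ^ (k + 1))
        simpa using this
      · rw [sub_eq_add_neg]
        exact MInR.add (fun i j => InR_mono (Dvd.intro _ rfl) (hs x hx i j)) (MInR.neg (MInR.one _))
    have h2 : (t : ℤ) • Lg c (x : Matrix (Fin n) (Fin n) ℚ) =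
        (t : ℚ) • Lg c (x : Matrix (Fin n) (Fin n) ℚ) := by
      ext i j; simp
    rw [h2]
    exact MInR.smul (by simpa using InR.int (s * c.factorial) t) h1
  · intro i j; rw [Matrix.zero_apply]; exact InR.zero _
  · intro x y _ _ hx hy; exact hx.add hy
  · intro x _ hx; exact hx.neg

/-- The lattice data of a unipotent group. -/
noncomputable def latOf {R : Subgroup (GL (Fin n) ℚ)} {c t : ℕ} (hc : 0 < c) (hN : NilJ R c)
    (hG : Good R c t) (hre : REPred (fun A : Matrix (Fin n) (Fin n) ℚ =>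
      ∃ x ∈ R, (x : Matrix (Fin n) (Fin n) ℚ) = A)) {s : ℕ} (hs0 : 0 < s)
    (hs : ∀ x ∈ R, MInR s (x : Matrix (Fin n) (Fin n) ℚ)) : Lat n where
  L := LL R c t
  c := c
  V := flag R
  hV0 := rfl
  hVc := flag_bot R hN
  hVanti := flag_anti R
  hVL := fun _ hX _ _ hv => flag_step (LL_le hX) hv
  re := re_LL hre c t
  s := s * c.factorial
  hs := Nat.mul_pos hs0 (Nat.factorial_pos c)
  den := den_LL hs c t
  mul := hG.mul
  inv := fun _ hX => E_neg (hN.pow (LL_le hX))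

lemma fg_of_relIndex {G : Type*} [Group G] {H K : Subgroup G} (hHK : H ≤ K) (hK : K.FG)
    (h : H.relIndex K ≠ 0) : H.FG := by
  have : Group.FG K := (Group.fg_iff_subgroup_fg K).2 hK
  have : (H.subgroupOf K).FiniteIndex := ⟨h⟩
  have h1 : Group.FG (H.subgroupOf K) := inferInstance
  have h2 : Group.FG H := Group.fg_of_surjective (f := (Subgroup.subgroupOfEquivOfLe hHK).toMonoidHom)
    (Subgroup.subgroupOfEquivOfLe hHK).surjective
  exact (Group.fg_iff_subgroup_fg H).1 h2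

/-- The lattice theorem, modulo the existence of good lattices. -/
theorem lattice_theorem_aux (hgood : ∀ (R : Subgroup (GL (Fin n) ℚ)) (c : ℕ), 1 < c → NilJ R c →
      ∃ t, Good R c t)
    (Γ : Subgroup (GL (Fin n) ℚ)) (hΓ : Γ.FG) (hV : CP.VirtUnipAb Γ) :
    ∃ (G1 N1 : Subgroup (GL (Fin n) ℚ)) (D : Lat n), G1 ≤ Γ ∧ G1.relIndex Γ ≠ 0 ∧ G1.FG ∧ N1 ≤ G1 ∧
      (∀ a ∈ G1, ∀ b ∈ G1, a * b * a⁻¹ * b⁻¹ ∈ N1) ∧
      (∀ g ∈ G1, ∀ x ∈ N1, g * x * g⁻¹ ∈ N1) ∧
      (∀ x : GL (Fin n) ℚ, x ∈ N1 ↔ ∃ X ∈ D.L, (x : Matrix (Fin n) (Fin n) ℚ) = E D.c X) ∧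
      (∀ X ∈ D.L, ∃ x ∈ N1, (x : Matrix (Fin n) (Fin n) ℚ) = E D.c X) ∧
      (∀ g ∈ G1, ∀ X ∈ D.L, (g : Matrix (Fin n) (Fin n) ℚ) * X *
        ((g⁻¹ : GL (Fin n) ℚ) : Matrix (Fin n) (Fin n) ℚ) ∈ D.L) ∧
      (∀ g ∈ G1, ∀ i, ∀ v ∈ D.V i, (g : Matrix (Fin n) (Fin n) ℚ).mulVec v ∈ D.V i) ∧
      (∀ X ∈ D.L, X ^ D.c = 0) := by
  classical
  obtain ⟨G0, N, hG0, hN, hidx, hcomm, c0, hc0⟩ := hV
  -- G0 is finitely generated
  have hG0fg : G0.FG := fg_of_relIndex hG0 hΓ hidx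
  set R : Subgroup (GL (Fin n) ℚ) := ⁅G0, G0⁆ with hR
  have hRN : R ≤ N := by
    rw [hR, Subgroup.commutator_le]
    intro a ha b hb
    exact hcomm a ha b hb
  have hRG0 : R ≤ G0 := hRN.trans hN
  have hnil : ∀ x ∈ R, IsNilpotent ((x : Matrix (Fin n) (Fin n) ℚ) - 1) := by
    intro x hx
    refine ⟨c0, ?_⟩
    have h1 := hc0 (List.replicate c0 x) (by simp) (fun y hy => by
      rw [List.eq_of_mem_replicate hy]; exact hRN hx)
    rwa [List.map_replicate, List.prod_replicate] at h1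
  obtain ⟨c1, hc1⟩ := kolchin_J R hnil
  have hNil : NilJ R (c1 + 2) := NilJ.succ (NilJ.succ hc1)
  have hc : 0 < c1 + 2 := Nat.succ_pos _
  obtain ⟨t, hgt⟩ := hgood R (c1 + 2) (by omega) hNil
  obtain ⟨s, hs0, hs⟩ := exists_den_group hG0fg
  have hsR : ∀ x ∈ R, MInR s (x : Matrix (Fin n) (Fin n) ℚ) := fun x hx => hs x (hRG0 hx)
  let D : Lat n := latOf hc hNil hgt (re_commutator hG0fg) hs0 hsR
  let N0 : Subgroup (GL (Fin n) ℚ) := expG hc hNil hgt
  have hN0R : N0 ≤ R := expG_le hc hNil hgt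
  have hconjR : ∀ g ∈ G0, ∀ x ∈ R, g * x * g⁻¹ ∈ R := by
    intro g hg x hx
    have h1 : g * x * g⁻¹ = ⁅g, x⁆ * x := by rw [commutatorElement_def]; group
    rw [h1]
    exact R.mul_mem (Subgroup.commutator_mem_commutator hg (hRG0 hx)) hx
  have hconjN0 : ∀ g ∈ G0, ∀ x ∈ N0, g * x * g⁻¹ ∈ N0 :=
    fun g hg x hx => expG_normal hc hNil hgt (hconjR g hg) hx
  -- the quotient
  haveI hnorm : (N0.subgroupOf G0).Normal := by
    constructor
    intro x hx g
    rw [Subgroup.mem_subgroupOf] at hx ⊢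
    exact hconjN0 g.1 g.2 x.1 hx
  haveI : Group.FG G0 := (Group.fg_iff_subgroup_fg G0).2 hG0fg
  let Q := (G0 ⧸ N0.subgroupOf G0)
  obtain ⟨F, hF1, hF2⟩ := expG_finite hc hNil hgt
  haveI hfin : Finite (commutatorSet Q) := by
    let f : {x // x ∈ F} → Q := fun x => QuotientGroup.mk (⟨x.1, hRG0 (hF1 x.1 x.2)⟩ : G0)
    have hsub : commutatorSet Q ⊆ Set.range f := by
      rintro _ ⟨a, b, rfl⟩
      obtain ⟨a, rfl⟩ := QuotientGroup.mk_surjective a
      obtain ⟨b, rfl⟩ := QuotientGroup.mk_surjective b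
      have h1 : (⁅(a : GL (Fin n) ℚ), (b : GL (Fin n) ℚ)⁆) ∈ R :=
        Subgroup.commutator_mem_commutator a.2 b.2
      obtain ⟨x, hx, hx'⟩ := hF2 _ h1
      refine ⟨⟨x, hx⟩, ?_⟩
      have h2 : (⁅(QuotientGroup.mk a : Q), (QuotientGroup.mk b : Q)⁆) =
          QuotientGroup.mk ⁅a, b⁆ := rfl
      rw [h2]
      simp only [f]
      rw [QuotientGroup.eq, Subgroup.mem_subgroupOf]
      exact hx'
    exact Set.Finite.to_subtype ((Set.finite_range f).subset hsub)
  haveI : Group.FG Q := inferInstance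
  have hcen : (Subgroup.center Q).FiniteIndex := inferInstance
  let G1' : Subgroup G0 := (Subgroup.center Q).comap (QuotientGroup.mk' (N0.subgroupOf G0))
  let G1 : Subgroup (GL (Fin n) ℚ) := G1'.map G0.subtype
  have hG1G0 : G1 ≤ G0 := by
    rintro _ ⟨x, _, rfl⟩
    exact x.2
  have hmemG1 : ∀ x : GL (Fin n) ℚ, x ∈ G1 → ∃ hx : x ∈ G0,
      (QuotientGroup.mk (⟨x, hx⟩ : G0) : Q) ∈ Subgroup.center Q := by
    rintro _ ⟨x, hx, rfl⟩
    exact ⟨x.2, hx⟩
  have hidx1 : G1.relIndex G0 ≠ 0 := by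
    have h1 : G1.subgroupOf G0 = G1' := by
      ext x
      rw [Subgroup.mem_subgroupOf]
      constructor
      · rintro ⟨y, hy, h⟩
        have : y = x := Subtype.ext h
        rw [← this]; exact hy
      · intro hx
        exact ⟨x, hx, rfl⟩
    rw [Subgroup.relIndex, h1]
    have h2 : G1'.index = (Subgroup.center Q).index :=
      Subgroup.index_comap_of_surjective _ (QuotientGroup.mk'_surjective _)
    rw [h2]
    exact hcen.index_ne_zero
  have hN0G1 : N0 ≤ G1 := by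
    intro x hx
    have hx0 : x ∈ G0 := hRG0 (hN0R hx)
    refine ⟨⟨x, hx0⟩, ?_, rfl⟩
    change (QuotientGroup.mk (⟨x, hx0⟩ : G0) : Q) ∈ Subgroup.center Q
    have h1 : (QuotientGroup.mk (⟨x, hx0⟩ : G0) : Q) = 1 := by
      rw [QuotientGroup.eq_one_iff, Subgroup.mem_subgroupOf]
      exact hx
    rw [h1]
    exact Subgroup.one_mem _
  have hidx2 : G1.relIndex Γ ≠ 0 := by
    rw [← Subgroup.relIndex_mul_relIndex G1 G0 Γ hG1G0 hG0]
    exact mul_ne_zero hidx1 hidx
  refine ⟨G1, N0, D, hG1G0.trans hG0, hidx2, fg_of_relIndex (hG1G0.trans hG0) hΓ hidx2, hN0G1,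
    ?_, ?_, ?_, ?_, ?_, ?_, ?_⟩
  · intro a ha b hb
    obtain ⟨ha0, hac⟩ := hmemG1 a ha
    obtain ⟨hb0, _⟩ := hmemG1 b hb
    have h1 : (QuotientGroup.mk ((⟨a, ha0⟩ : G0) * ⟨b, hb0⟩ * (⟨a, ha0⟩ : G0)⁻¹ *
        (⟨b, hb0⟩ : G0)⁻¹) : Q) = 1 := by
      have h2 := Subgroup.mem_center_iff.1 hac (QuotientGroup.mk (⟨b, hb0⟩ : G0) : Q)
      rw [QuotientGroup.mk_mul, QuotientGroup.mk_mul, QuotientGroup.mk_mul,
        QuotientGroup.mk_inv, QuotientGroup.mk_inv, ← h2]
      group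
    rw [QuotientGroup.eq_one_iff, Subgroup.mem_subgroupOf] at h1
    exact h1
  · intro g hg x hx
    exact hconjN0 g (hG1G0 hg) x hx
  · intro x
    exact Iff.rfl
  · intro X hX
    obtain ⟨x, _, hx⟩ := hgt.exp_mem X hX
    exact ⟨x, ⟨X, hX, hx⟩, hx⟩
  · intro g hg X hX
    exact conj_LL (hconjR g (hG1G0 hg)) hX
  · intro g hg i v hv
    exact flag_invariant (hconjR g (hG1G0 hg)) i hv
  · intro X hX
    exact hNil.pow (LL_le hX)

end Pool.Agent.NP
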