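import Pool.Agent.Helper39.CJ.Interp
import Pool.Agent.Helper39.CJ.LatB

/-!
# Existence of good logarithmic lattices and the lattice theorem
-/

set_option autoImplicit false

namespace Pool.Agent.NP

open Finset Pool.Agent.LIN Pool.Agent.Kol

variable {n : ℕ} {R : Subgroup (GL (Fin n) ℚ)} {c : ℕ}

lemma mem_LL_iff {t : ℕ} {X : Matrix (Fin n) (Fin n) ℚ} :
    X ∈ LL R c t ↔ ∃ Y ∈ ML R c, X = t • Y := by
  constructor
  · intro hX
    refine AddSubgroup.closure_induction (p := fun X _ => ∃ Y ∈ ML R c, X = t • Y) ?_ ?_ ?_ ?_ hX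
    · rintro _ ⟨x, hx, rfl⟩
      exact ⟨_, log_mem hx c, by rw [natCast_zsmul]⟩
    · exact ⟨0, AddSubgroup.zero_mem _, by rw [smul_zero]⟩
    · rintro _ _ _ _ ⟨x, hx, rfl⟩ ⟨y, hy, rfl⟩
      exact ⟨x + y, AddSubgroup.add_mem _ hx hy, by rw [smul_add]⟩
    · rintro _ _ ⟨x, hx, rfl⟩
      exact ⟨-x, AddSubgroup.neg_mem _ hx, by rw [smul_neg]⟩
  · rintro ⟨Y, hY, rfl⟩
    refine AddSubgroup.closure_induction (p := fun Y _ => t • Y ∈ LL R c t) ?_ ?_ ?_ ?_ hY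
    · rintro _ ⟨x, hx, rfl⟩
      exact AddSubgroup.subset_closure ⟨x, hx, by rw [natCast_zsmul]⟩
    · rw [smul_zero]; exact AddSubgroup.zero_mem _
    · intro x y _ _ hx hy; rw [smul_add]; exact AddSubgroup.add_mem _ hx hy
    · intro x _ hx; rw [smul_neg]; exact AddSubgroup.neg_mem _ hx

open Polynomial in
lemma log_mul_sq {κ : ℕ} (hc : 1 < c) (hN : NilJ R c) (hκ : Ki n (c * (c + c + c) + 1) κ)
    {a b : GL (Fin n) ℚ} (ha : a ∈ R) (hb : b ∈ R) (t : ℕ) :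
    ∃ Z ∈ ML R c, κ ^ 2 • (Lg c ((a ^ t * b ^ t : GL (Fin n) ℚ) : Matrix (Fin n) (Fin n) ℚ) -
      t • Lg c (a : Matrix (Fin n) (Fin n) ℚ) - t • Lg c (b : Matrix (Fin n) (Fin n) ℚ)) =
      (t ^ 2) • Z := by
  have hc0 : 0 < c := by omega
  set P : (Matrix (Fin n) (Fin n) ℚ)[X] :=
    PL c (PE c (Lg c (a : Matrix (Fin n) (Fin n) ℚ)) *
      PE c (Lg c (b : Matrix (Fin n) (Fin n) ℚ))) -
      X * C (Lg c (a : Matrix (Fin n) (Fin n) ℚ)) -
      X * C (Lg c (b : Matrix (Fin n) (Fin n) ℚ)) with hP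
  have hev : ∀ t : ℕ, ev n t P =
      Lg c ((a ^ t * b ^ t : GL (Fin n) ℚ) : Matrix (Fin n) (Fin n) ℚ) -
      t • Lg c (a : Matrix (Fin n) (Fin n) ℚ) - t • Lg c (b : Matrix (Fin n) (Fin n) ℚ) := by
    intro t
    rw [hP, map_sub, map_sub, ev_PL, map_mul, ev_PE, ev_PE, E_pow hc0 hN ha, E_pow hc0 hN hb,
      map_mul, map_mul, ev_X, ev_C, ev_C, ← Units.val_mul, nsmul_eq_mul, nsmul_eq_mul]
  have hdeg : P.natDegree < c * (c + c + c) + 1 := by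
    refine Nat.lt_succ_of_le ?_
    have h1 : (PL c (PE c (Lg c (a : Matrix (Fin n) (Fin n) ℚ)) *
        PE c (Lg c (b : Matrix (Fin n) (Fin n) ℚ)))).natDegree ≤ c * (c + c) :=
      natDegree_PL ((Polynomial.natDegree_mul_le).trans
        (Nat.add_le_add (natDegree_PE _ _) (natDegree_PE _ _)))
    have h2 : c * (c + c) ≤ c * (c + c + c) := Nat.mul_le_mul_left _ (by omega)
    have h3 : 1 ≤ c * (c + c + c) := by nlinarith
    refine (Polynomial.natDegree_sub_le _ _).trans (max_le ?_ ?_)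
    · refine (Polynomial.natDegree_sub_le _ _).trans (max_le (h1.trans h2) ?_)
      refine (Polynomial.natDegree_mul_le).trans ?_
      rw [natDegree_C, add_zero]
      exact (Polynomial.natDegree_X_le).trans h3
    · refine (Polynomial.natDegree_mul_le).trans ?_
      rw [natDegree_C, add_zero]
      exact (Polynomial.natDegree_X_le).trans h3
  have h0 : P.coeff 0 = 0 := by
    rw [← ev_zero, hev 0, pow_zero, pow_zero, mul_one, Units.val_one, Lg_one, zero_smul, zero_smul,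
      sub_self, sub_zero]
  have hc0' : ∀ Y : Matrix (Fin n) (Fin n) ℚ, (PE c Y).coeff 0 = 1 := by
    intro Y; rw [coeff_PE, if_pos hc0]; simp
  have hc1' : ∀ Y : Matrix (Fin n) (Fin n) ℚ, (PE c Y).coeff 1 = Y := by
    intro Y; rw [coeff_PE, if_pos hc]; simp
  have h1 : P.coeff 1 = 0 := by
    rw [hP, coeff_sub, coeff_sub, PL_coeff_one hc, mul_coeff_one]
    · simp only [hc0', hc1', mul_one, one_mul]
      rw [show (1 : ℕ) = 0 + 1 from rfl, coeff_X_mul, coeff_X_mul, coeff_C_zero, coeff_C_zero]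
      abel
    · rw [mul_coeff_zero, hc0', hc0', mul_one]
  have hval : ∀ t : ℕ, κ • ev n t P ∈ ML R c := by
    intro t
    rw [hev t, ← log_pow hc0 hN hb, ← log_pow hc0 hN ha]
    refine ML_mono (Si_le R 1) c (log_mul hc hN hκ (i := 0) (R.pow_mem ha t) ?_)
    rw [Si_zero]
    exact R.pow_mem hb t
  obtain ⟨Z, hZ, h⟩ := ev_div2 hdeg h0 h1 (hκ.one hdeg hval) t
  exact ⟨Z, hZ, by rw [← hev t]; exact h⟩

lemma nsmul_inj_mat {m : ℕ} (hm : m ≠ 0) {X Y : Matrix (Fin n) (Fin n) ℚ} (h : m • X = m • Y) :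
    X = Y := by
  have h1 : m • (X - Y) = 0 := by rw [smul_sub, h, sub_self]
  rw [← Nat.cast_smul_eq_nsmul ℚ] at h1
  rcases smul_eq_zero.1 h1 with h3 | h3
  · exact absurd (Nat.cast_eq_zero.1 h3) hm
  · exact sub_eq_zero.1 h3

theorem exists_good (hc : 1 < c) (hN : NilJ R c) : ∃ t, Good R c t := by
  have hc0 : 0 < c := by omega
  obtain ⟨κ, hκ⟩ := exists_Ki n (c * (c + c + c) + 1)
  set K : ℕ := (κ ^ 2) ^ (c - 1) with hK
  have hκpos : 0 < κ := hκ.1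
  have hKpos : 0 < K := pow_pos (pow_pos hκpos 2) _
  set t1 : ℕ := κ ^ 2 * K with ht1
  have ht1pos : 0 < t1 := Nat.mul_pos (pow_pos hκpos 2) hKpos
  have hmemR : ∀ Y ∈ ML R c, ∃ x ∈ R, (x : Matrix (Fin n) (Fin n) ℚ) = E c (K • Y) := by
    intro Y hY
    obtain ⟨s, hs, h⟩ := exp_mem_aux hc hN hκ (c - 1) 0 (by omega) 1 R.one_mem Y
      (by rw [Si_zero]; exact hY)
    rw [Units.val_one, Lg_one, zero_add, one_mul] at h
    exact ⟨s, hs.1, h.symm⟩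
  have hJ : ∀ Y ∈ ML R c, Y ∈ Jsp R := by
    intro Y hY
    have h1 : (1 : ℕ) • Y ∈ LL R c 1 := mem_LL_iff.2 ⟨Y, hY, rfl⟩
    rw [one_smul] at h1
    exact LL_le h1
  refine ⟨t1 * K, ⟨Nat.mul_pos ht1pos hKpos, ?_, ?_, ?_⟩⟩
  · intro X hX
    obtain ⟨Y, hY, rfl⟩ := mem_LL_iff.1 hX
    obtain ⟨x, hx, h⟩ := hmemR (t1 • Y) (AddSubgroup.nsmul_mem _ hY _)
    exact ⟨x, hx, by rw [h, ← mul_smul, mul_comm]⟩
  · intro X hX X' hX'
    obtain ⟨Y, hY, rfl⟩ := mem_LL_iff.1 hX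
    obtain ⟨Y', hY', rfl⟩ := mem_LL_iff.1 hX'
    obtain ⟨w, hw, hwY⟩ := hmemR Y hY
    obtain ⟨w', hw', hwY'⟩ := hmemR Y' hY'
    have e1 : Lg c (w : Matrix (Fin n) (Fin n) ℚ) = K • Y := by
      rw [hwY, Lg_E hc0 (nsmul_pow_zero (hN.pow (hJ Y hY)) _)]
    have e2 : Lg c (w' : Matrix (Fin n) (Fin n) ℚ) = K • Y' := by
      rw [hwY', Lg_E hc0 (nsmul_pow_zero (hN.pow (hJ Y' hY')) _)]
    obtain ⟨Z, hZ, h⟩ := log_mul_sq hc hN hκ hw hw' t1
    have h2 : Lg c ((w ^ t1 * w' ^ t1 : GL (Fin n) ℚ) : Matrix (Fin n) (Fin n) ℚ) =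
        (t1 * K) • (Y + Y' + Z) := by
      have h3 : Lg c ((w ^ t1 * w' ^ t1 : GL (Fin n) ℚ) : Matrix (Fin n) (Fin n) ℚ) -
          t1 • Lg c (w : Matrix (Fin n) (Fin n) ℚ) - t1 • Lg c (w' : Matrix (Fin n) (Fin n) ℚ) =
          (t1 * K) • Z := by
        apply nsmul_inj_mat (pow_pos hκpos 2).ne'
        rw [h, ← mul_smul]
        congr 1
        rw [ht1]; ring
      rw [e1, e2] at h3
      rw [smul_add, smul_add, ← h3, ← mul_smul, ← mul_smul]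
      abel
    refine ⟨(t1 * K) • (Y + Y' + Z), mem_LL_iff.2 ⟨_, AddSubgroup.add_mem _
      (AddSubgroup.add_mem _ hY hY') hZ, rfl⟩, ?_⟩
    rw [← h2, E_log hc0 hN (R.mul_mem (R.pow_mem hw _) (R.pow_mem hw' _)), Units.val_mul,
      ← E_pow hc0 hN hw, ← E_pow hc0 hN hw', e1, e2, ← mul_smul, ← mul_smul]
  · intro x hx
    rw [natCast_zsmul, E_pow hc0 hN hx]

/-- **The lattice theorem.** A finitely generated virtually unipotent-by-abelian group of rational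
matrices has a finitely generated subgroup `G1` of finite index and a normal subgroup `N1` of `G1`
containing the commutators of `G1`, such that `N1 = exp L` for a logarithmic lattice `L` which is
invariant under conjugation by `G1` and which shifts a `G1`-invariant flag. -/
theorem lattice_theorem (Γ : Subgroup (GL (Fin n) ℚ)) (hΓ : Γ.FG) (hV : CP.VirtUnipAb Γ) :
    ∃ (G1 N1 : Subgroup (GL (Fin n) ℚ)) (D : Lat n), G1 ≤ Γ ∧ G1.relIndex Γ ≠ 0 ∧ G1.FG ∧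
      N1 ≤ G1 ∧
      (∀ a ∈ G1, ∀ b ∈ G1, a * b * a⁻¹ * b⁻¹ ∈ N1) ∧
      (∀ g ∈ G1, ∀ x ∈ N1, g * x * g⁻¹ ∈ N1) ∧
      (∀ x : GL (Fin n) ℚ, x ∈ N1 ↔ ∃ X ∈ D.L, (x : Matrix (Fin n) (Fin n) ℚ) = E D.c X) ∧
      (∀ X ∈ D.L, ∃ x ∈ N1, (x : Matrix (Fin n) (Fin n) ℚ) = E D.c X) ∧
      (∀ g ∈ G1, ∀ X ∈ D.L, (g : Matrix (Fin n) (Fin n) ℚ) * X *
        ((g⁻¹ : GL (Fin n) ℚ) : Matrix (Fin n) (Fin n) ℚ) ∈ D.L) ∧
      (∀ g ∈ G1, ∀ i, ∀ v ∈ D.V i, (g : Matrix (Fin n) (Fin n) ℚ).mulVec v ∈ D.V i) ∧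
      (∀ X ∈ D.L, X ^ D.c = 0) :=
  lattice_theorem_aux (fun _ _ hc hN => exists_good hc hN) Γ hΓ hV

end Pool.Agent.NP
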