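import Mathlib

/-!
# Computable rational arithmetic

A `Primcodable ℚ` instance (code = numerator, denominator) for which the field operations are
primitive recursive, and finite sums and products over fixed finite index types.
-/

set_option autoImplicit false

namespace Pool.Agent.CQ

/-! ### integers -/

lemma pr_enc_nat (n : ℕ) : Encodable.encode (n : ℤ) = 2 * n := rfl

lemma pr_enc_negSucc (n : ℕ) : Encodable.encode (Int.negSucc n) = 2 * n + 1 := rfl

section Prim

variable {α : Type*} [Primcodable α]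

lemma pr_npow {f g : α → ℕ} (hf : Primrec f) (hg : Primrec g) : Primrec (fun a => f a ^ g a) := by
  have h : Primrec₂ (fun a b : ℕ => a ^ b) := Primrec₂.unpaired'.1 Nat.Primrec.pow
  exact h.comp hf hg

lemma pr_natCast {f : α → ℕ} (hf : Primrec f) : Primrec (fun a => (f a : ℤ)) := by
  refine Primrec.encode_iff.1 ?_
  exact (Primrec.nat_double.comp hf).of_eq (fun a => (pr_enc_nat (f a)).symm)

lemma pr_neg {f : α → ℤ} (hf : Primrec f) : Primrec (fun a => -(f a)) := by
  have h : Primrec (fun z : ℤ => -z) := by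
    refine Primrec.encode_iff.1 ?_
    have h1 : Primrec (fun z : ℤ => if Encodable.encode z % 2 = 0 then Encodable.encode z - 1
        else Encodable.encode z + 1) := by
      refine Primrec.ite ?_ ?_ ?_
      · exact Primrec.eq.comp (Primrec.nat_mod.comp Primrec.encode (Primrec.const 2))
          (Primrec.const 0)
      · exact Primrec.nat_sub.comp Primrec.encode (Primrec.const 1)
      · exact Primrec.succ.comp Primrec.encode
    refine h1.of_eq (fun z => ?_)
    rcases z with n | n
    · rcases n with _ | n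
      · rfl
      · have e1 : Encodable.encode (Int.ofNat (n + 1)) = 2 * (n + 1) := rfl
        have e2 : Encodable.encode (-(Int.ofNat (n + 1))) = 2 * n + 1 := rfl
        rw [e1, e2, if_pos (by omega)]
        omega
    · have e1 : Encodable.encode (Int.negSucc n) = 2 * n + 1 := rfl
      have e2 : Encodable.encode (-(Int.negSucc n)) = 2 * (n + 1) := rfl
      rw [e1, e2, if_neg (by omega)]
      omega
  exact h.comp hf

lemma pr_toNat {f : α → ℤ} (hf : Primrec f) : Primrec (fun a => (f a).toNat) := by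
  have h : Primrec (fun z : ℤ => z.toNat) := by
    have h1 : Primrec (fun z : ℤ => if Encodable.encode z % 2 = 0 then Encodable.encode z / 2
        else 0) := by
      refine Primrec.ite ?_ ?_ ?_
      · exact Primrec.eq.comp (Primrec.nat_mod.comp Primrec.encode (Primrec.const 2))
          (Primrec.const 0)
      · exact Primrec.nat_div.comp Primrec.encode (Primrec.const 2)
      · exact Primrec.const 0
    refine h1.of_eq (fun z => ?_)
    rcases z with n | n
    · have e1 : Encodable.encode (Int.ofNat n) = 2 * n := rfl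
      rw [e1, if_pos (by omega)]
      have e2 : (Int.ofNat n).toNat = n := rfl
      rw [e2]; omega
    · have e1 : Encodable.encode (Int.negSucc n) = 2 * n + 1 := rfl
      rw [e1, if_neg (by omega)]
      rfl
  exact h.comp hf

lemma pr_subNat {f g : α → ℕ} (hf : Primrec f) (hg : Primrec g) :
    Primrec (fun a => (f a : ℤ) - (g a : ℤ)) := by
  have h1 : Primrec (fun a => if g a ≤ f a then ((f a - g a : ℕ) : ℤ)
      else -((g a - f a : ℕ) : ℤ)) := by
    refine Primrec.ite (Primrec.nat_le.comp hg hf) ?_ ?_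
    · exact pr_natCast (Primrec.nat_sub.comp hf hg)
    · exact pr_neg (pr_natCast (Primrec.nat_sub.comp hg hf))
  refine h1.of_eq (fun a => ?_)
  split_ifs with h <;> omega

lemma pr_add {f g : α → ℤ} (hf : Primrec f) (hg : Primrec g) : Primrec (fun a => f a + g a) := by
  have h1 := pr_subNat (Primrec.nat_add.comp (pr_toNat hf) (pr_toNat hg))
    (Primrec.nat_add.comp (pr_toNat (pr_neg hf)) (pr_toNat (pr_neg hg)))
  refine h1.of_eq (fun a => ?_)
  push_cast
  omega

lemma pr_sub {f g : α → ℤ} (hf : Primrec f) (hg : Primrec g) : Primrec (fun a => f a - g a) :=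
  (pr_add hf (pr_neg hg)).of_eq (fun a => by ring)

lemma pr_mul {f g : α → ℤ} (hf : Primrec f) (hg : Primrec g) : Primrec (fun a => f a * g a) := by
  have p1 := pr_toNat hf
  have p2 := pr_toNat hg
  have n1 := pr_toNat (pr_neg hf)
  have n2 := pr_toNat (pr_neg hg)
  have h1 := pr_subNat
    (Primrec.nat_add.comp (Primrec.nat_mul.comp p1 p2) (Primrec.nat_mul.comp n1 n2))
    (Primrec.nat_add.comp (Primrec.nat_mul.comp p1 n2) (Primrec.nat_mul.comp n1 p2))
  refine h1.of_eq (fun a => ?_)
  have e1 : ∀ z : ℤ, z = (z.toNat : ℤ) - ((-z).toNat : ℤ) := fun z => by omega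
  conv_rhs => rw [e1 (f a), e1 (g a)]
  push_cast
  ring

lemma pr_natAbs {f : α → ℤ} (hf : Primrec f) : Primrec (fun a => (f a).natAbs) :=
  (Primrec.nat_add.comp (pr_toNat hf) (pr_toNat (pr_neg hf))).of_eq (fun a => by omega)

/-! ### gcd and canonical fractions -/

lemma pr_dvd : PrimrecRel (fun a b : ℕ => a ∣ b) := by
  have h : PrimrecRel (fun a b : ℕ => b % a = 0) :=
    Primrec.eq.comp (Primrec.nat_mod.comp Primrec.snd Primrec.fst) (Primrec.const 0)
  exact h.of_eq (fun a b => (Nat.dvd_iff_mod_eq_zero).symm)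

lemma gcd_eq (a b : ℕ) : Nat.findGreatest (fun d => d ∣ a ∧ d ∣ b) (a + b) = Nat.gcd a b := by
  rw [Nat.findGreatest_eq_iff]
  refine ⟨?_, ?_, ?_⟩
  · rcases Nat.eq_zero_or_pos a with h | h
    · subst h; simp
    · exact (Nat.gcd_le_left b h).trans (Nat.le_add_right _ _)
  · intro _
    exact ⟨Nat.gcd_dvd_left a b, Nat.gcd_dvd_right a b⟩
  · intro n hn hn' hd
    have h1 : n ∣ Nat.gcd a b := Nat.dvd_gcd hd.1 hd.2
    have h2 : 0 < Nat.gcd a b := by
      rcases Nat.eq_zero_or_pos (Nat.gcd a b) with h | h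
      · rw [Nat.gcd_eq_zero_iff] at h
        omega
      · exact h
    exact absurd (Nat.le_of_dvd h2 h1) (by omega)

lemma pr_gcd : Primrec₂ Nat.gcd := by
  have h : Primrec (fun p : ℕ × ℕ =>
      Nat.findGreatest (fun d => d ∣ p.1 ∧ d ∣ p.2) (p.1 + p.2)) := by
    refine Primrec.nat_findGreatest (Primrec.nat_add.comp Primrec.fst Primrec.snd) ?_
    refine PrimrecPred.and ?_ ?_
    · exact pr_dvd.comp Primrec.snd (Primrec.fst.comp Primrec.fst)
    · exact pr_dvd.comp Primrec.snd (Primrec.snd.comp Primrec.fst)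
  exact h.of_eq (fun p => gcd_eq p.1 p.2)

end Prim

/-- The predicate of reduced fractions. -/
def RedFrac (p : ℤ × ℕ) : Prop := p.2 ≠ 0 ∧ Nat.gcd p.1.natAbs p.2 = 1

instance : DecidablePred RedFrac := fun p => by unfold RedFrac; infer_instance

lemma pr_redFrac : PrimrecPred RedFrac := by
  refine PrimrecPred.and ?_ ?_
  · exact (Primrec.eq.comp Primrec.snd (Primrec.const 0)).not
  · exact Primrec.eq.comp (pr_gcd.comp (pr_natAbs Primrec.fst) Primrec.snd) (Primrec.const 1)

/-- Rational numbers are reduced fractions. -/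
def ratEquiv : ℚ ≃ {p : ℤ × ℕ // RedFrac p} where
  toFun q := ⟨(q.num, q.den), q.den_nz, q.reduced⟩
  invFun p := ⟨p.1.1, p.1.2, p.2.1, p.2.2⟩
  left_inv q := rfl
  right_inv p := rfl

instance ratPrimcodable : Primcodable ℚ :=
  letI : Primcodable {p : ℤ × ℕ // RedFrac p} := Primcodable.subtype pr_redFrac
  Primcodable.ofEquiv _ ratEquiv

section Rat

variable {α : Type*} [Primcodable α]

lemma pr_rat_of_code : Primrec (fun q : ℚ => (q.num, q.den)) := by
  letI : Primcodable {p : ℤ × ℕ // RedFrac p} := Primcodable.subtype pr_redFrac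
  have h1 : Primrec ratEquiv := Primrec.of_equiv
  exact (Primrec.subtype_val.comp h1).of_eq (fun q => rfl)

lemma pr_num {f : α → ℚ} (hf : Primrec f) : Primrec (fun a => (f a).num) :=
  Primrec.fst.comp (pr_rat_of_code.comp hf)

lemma pr_den {f : α → ℚ} (hf : Primrec f) : Primrec (fun a => (f a).den) :=
  Primrec.snd.comp (pr_rat_of_code.comp hf)

lemma pr_rat_iff {f : α → ℚ} :
    Primrec f ↔ Primrec (fun a => ((f a).num, (f a).den)) := by
  constructor
  · intro h
    exact pr_rat_of_code.comp h
  · intro h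
    letI : Primcodable {p : ℤ × ℕ // RedFrac p} := Primcodable.subtype pr_redFrac
    have h1 : Primrec (fun a => ratEquiv (f a)) := by
      refine (Primrec.subtype_val_iff (hp := pr_redFrac)).1 ?_
      exact h
    have h2 : Primrec (ratEquiv.symm) := Primrec.of_equiv_symm
    exact (h2.comp h1).of_eq (fun a => by simp)



/-- Fractions. -/
lemma pr_frac {f : α → ℤ} {g : α → ℕ} (hf : Primrec f) (hg : Primrec g) :
    Primrec (fun a => (f a : ℚ) / (g a : ℚ)) := by
  rw [pr_rat_iff]
  have hG : Primrec (fun a => Nat.gcd (f a).natAbs (g a)) := pr_gcd.comp (pr_natAbs hf) hg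
  have h1 : Primrec (fun a => if g a = 0 then ((0 : ℤ), 1) else
      ((((f a).toNat / Nat.gcd (f a).natAbs (g a) : ℕ) : ℤ) -
        (((-(f a)).toNat / Nat.gcd (f a).natAbs (g a) : ℕ) : ℤ),
        g a / Nat.gcd (f a).natAbs (g a))) := by
    refine Primrec.ite (Primrec.eq.comp hg (Primrec.const 0)) (Primrec.const _) ?_
    refine Primrec.pair ?_ (Primrec.nat_div.comp hg hG)
    exact pr_subNat (Primrec.nat_div.comp (pr_toNat hf) hG)
      (Primrec.nat_div.comp (pr_toNat (pr_neg hf)) hG)
  refine h1.of_eq (fun a => ?_)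
  by_cases h : g a = 0
  · rw [if_pos h, h]
    simp
  · rw [if_neg h]
    set d := Nat.gcd (f a).natAbs (g a) with hd
    have hdpos : 0 < d := Nat.gcd_pos_of_pos_right _ (Nat.pos_of_ne_zero h)
    obtain ⟨u, hu⟩ : d ∣ (f a).natAbs := Nat.gcd_dvd_left _ _
    obtain ⟨v, hv⟩ : d ∣ g a := Nat.gcd_dvd_right _ _
    have hco : Nat.Coprime u v := by
      have := Nat.coprime_div_gcd_div_gcd (m := (f a).natAbs) (n := g a) hdpos
      rw [← hd] at this
      rwa [hu, hv, Nat.mul_div_cancel_left _ hdpos, Nat.mul_div_cancel_left _ hdpos] at this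
    have hvpos : 0 < v := by
      rcases Nat.eq_zero_or_pos v with h0 | h0
      · rw [h0, mul_zero] at hv
        exact absurd hv h
      · exact h0
    -- numerator
    have hnum : (((f a).toNat / d : ℕ) : ℤ) - (((-(f a)).toNat / d : ℕ) : ℤ) =
        Int.sign (f a) * u := by
      rcases lt_trichotomy (f a) 0 with h0 | h0 | h0
      · have e1 : (f a).toNat = 0 := by omega
        have e2 : (-(f a)).toNat = d * u := by omega
        rw [e1, e2, Nat.mul_div_cancel_left _ hdpos, Nat.zero_div, Int.sign_eq_neg_one_of_neg h0]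
        push_cast; ring
      · rw [h0]; simp
      · have e1 : (f a).toNat = d * u := by omega
        have e2 : (-(f a)).toNat = 0 := by omega
        rw [e1, e2, Nat.mul_div_cancel_left _ hdpos, Nat.zero_div, Int.sign_eq_one_of_pos h0]
        push_cast; ring
    have hden : g a / d = v := by
      rw [hv, Nat.mul_div_cancel_left _ hdpos]
    have hq : (f a : ℚ) / (g a : ℚ) = ((Int.sign (f a) * u : ℤ) : ℚ) / ((v : ℤ) : ℚ) := by
      have e1 : (f a : ℤ) = Int.sign (f a) * (d * u : ℕ) := by
        rw [← hu]; exact (Int.sign_mul_natAbs (f a)).symm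
      have hd' : (d : ℚ) ≠ 0 := by exact_mod_cast hdpos.ne'
      have hv' : (v : ℚ) ≠ 0 := by exact_mod_cast hvpos.ne'
      have e2 : (g a : ℚ) = d * v := by rw [hv]; push_cast; ring
      have e3 : (f a : ℚ) = (Int.sign (f a) : ℚ) * (d * u) := by
        have := congrArg (fun z : ℤ => (z : ℚ)) e1
        simpa using this
      rw [e2, e3]
      push_cast
      field_simp
    have hcop : Nat.Coprime (Int.sign (f a) * u : ℤ).natAbs (v : ℤ).natAbs := by
      rw [Int.natAbs_mul, Int.natAbs_natCast, Int.natAbs_natCast]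
      rcases lt_trichotomy (f a) 0 with h0 | h0 | h0
      · rw [Int.sign_eq_neg_one_of_neg h0]; simpa using hco
      · rw [h0] at hu
        have hu0 : u = 0 := by
          simp only [Int.natAbs_zero] at hu
          rcases Nat.mul_eq_zero.1 hu.symm with h1 | h1
          · omega
          · exact h1
        rw [hu0] at hco ⊢
        simpa [h0] using hco
      · rw [Int.sign_eq_one_of_pos h0]; simpa using hco
    have hvz : (0 : ℤ) < (v : ℤ) := by exact_mod_cast hvpos
    have en : ((f a : ℚ) / (g a : ℚ)).num = Int.sign (f a) * u := by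
      rw [hq]; exact Rat.num_div_eq_of_coprime hvz hcop
    have ed : ((f a : ℚ) / (g a : ℚ)).den = v := by
      have := Rat.den_div_eq_of_coprime hvz hcop
      rw [← hq] at this
      exact_mod_cast this
    rw [hnum, hden, en, ed]

lemma pr_ratCast {f : α → ℤ} (hf : Primrec f) : Primrec (fun a => (f a : ℚ)) :=
  (pr_frac hf (Primrec.const 1)).of_eq (fun a => by simp)

lemma pr_qadd {f g : α → ℚ} (hf : Primrec f) (hg : Primrec g) :
    Primrec (fun a => f a + g a) := by
  have h := pr_frac (pr_add (pr_mul (pr_num hf) (pr_natCast (pr_den hg)))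
    (pr_mul (pr_num hg) (pr_natCast (pr_den hf)))) (Primrec.nat_mul.comp (pr_den hf) (pr_den hg))
  refine h.of_eq (fun a => ?_)
  have h1 : ((f a).den : ℚ) ≠ 0 := by exact_mod_cast (f a).den_nz
  have h2 : ((g a).den : ℚ) ≠ 0 := by exact_mod_cast (g a).den_nz
  conv_rhs => rw [← Rat.num_div_den (f a), ← Rat.num_div_den (g a)]
  push_cast
  field_simp

lemma pr_qneg {f : α → ℚ} (hf : Primrec f) : Primrec (fun a => -(f a)) := by
  have h := pr_frac (pr_neg (pr_num hf)) (pr_den hf)
  refine h.of_eq (fun a => ?_)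
  conv_rhs => rw [← Rat.num_div_den (f a)]
  push_cast
  ring

lemma pr_qsub {f g : α → ℚ} (hf : Primrec f) (hg : Primrec g) :
    Primrec (fun a => f a - g a) :=
  (pr_qadd hf (pr_qneg hg)).of_eq (fun a => by ring)

lemma pr_qmul {f g : α → ℚ} (hf : Primrec f) (hg : Primrec g) :
    Primrec (fun a => f a * g a) := by
  have h := pr_frac (pr_mul (pr_num hf) (pr_num hg))
    (Primrec.nat_mul.comp (pr_den hf) (pr_den hg))
  refine h.of_eq (fun a => ?_)
  conv_rhs => rw [← Rat.num_div_den (f a), ← Rat.num_div_den (g a)]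
  push_cast
  rw [div_mul_div_comm]

lemma pr_qinv {f : α → ℚ} (hf : Primrec f) : Primrec (fun a => (f a)⁻¹) := by
  -- q⁻¹ = (sign of num) * den / |num|
  have hs : Primrec (fun a => if (f a).num.toNat = 0 then -((f a).den : ℤ) else ((f a).den : ℤ)) := by
    refine Primrec.ite (Primrec.eq.comp (pr_toNat (pr_num hf)) (Primrec.const 0)) ?_ ?_
    · exact pr_neg (pr_natCast (pr_den hf))
    · exact pr_natCast (pr_den hf)
  have h := pr_frac hs (pr_natAbs (pr_num hf))
  refine h.of_eq (fun a => ?_)
  have hq := Rat.num_div_den (f a)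
  have hqi : (f a)⁻¹ = ((f a).den : ℚ) / ((f a).num : ℚ) := by
    conv_lhs => rw [← hq]
    rw [inv_div]
  rw [hqi]
  rcases lt_trichotomy (f a).num 0 with h0 | h0 | h0
  · have e1 : (f a).num.toNat = 0 := by omega
    have e2 : ((f a).num.natAbs : ℤ) = -(f a).num := by omega
    have e3 : (((f a).num.natAbs : ℕ) : ℚ) = -((f a).num : ℚ) := by
      have := congrArg (fun z : ℤ => (z : ℚ)) e2
      simpa using this
    rw [if_pos e1, e3]
    push_cast
    rw [neg_div_neg_eq]
  · rw [h0]; simp
  · have e1 : (f a).num.toNat ≠ 0 := by omega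
    have e2 : ((f a).num.natAbs : ℤ) = (f a).num := by omega
    have e3 : (((f a).num.natAbs : ℕ) : ℚ) = ((f a).num : ℚ) := by
      have := congrArg (fun z : ℤ => (z : ℚ)) e2
      simpa using this
    rw [if_neg e1, e3]
    push_cast
    ring

end Rat

end Pool.Agent.CQ
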