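import Pool.Agent.Helper39.CJ.LatA

/-!
# Truncated exponential and logarithm are inverse to each other
-/

set_option autoImplicit false

namespace Pool.Agent.NP

open Finset Pool.Agent.LIN Pool.Agent.Kol

variable {n : ℕ}

section ExpLog

open Polynomial

/-- truncated exponential -/
noncomputable def pE (c : ℕ) : ℚ[X] := ∑ k ∈ range c, C ((k.factorial : ℚ)⁻¹) * X ^ k

/-- truncated logarithm -/
noncomputable def pL (c : ℕ) : ℚ[X] := ∑ k ∈ range c, C ((-1 : ℚ) ^ (k + 1) * (k : ℚ)⁻¹) * X ^ k

lemma coeff_pE (c k : ℕ) : (pE c).coeff k = if k < c then (k.factorial : ℚ)⁻¹ else 0 := by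
  unfold pE
  rw [Polynomial.finsetSum_coeff]
  simp only [Polynomial.coeff_C_mul_X_pow]
  rw [Finset.sum_ite_eq]
  simp

lemma coeff_pL (c k : ℕ) : (pL c).coeff k = if k < c then (-1 : ℚ) ^ (k + 1) * (k : ℚ)⁻¹ else 0 := by
  unfold pL
  rw [Polynomial.finsetSum_coeff]
  simp only [Polynomial.coeff_C_mul_X_pow]
  rw [Finset.sum_ite_eq]
  simp

lemma X_pow_dvd_comp {m : ℕ} {p W : ℚ[X]} (hW : X ∣ W) (hp : X ^ m ∣ p) : X ^ m ∣ p.comp W := by
  obtain ⟨q, rfl⟩ := hp
  rw [Polynomial.mul_comp, Polynomial.X_pow_comp]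
  exact Dvd.dvd.mul_right (pow_dvd_pow_of_dvd hW m) _

lemma dE (c : ℕ) : X ^ (c - 1) ∣ derivative (pE c) - pE c := by
  rw [Polynomial.X_pow_dvd_iff]
  intro d hd
  rw [Polynomial.coeff_sub, Polynomial.coeff_derivative, coeff_pE, coeff_pE,
    if_pos (by omega), if_pos (by omega), Nat.factorial_succ]
  push_cast
  have h1 : (d : ℚ) + 1 ≠ 0 := by positivity
  have h2 : (d.factorial : ℚ) ≠ 0 := by positivity
  field_simp
  ring

lemma dL (c : ℕ) : X ^ (c - 1) ∣ (1 + X) * derivative (pL c) - 1 := by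
  rw [Polynomial.X_pow_dvd_iff]
  intro d hd
  rw [Polynomial.coeff_sub, add_mul, one_mul, Polynomial.coeff_add]
  rcases d with _ | d
  · rw [Polynomial.coeff_X_mul_zero, Polynomial.coeff_derivative, coeff_pL, if_pos (by omega)]
    simp
  · rw [Polynomial.coeff_X_mul, Polynomial.coeff_derivative, Polynomial.coeff_derivative,
      coeff_pL, coeff_pL, if_pos (by omega), if_pos (by omega), Polynomial.coeff_one,
      if_neg (by omega)]
    push_cast
    have h1 : (d : ℚ) + 1 ≠ 0 := by positivity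
    have h2 : (d : ℚ) + 1 + 1 ≠ 0 := by positivity
    field_simp
    ring

lemma X_dvd_pL (c : ℕ) : X ∣ pL c := by
  rw [Polynomial.X_dvd_iff, coeff_pL]
  simp

lemma X_dvd_pE (c : ℕ) (hc : 0 < c) : X ∣ pE c - 1 := by
  rw [Polynomial.X_dvd_iff, Polynomial.coeff_sub, coeff_pE, if_pos hc]
  simp

lemma pE_pL (c : ℕ) (hc : 0 < c) : X ^ c ∣ (pE c).comp (pL c) - (1 + X) := by
  set P := (pE c).comp (pL c) with hP
  have h0 : P.coeff 0 = 1 := by
    rw [Polynomial.coeff_zero_eq_eval_zero, hP, Polynomial.eval_comp]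
    have h1 : (pL c).eval 0 = 0 := by
      rw [← Polynomial.coeff_zero_eq_eval_zero, coeff_pL]; simp
    rw [h1, ← Polynomial.coeff_zero_eq_eval_zero, coeff_pE, if_pos hc]
    simp
  have h1 : X ^ (c - 1) ∣ (1 + X) * derivative P - P := by
    have h2 : (1 + X) * derivative P - P =
        ((1 + X) * derivative (pL c) - 1) * (derivative (pE c)).comp (pL c) +
        (derivative (pE c) - pE c).comp (pL c) := by
      rw [hP, Polynomial.derivative_comp, Polynomial.sub_comp]
      ring
    rw [h2]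
    exact dvd_add (Dvd.dvd.mul_right (dL c) _) (X_pow_dvd_comp (X_dvd_pL c) (dE c))
  rw [Polynomial.X_pow_dvd_iff] at h1 ⊢
  have hrec : ∀ k, k + 1 < c → P.coeff (k + 1) * (k + 1) + k * P.coeff k = P.coeff k := by
    intro k hk
    have h2 := h1 k (by omega)
    rw [Polynomial.coeff_sub, add_mul, one_mul, Polynomial.coeff_add,
      Polynomial.coeff_derivative] at h2
    rcases k with _ | k
    · rw [Polynomial.coeff_X_mul_zero] at h2
      simp only [zero_add, Nat.cast_zero, mul_one, zero_mul, add_zero] at h2 ⊢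
      linarith
    · rw [Polynomial.coeff_X_mul, Polynomial.coeff_derivative] at h2
      push_cast at h2 ⊢
      linarith
  have h2 : ∀ k, k + 2 < c → P.coeff (k + 2) = 0 := by
    intro k
    induction k with
    | zero =>
      intro hk
      have h3 := hrec 1 hk
      norm_num at h3
      exact h3
    | succ k ih =>
      intro hk
      have h3 := hrec (k + 2) hk
      rw [ih (by omega)] at h3
      simp only [mul_zero, add_zero, mul_eq_zero] at h3
      rcases h3 with h3 | h3
      · exact h3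
      · exfalso
        have : (0 : ℚ) < ((k + 2 : ℕ) : ℚ) + 1 := by positivity
        exact this.ne' h3
  intro d hd
  rw [Polynomial.coeff_sub, Polynomial.coeff_add, Polynomial.coeff_one, Polynomial.coeff_X]
  rcases d with _ | _ | d
  · rw [h0]; simp
  · have h3 := hrec 0 hd
    simp only [zero_add, Nat.cast_zero, mul_one, zero_mul, add_zero] at h3
    rw [zero_add, h3, h0]; simp
  · rw [h2 d hd]; simp

lemma pL_pE (c : ℕ) (hc : 0 < c) : X ^ c ∣ (pL c).comp (pE c - 1) - X := by
  set P := (pL c).comp (pE c - 1) with hP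
  have h0 : P.coeff 0 = 0 := by
    rw [Polynomial.coeff_zero_eq_eval_zero, hP, Polynomial.eval_comp]
    have h1 : (pE c - 1).eval 0 = 0 := by
      rw [← Polynomial.coeff_zero_eq_eval_zero, Polynomial.coeff_sub, coeff_pE, if_pos hc]; simp
    rw [h1, ← Polynomial.coeff_zero_eq_eval_zero, coeff_pL]
    simp
  have h1 : X ^ (c - 1) ∣ derivative P - 1 := by
    have h2 : derivative P - 1 =
        (derivative (pE c) - pE c) * (derivative (pL c)).comp (pE c - 1) +
        ((1 + X) * derivative (pL c) - 1).comp (pE c - 1) := by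
      rw [hP, Polynomial.derivative_comp, Polynomial.sub_comp, Polynomial.mul_comp,
        Polynomial.add_comp, Polynomial.one_comp, Polynomial.X_comp, Polynomial.derivative_sub,
        Polynomial.derivative_one]
      ring
    rw [h2]
    exact dvd_add (Dvd.dvd.mul_right (dE c) _) (X_pow_dvd_comp (X_dvd_pE c hc) (dL c))
  rw [Polynomial.X_pow_dvd_iff] at h1 ⊢
  intro d hd
  rw [Polynomial.coeff_sub, Polynomial.coeff_X]
  rcases d with _ | d
  · rw [h0]; simp
  · have h2 := h1 d (by omega)
    rw [Polynomial.coeff_sub, Polynomial.coeff_derivative, Polynomial.coeff_one] at h2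
    by_cases hd0 : d = 0
    · subst hd0
      simp only [Nat.cast_zero, zero_add, mul_one, if_true] at h2 ⊢
      exact h2
    · rw [if_neg hd0, sub_zero, mul_eq_zero] at h2
      rw [if_neg (by omega), sub_zero]
      rcases h2 with h2 | h2
      · exact h2
      · exfalso
        have : (0 : ℚ) < (d : ℚ) + 1 := by positivity
        exact this.ne' h2

lemma aeval_pE (c : ℕ) (Y : Matrix (Fin n) (Fin n) ℚ) : aeval Y (pE c) = E c Y := by
  unfold pE E
  rw [map_sum]
  refine Finset.sum_congr rfl (fun k _ => ?_)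
  rw [map_mul, Polynomial.aeval_C, map_pow, Polynomial.aeval_X, Algebra.smul_def]

lemma aeval_pL (c : ℕ) (x : Matrix (Fin n) (Fin n) ℚ) : aeval (x - 1) (pL c) = Lg c x := by
  unfold pL Lg
  rw [map_sum]
  refine Finset.sum_congr rfl (fun k _ => ?_)
  rw [map_mul, Polynomial.aeval_C, map_pow, Polynomial.aeval_X, Algebra.smul_def]

/-- `exp (log x) = x` -/
lemma E_Lg {c : ℕ} (hc : 0 < c) {x : Matrix (Fin n) (Fin n) ℚ} (h : (x - 1) ^ c = 0) :
    E c (Lg c x) = x := by
  obtain ⟨q, hq⟩ := pE_pL c hc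
  have h1 := congrArg (aeval (x - 1)) hq
  rw [map_sub, Polynomial.aeval_comp, aeval_pL, aeval_pE, map_mul, map_pow, Polynomial.aeval_X, h,
    zero_mul, map_add, map_one, Polynomial.aeval_X, sub_eq_zero] at h1
  rw [h1]; abel

/-- `log (exp X) = X` -/
lemma Lg_E {c : ℕ} (hc : 0 < c) {X : Matrix (Fin n) (Fin n) ℚ} (h : X ^ c = 0) :
    Lg c (E c X) = X := by
  obtain ⟨q, hq⟩ := pL_pE c hc
  have h1 := congrArg (aeval X) hq
  rw [map_sub, Polynomial.aeval_comp, map_sub, map_one, aeval_pE, aeval_pL, map_mul, map_pow,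
    Polynomial.aeval_X, h, zero_mul, sub_eq_zero] at h1
  exact h1

end ExpLog

end Pool.Agent.NP
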