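import Pool.Agent.Helper39.CJ.ExpLog
import Mathlib.LinearAlgebra.Vandermonde

/-!
# The interpolation lemma (helper63): logarithmic lattices without the BCH formula
-/

set_option autoImplicit false

namespace Pool.Agent.NP

open Finset Pool.Agent.LIN Pool.Agent.Kol Polynomial

variable {n : ℕ}

/-! ### polynomials over the matrix ring -/

/-- evaluation at a natural number -/
noncomputable def ev (n t : ℕ) : (Matrix (Fin n) (Fin n) ℚ)[X] →+* Matrix (Fin n) (Fin n) ℚ :=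
  eval₂RingHom' (RingHom.id _) (t : Matrix (Fin n) (Fin n) ℚ) (fun a => Nat.commute_cast _ _)

lemma ev_C (t : ℕ) (a : Matrix (Fin n) (Fin n) ℚ) : ev n t (C a) = a := by
  change eval₂ _ _ _ = _
  rw [eval₂_C]; rfl

lemma ev_X (t : ℕ) : ev n t X = (t : Matrix (Fin n) (Fin n) ℚ) := by
  change eval₂ _ _ _ = _
  rw [eval₂_X]

lemma ev_eq_sum (t : ℕ) (p : (Matrix (Fin n) (Fin n) ℚ)[X]) {D : ℕ} (h : p.natDegree < D) :
    ev n t p = ∑ k ∈ range D, (t ^ k) • p.coeff k := by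
  change eval₂ _ _ _ = _
  rw [eval₂_eq_sum_range' _ h]
  refine Finset.sum_congr rfl (fun k _ => ?_)
  rw [nsmul_eq_mul, Nat.cast_pow]
  exact (Commute.pow_left (Nat.cast_commute t (p.coeff k)) k).eq.symm

lemma ev_zero (p : (Matrix (Fin n) (Fin n) ℚ)[X]) : ev n 0 p = p.coeff 0 := by
  rw [ev_eq_sum 0 p (Nat.lt_succ_self _), Finset.sum_range_succ', Finset.sum_eq_zero]
  · simp
  · intro k _
    simp

/-- interpolation -/
def Ki (n D κ : ℕ) : Prop :=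
  0 < κ ∧ ∀ (p : (Matrix (Fin n) (Fin n) ℚ)[X]), p.natDegree < D →
    ∀ M : AddSubgroup (Matrix (Fin n) (Fin n) ℚ), (∀ t : ℕ, ev n t p ∈ M) →
      ∀ k, κ • p.coeff k ∈ M

theorem exists_Ki (n D : ℕ) : ∃ κ, Ki n D κ := by
  classical
  set V : Matrix (Fin D) (Fin D) ℤ := Matrix.vandermonde (fun i => ((i : ℕ) : ℤ)) with hV
  have hdet : V.det ≠ 0 := by
    rw [hV, Matrix.det_vandermonde_ne_zero_iff]
    intro i j hij
    simpa [Fin.ext_iff] using hij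
  refine ⟨V.det.natAbs, Int.natAbs_pos.2 hdet, ?_⟩
  intro p hp M hM k
  by_cases hk : k < D
  · have h1 : V.det • p.coeff k ∈ M := by
      have h2 : V.det • p.coeff k = ∑ j : Fin D, V.adjugate ⟨k, hk⟩ j • ev n j p := by
        have h3 : ∀ j : Fin D, ev n j p = ∑ i : Fin D, V j i • p.coeff i := by
          intro j
          rw [ev_eq_sum _ p hp, Finset.sum_range]
          refine Finset.sum_congr rfl (fun i _ => ?_)
          rw [hV, Matrix.vandermonde_apply, ← natCast_zsmul]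
          push_cast
          rfl
        simp only [h3, Finset.smul_sum, smul_smul]
        rw [Finset.sum_comm]
        have h4 : ∀ i : Fin D, ∑ j : Fin D, (V.adjugate ⟨k, hk⟩ j * V j i) • p.coeff i =
            (V.det • (1 : Matrix (Fin D) (Fin D) ℤ)) ⟨k, hk⟩ i • p.coeff i := by
          intro i
          rw [← Matrix.adjugate_mul, Matrix.mul_apply, Finset.sum_smul]
        simp only [h4]
        rw [Finset.sum_eq_single (⟨k, hk⟩ : Fin D)]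
        · simp
        · intro b _ hb
          rw [Matrix.smul_apply, Matrix.one_apply_ne hb.symm, smul_zero, zero_smul]
        · intro h; exact absurd (Finset.mem_univ _) h
      rw [h2]
      exact AddSubgroup.sum_mem _ (fun j _ => AddSubgroup.zsmul_mem _ (hM j) _)
    rcases Int.natAbs_eq V.det with h | h
    · rw [h] at h1
      rw [← natCast_zsmul]
      exact h1
    · rw [h, neg_smul, neg_mem_iff, natCast_zsmul] at h1
      exact h1
  · rw [Polynomial.coeff_eq_zero_of_natDegree_lt (by omega), smul_zero]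
    exact M.zero_mem

lemma Ki.one {D κ : ℕ} (hκ : Ki n D κ) {p : (Matrix (Fin n) (Fin n) ℚ)[X]} (hp : p.natDegree < D)
    {M : AddSubgroup (Matrix (Fin n) (Fin n) ℚ)} (hM : ∀ t : ℕ, κ • ev n t p ∈ M) (k : ℕ) :
    κ ^ 2 • p.coeff k ∈ M := by
  have h1 := hκ.2 p hp (M.comap (nsmulAddMonoidHom κ)) (fun t => hM t) k
  rw [AddSubgroup.mem_comap] at h1
  rw [pow_two, mul_smul]
  exact h1

/-- `exp (X Y)` -/
noncomputable def PE (c : ℕ) (Y : Matrix (Fin n) (Fin n) ℚ) : (Matrix (Fin n) (Fin n) ℚ)[X] :=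
  ∑ k ∈ range c, C (((k.factorial : ℚ)⁻¹) • Y ^ k) * X ^ k

lemma ev_PE (c t : ℕ) (Y : Matrix (Fin n) (Fin n) ℚ) : ev n t (PE c Y) = E c (t • Y) := by
  unfold PE E
  rw [map_sum]
  refine Finset.sum_congr rfl (fun k _ => ?_)
  rw [map_mul, ev_C, map_pow, ev_X, _root_.smul_pow, smul_mul_assoc]
  congr 1
  rw [nsmul_eq_mul, Nat.cast_pow]
  exact (Commute.pow_left (Nat.cast_commute t (Y ^ k)) k).eq.symm

lemma coeff_PE (c k : ℕ) (Y : Matrix (Fin n) (Fin n) ℚ) :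
    (PE c Y).coeff k = if k < c then ((k.factorial : ℚ)⁻¹) • Y ^ k else 0 := by
  unfold PE
  rw [Polynomial.finsetSum_coeff]
  simp only [Polynomial.coeff_C_mul_X_pow]
  rw [Finset.sum_ite_eq]
  simp

lemma natDegree_PE (c : ℕ) (Y : Matrix (Fin n) (Fin n) ℚ) : (PE c Y).natDegree ≤ c := by
  rw [Polynomial.natDegree_le_iff_coeff_eq_zero]
  intro N hN
  rw [coeff_PE, if_neg (by omega)]

/-- `log p` -/
noncomputable def PL (c : ℕ) (p : (Matrix (Fin n) (Fin n) ℚ)[X]) :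
    (Matrix (Fin n) (Fin n) ℚ)[X] :=
  ∑ k ∈ range c, C (algebraMap ℚ (Matrix (Fin n) (Fin n) ℚ) ((-1 : ℚ) ^ (k + 1) * (k : ℚ)⁻¹)) *
    (p - 1) ^ k

lemma ev_PL (c t : ℕ) (p : (Matrix (Fin n) (Fin n) ℚ)[X]) : ev n t (PL c p) = Lg c (ev n t p) := by
  unfold PL Lg
  rw [map_sum]
  refine Finset.sum_congr rfl (fun k _ => ?_)
  rw [map_mul, ev_C, map_pow, map_sub, map_one, Algebra.smul_def]

lemma natDegree_PL {c d : ℕ} {p : (Matrix (Fin n) (Fin n) ℚ)[X]} (hp : p.natDegree ≤ d) :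
    (PL c p).natDegree ≤ c * d := by
  unfold PL
  refine Polynomial.natDegree_sum_le_of_forall_le _ _ (fun k hk => ?_)
  refine (Polynomial.natDegree_C_mul_le _ _).trans ?_
  refine (Polynomial.natDegree_pow_le).trans ?_
  have h1 : (p - 1).natDegree ≤ d :=
    (Polynomial.natDegree_sub_le _ _).trans (by simpa using hp)
  exact Nat.mul_le_mul (Finset.mem_range.1 hk).le h1

lemma Lg_one (c : ℕ) : Lg c (1 : Matrix (Fin n) (Fin n) ℚ) = 0 := by
  unfold Lg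
  refine Finset.sum_eq_zero (fun k _ => ?_)
  rcases k with _ | k
  · simp
  · rw [sub_self, zero_pow (Nat.succ_ne_zero k), smul_zero]

lemma PL_coeff_zero {c : ℕ} {p : (Matrix (Fin n) (Fin n) ℚ)[X]} (hp : p.coeff 0 = 1) :
    (PL c p).coeff 0 = 0 := by
  rw [← ev_zero, ev_PL, ev_zero, hp, Lg_one]

lemma pow_coeff_zero' {q : (Matrix (Fin n) (Fin n) ℚ)[X]} (hq : q.coeff 0 = 0) (k : ℕ) :
    (q ^ (k + 1)).coeff 0 = 0 := by
  rw [pow_succ, mul_coeff_zero, hq, mul_zero]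

lemma pow_coeff_one' {q : (Matrix (Fin n) (Fin n) ℚ)[X]} (hq : q.coeff 0 = 0) (k : ℕ) :
    (q ^ (k + 2)).coeff 1 = 0 := by
  rw [pow_succ, mul_coeff_one, hq, mul_zero, pow_coeff_zero' hq, zero_mul, add_zero]

lemma PL_coeff_one {c : ℕ} (hc : 1 < c) {p : (Matrix (Fin n) (Fin n) ℚ)[X]}
    (hp : p.coeff 0 = 1) : (PL c p).coeff 1 = p.coeff 1 := by
  unfold PL
  have h0 : (p - 1).coeff 0 = 0 := by rw [coeff_sub, hp, coeff_one_zero, sub_self]
  have h1 : (p - 1).coeff 1 = p.coeff 1 := by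
    rw [coeff_sub, coeff_one, if_neg (by norm_num), sub_zero]
  rw [Polynomial.finsetSum_coeff, Finset.sum_eq_single 1]
  · rw [coeff_C_mul, pow_one, h1]
    norm_num
  · intro k _ hk
    rw [coeff_C_mul]
    rcases k with _ | _ | k
    · simp
    · exact absurd rfl hk
    · rw [pow_coeff_one' h0, mul_zero]
  · intro h
    exact absurd (Finset.mem_range.2 hc) h

/-- divisibility of values -/
lemma ev_div {D : ℕ} {p : (Matrix (Fin n) (Fin n) ℚ)[X]} (hp : p.natDegree < D)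
    (h0 : p.coeff 0 = 0) {M : AddSubgroup (Matrix (Fin n) (Fin n) ℚ)} {m : ℕ}
    (hM : ∀ k, m • p.coeff k ∈ M) (t : ℕ) : ∃ Z ∈ M, m • ev n t p = t • Z := by
  refine ⟨∑ k ∈ range D, t ^ k • (m • p.coeff (k + 1)),
    AddSubgroup.sum_mem _ (fun k _ => AddSubgroup.nsmul_mem _ (hM _) _), ?_⟩
  rw [ev_eq_sum t p (hp.trans (Nat.lt_succ_self D)), Finset.sum_range_succ', h0, smul_zero,
    add_zero, Finset.smul_sum, Finset.smul_sum]
  refine Finset.sum_congr rfl (fun k _ => ?_)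
  rw [← mul_smul, ← mul_smul, ← mul_smul]
  congr 1
  ring

lemma ev_div2 {D : ℕ} {p : (Matrix (Fin n) (Fin n) ℚ)[X]} (hp : p.natDegree < D)
    (h0 : p.coeff 0 = 0) (h1 : p.coeff 1 = 0) {M : AddSubgroup (Matrix (Fin n) (Fin n) ℚ)} {m : ℕ}
    (hM : ∀ k, m • p.coeff k ∈ M) (t : ℕ) : ∃ Z ∈ M, m • ev n t p = (t ^ 2) • Z := by
  refine ⟨∑ k ∈ range D, t ^ k • (m • p.coeff (k + 2)),
    AddSubgroup.sum_mem _ (fun k _ => AddSubgroup.nsmul_mem _ (hM _) _), ?_⟩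
  rw [ev_eq_sum t p (show p.natDegree < D + 2 by omega), Finset.sum_range_succ',
    Finset.sum_range_succ', h0, smul_zero, add_zero, h1, smul_zero, add_zero, Finset.smul_sum,
    Finset.smul_sum]
  refine Finset.sum_congr rfl (fun k _ => ?_)
  rw [← mul_smul, ← mul_smul, ← mul_smul]
  congr 1
  ring

/-! ### logarithms -/

lemma nsmul_pow_zero {c : ℕ} {X : Matrix (Fin n) (Fin n) ℚ} (h : X ^ c = 0) (t : ℕ) :
    (t • X) ^ c = 0 := by
  rw [_root_.smul_pow, h, smul_zero]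

lemma E_nsmul {c : ℕ} {X : Matrix (Fin n) (Fin n) ℚ} (hc : 0 < c) (h : X ^ c = 0) (t : ℕ) :
    E c (t • X) = (E c X) ^ t := by
  induction t with
  | zero => rw [zero_smul, pow_zero, E_zero hc]
  | succ t ih =>
    rw [succ_nsmul, pow_succ, ← ih]
    have hcomm : Commute (t • X) X := (Commute.refl X).smul_left t
    have h3 : (t • X + X) ^ c = 0 := by
      rw [← succ_nsmul]; exact nsmul_pow_zero h _
    rw [E_eq_exp h3, E_eq_exp h, E_eq_exp (nsmul_pow_zero h t)]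
    exact IsNilpotent.exp_add_of_commute hcomm ⟨c, nsmul_pow_zero h t⟩ ⟨c, h⟩

section Group

variable {R : Subgroup (GL (Fin n) ℚ)} {c : ℕ}

lemma E_log (hc : 0 < c) (hN : NilJ R c) {x : GL (Fin n) ℚ} (hx : x ∈ R) :
    E c (Lg c (x : Matrix (Fin n) (Fin n) ℚ)) = x :=
  E_Lg hc (hN.pow (sub_one_mem hx))

lemma log_pow (hc : 0 < c) (hN : NilJ R c) {x : GL (Fin n) ℚ} (hx : x ∈ R) (t : ℕ) :
    Lg c ((x ^ t : GL (Fin n) ℚ) : Matrix (Fin n) (Fin n) ℚ) =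
      t • Lg c (x : Matrix (Fin n) (Fin n) ℚ) := by
  have h1 := hN.pow (Lg_mem hx c)
  rw [Units.val_pow_eq_pow_val, ← E_log hc hN hx, ← E_nsmul hc h1 t,
    Lg_E hc (nsmul_pow_zero h1 t), Lg_E hc h1]

lemma log_inv (hc : 0 < c) (hN : NilJ R c) {x : GL (Fin n) ℚ} (hx : x ∈ R) :
    Lg c ((x⁻¹ : GL (Fin n) ℚ) : Matrix (Fin n) (Fin n) ℚ) =
      - Lg c (x : Matrix (Fin n) (Fin n) ℚ) := by
  have h1 := hN.pow (Lg_mem hx c)
  have h2 := E_neg h1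
  rw [E_log hc hN hx] at h2
  have h3 : ((x⁻¹ : GL (Fin n) ℚ) : Matrix (Fin n) (Fin n) ℚ) =
      E c (-Lg c (x : Matrix (Fin n) (Fin n) ℚ)) := by
    calc ((x⁻¹ : GL (Fin n) ℚ) : Matrix (Fin n) (Fin n) ℚ)
        = (E c (-Lg c (x : Matrix (Fin n) (Fin n) ℚ)) * (x : Matrix (Fin n) (Fin n) ℚ)) *
          ((x⁻¹ : GL (Fin n) ℚ) : Matrix (Fin n) (Fin n) ℚ) := by rw [h2, one_mul]
      _ = _ := by rw [mul_assoc, ← Units.val_mul, mul_inv_cancel, Units.val_one, mul_one]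
  rw [h3, Lg_E hc]
  rw [neg_pow, h1, mul_zero]

lemma Jp_mul_right {i : ℕ} {X Y : Matrix (Fin n) (Fin n) ℚ} (hX : X ∈ Jp R i)
    (hY : Y ∈ Jsp R) : X * Y ∈ Jp R (i + 1) := by
  induction i generalizing X with
  | zero => exact Jp_mul hX hY
  | succ i ih =>
    refine Submodule.span_induction (p := fun X _ => X * Y ∈ Jp R (i + 1 + 1)) ?_ ?_ ?_ ?_ hX
    · rintro _ ⟨A, hA, B, hB, rfl⟩
      rw [mul_assoc]
      exact Jp_mul hA (ih hB)
    · rw [zero_mul]; exact Submodule.zero_mem _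
    · intro x y _ _ hx hy; rw [add_mul]; exact Submodule.add_mem _ hx hy
    · intro r x _ hx; rw [smul_mul_assoc]; exact Submodule.smul_mem _ _ hx

/-- the filtration of `R` -/
def Si (R : Subgroup (GL (Fin n) ℚ)) (i : ℕ) : Subgroup (GL (Fin n) ℚ) where
  carrier := {x | x ∈ R ∧ (x : Matrix (Fin n) (Fin n) ℚ) - 1 ∈ Jp R i}
  one_mem' := ⟨R.one_mem, by simp⟩
  mul_mem' := by
    rintro x y ⟨hx, hx'⟩ ⟨hy, hy'⟩
    refine ⟨R.mul_mem hx hy, ?_⟩
    have : ((x * y : GL (Fin n) ℚ) : Matrix (Fin n) (Fin n) ℚ) - 1 =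
        ((x : Matrix (Fin n) (Fin n) ℚ) - 1) * ((y : Matrix (Fin n) (Fin n) ℚ) - 1) +
        (((x : Matrix (Fin n) (Fin n) ℚ) - 1) + ((y : Matrix (Fin n) (Fin n) ℚ) - 1)) := by
      rw [Units.val_mul]; noncomm_ring
    rw [this]
    exact Submodule.add_mem _ (Jp_anti R i (Jp_mul (sub_one_mem hx) hy'))
      (Submodule.add_mem _ hx' hy')
  inv_mem' := by
    rintro x ⟨hxR, hx⟩
    refine ⟨R.inv_mem hxR, ?_⟩
    have h1 : ((x⁻¹ : GL (Fin n) ℚ) : Matrix (Fin n) (Fin n) ℚ) - 1 =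
        -((x : Matrix (Fin n) (Fin n) ℚ) - 1) -
          (((x⁻¹ : GL (Fin n) ℚ) : Matrix (Fin n) (Fin n) ℚ) - 1) *
            ((x : Matrix (Fin n) (Fin n) ℚ) - 1) := by
      have h2 : ((x⁻¹ : GL (Fin n) ℚ) : Matrix (Fin n) (Fin n) ℚ) *
          (x : Matrix (Fin n) (Fin n) ℚ) = 1 := by
        rw [← Units.val_mul, inv_mul_cancel, Units.val_one]
      have h3 : (((x⁻¹ : GL (Fin n) ℚ) : Matrix (Fin n) (Fin n) ℚ) - 1) *
            ((x : Matrix (Fin n) (Fin n) ℚ) - 1) =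
          ((x⁻¹ : GL (Fin n) ℚ) : Matrix (Fin n) (Fin n) ℚ) *
          (x : Matrix (Fin n) (Fin n) ℚ) - ((x⁻¹ : GL (Fin n) ℚ) : Matrix (Fin n) (Fin n) ℚ)
            - (x : Matrix (Fin n) (Fin n) ℚ) + 1 := by noncomm_ring
      rw [h3, h2]; abel
    rw [h1]
    exact Submodule.sub_mem _ (Submodule.neg_mem _ hx)
      (Jp_anti R i (Jp_mul (sub_one_mem (R.inv_mem hxR)) hx))

lemma Si_zero (R : Subgroup (GL (Fin n) ℚ)) : Si R 0 = R := by
  ext x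
  exact ⟨fun h => h.1, fun h => ⟨h, sub_one_mem h⟩⟩

lemma Si_le (R : Subgroup (GL (Fin n) ℚ)) (i : ℕ) : Si R i ≤ R := fun _ h => h.1

lemma Si_anti (R : Subgroup (GL (Fin n) ℚ)) (i : ℕ) : Si R (i + 1) ≤ Si R i :=
  fun _ h => ⟨h.1, Jp_anti R i h.2⟩

lemma Si_bot (hc : 0 < c) (hN : NilJ R c) {x : GL (Fin n) ℚ} (hx : x ∈ Si R (c - 1)) :
    x = 1 := by
  have h := hx.2
  rw [Jp_bot hc hN, Submodule.mem_bot, sub_eq_zero] at h
  exact Units.ext (by rw [h, Units.val_one])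

lemma Si_comm {i : ℕ} {a b : GL (Fin n) ℚ} (ha : a ∈ R) (hb : b ∈ Si R i) :
    a * b * a⁻¹ * b⁻¹ ∈ Si R (i + 1) := by
  refine ⟨R.mul_mem (R.mul_mem (R.mul_mem ha hb.1) (R.inv_mem ha)) (R.inv_mem hb.1), ?_⟩
  have hba : (b * a)⁻¹ ∈ R := R.inv_mem (R.mul_mem hb.1 ha)
  set W : Matrix (Fin n) (Fin n) ℚ :=
    ((a : Matrix (Fin n) (Fin n) ℚ) - 1) * ((b : Matrix (Fin n) (Fin n) ℚ) - 1) -
    ((b : Matrix (Fin n) (Fin n) ℚ) - 1) * ((a : Matrix (Fin n) (Fin n) ℚ) - 1) with hW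
  have hWJ : W ∈ Jp R (i + 1) := Submodule.sub_mem _ (Jp_mul (sub_one_mem ha) hb.2)
    (Jp_mul_right hb.2 (sub_one_mem ha))
  have h1 : ((a * b * a⁻¹ * b⁻¹ : GL (Fin n) ℚ) : Matrix (Fin n) (Fin n) ℚ) - 1 =
      W + W * ((((b * a)⁻¹ : GL (Fin n) ℚ) : Matrix (Fin n) (Fin n) ℚ) - 1) := by
    have h2 : W = ((a * b : GL (Fin n) ℚ) : Matrix (Fin n) (Fin n) ℚ) -
        ((b * a : GL (Fin n) ℚ) : Matrix (Fin n) (Fin n) ℚ) := by
      rw [hW, Units.val_mul, Units.val_mul]; noncomm_ring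
    have h3 : ((b * a : GL (Fin n) ℚ) : Matrix (Fin n) (Fin n) ℚ) *
        (((b * a)⁻¹ : GL (Fin n) ℚ) : Matrix (Fin n) (Fin n) ℚ) = 1 := by
      rw [← Units.val_mul, mul_inv_cancel, Units.val_one]
    have h4 : ((a * b : GL (Fin n) ℚ) : Matrix (Fin n) (Fin n) ℚ) *
        (((b * a)⁻¹ : GL (Fin n) ℚ) : Matrix (Fin n) (Fin n) ℚ) =
        ((a * b * a⁻¹ * b⁻¹ : GL (Fin n) ℚ) : Matrix (Fin n) (Fin n) ℚ) := by
      rw [← Units.val_mul]; congr 1; group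
    rw [mul_sub, mul_one, add_sub_cancel, h2, sub_mul, h3, h4]
  rw [h1]
  exact Submodule.add_mem _ hWJ (Jp_anti R _ (Jp_mul_right hWJ (sub_one_mem hba)))

lemma Si_normal {i : ℕ} {a b : GL (Fin n) ℚ} (ha : a ∈ R) (hb : b ∈ Si R i) :
    a * b * a⁻¹ ∈ Si R i := by
  have h : a * b * a⁻¹ = (a * b * a⁻¹ * b⁻¹) * b := by group
  rw [h]
  exact (Si R i).mul_mem (Si_anti R i (Si_comm ha hb)) hb

/-- `(a b)^t b^{-t} a^{-t}` -/
lemma mul_pow_mem {i : ℕ} {a b : GL (Fin n) ℚ} (ha : a ∈ R) (hb : b ∈ Si R i) (t : ℕ) :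
    (a * b) ^ t * (b ^ t)⁻¹ * (a ^ t)⁻¹ ∈ Si R (i + 1) := by
  have hnorm : ((Si R (i + 1)).subgroupOf R).Normal := by
    constructor
    intro x hx g
    rw [Subgroup.mem_subgroupOf] at hx ⊢
    exact Si_normal g.2 hx
  let a' : R := ⟨a, ha⟩
  let b' : R := ⟨b, hb.1⟩
  have hcomm : Commute (QuotientGroup.mk a' : R ⧸ (Si R (i + 1)).subgroupOf R)
      (QuotientGroup.mk b') := by
    have h1 : (QuotientGroup.mk (a' * b' * a'⁻¹ * b'⁻¹) : R ⧸ (Si R (i + 1)).subgroupOf R) = 1 := by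
      rw [QuotientGroup.eq_one_iff, Subgroup.mem_subgroupOf]
      exact Si_comm ha hb
    rw [QuotientGroup.mk_mul, QuotientGroup.mk_mul, QuotientGroup.mk_mul, QuotientGroup.mk_inv,
      QuotientGroup.mk_inv] at h1
    have h2 := mul_inv_eq_one.1 h1
    exact mul_inv_eq_iff_eq_mul.1 h2
  have h2 : (QuotientGroup.mk ((a' * b') ^ t * (b' ^ t)⁻¹ * (a' ^ t)⁻¹) :
      R ⧸ (Si R (i + 1)).subgroupOf R) = 1 := by
    rw [QuotientGroup.mk_mul, QuotientGroup.mk_mul, QuotientGroup.mk_inv, QuotientGroup.mk_inv,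
      QuotientGroup.mk_pow, QuotientGroup.mk_pow, QuotientGroup.mk_pow, QuotientGroup.mk_mul,
      hcomm.mul_pow]
    group
  rw [QuotientGroup.eq_one_iff, Subgroup.mem_subgroupOf] at h2
  exact h2

/-- the additive group spanned by logarithms -/
def ML (S : Subgroup (GL (Fin n) ℚ)) (c : ℕ) : AddSubgroup (Matrix (Fin n) (Fin n) ℚ) :=
  AddSubgroup.closure {X | ∃ x ∈ S, X = Lg c (x : Matrix (Fin n) (Fin n) ℚ)}

lemma log_mem {S : Subgroup (GL (Fin n) ℚ)} {x : GL (Fin n) ℚ} (hx : x ∈ S) (c : ℕ) :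
    Lg c (x : Matrix (Fin n) (Fin n) ℚ) ∈ ML S c :=
  AddSubgroup.subset_closure ⟨x, hx, rfl⟩

lemma ML_mono {S T : Subgroup (GL (Fin n) ℚ)} (h : S ≤ T) (c : ℕ) : ML S c ≤ ML T c := by
  refine AddSubgroup.closure_mono ?_
  rintro _ ⟨x, hx, rfl⟩
  exact ⟨x, h hx, rfl⟩

lemma E_inv (hc : 0 < c) (hN : NilJ R c) {x : GL (Fin n) ℚ} (hx : x ∈ R) (t : ℕ) :
    E c (t • (- Lg c (x : Matrix (Fin n) (Fin n) ℚ))) =
      (((x ^ t)⁻¹ : GL (Fin n) ℚ) : Matrix (Fin n) (Fin n) ℚ) := by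
  rw [← log_inv hc hN hx, ← log_pow hc hN (R.inv_mem hx), E_log hc hN (R.pow_mem (R.inv_mem hx) t),
    inv_pow]

lemma E_pow (hc : 0 < c) (hN : NilJ R c) {x : GL (Fin n) ℚ} (hx : x ∈ R) (t : ℕ) :
    E c (t • (Lg c (x : Matrix (Fin n) (Fin n) ℚ))) =
      ((x ^ t : GL (Fin n) ℚ) : Matrix (Fin n) (Fin n) ℚ) := by
  rw [← log_pow hc hN hx, E_log hc hN (R.pow_mem hx t)]

/-- (C) -/
theorem log_mul {κ : ℕ} (hc : 1 < c) (hN : NilJ R c) (hκ : Ki n (c * (c + c + c) + 1) κ) {i : ℕ}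
    {a b : GL (Fin n) ℚ} (ha : a ∈ R) (hb : b ∈ Si R i) :
    κ • (Lg c ((a * b : GL (Fin n) ℚ) : Matrix (Fin n) (Fin n) ℚ) -
      Lg c (a : Matrix (Fin n) (Fin n) ℚ) - Lg c (b : Matrix (Fin n) (Fin n) ℚ)) ∈
      ML (Si R (i + 1)) c := by
  have hc0 : 0 < c := by omega
  have hab : a * b ∈ R := R.mul_mem ha hb.1
  set Q : (Matrix (Fin n) (Fin n) ℚ)[X] :=
    PE c (Lg c ((a * b : GL (Fin n) ℚ) : Matrix (Fin n) (Fin n) ℚ)) *
      PE c (- Lg c (b : Matrix (Fin n) (Fin n) ℚ)) *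
      PE c (- Lg c (a : Matrix (Fin n) (Fin n) ℚ)) with hQ
  have hdeg : (PL c Q).natDegree < c * (c + c + c) + 1 := by
    refine Nat.lt_succ_of_le (natDegree_PL ?_)
    exact Polynomial.natDegree_mul_le.trans (Nat.add_le_add (Polynomial.natDegree_mul_le.trans
      (Nat.add_le_add (natDegree_PE _ _) (natDegree_PE _ _))) (natDegree_PE _ _))
  have h0 : ∀ Y : Matrix (Fin n) (Fin n) ℚ, (PE c Y).coeff 0 = 1 := by
    intro Y; rw [coeff_PE, if_pos hc0]; simp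
  have h1 : ∀ Y : Matrix (Fin n) (Fin n) ℚ, (PE c Y).coeff 1 = Y := by
    intro Y; rw [coeff_PE, if_pos hc]; simp
  have hQ0 : Q.coeff 0 = 1 := by
    rw [hQ, mul_coeff_zero, mul_coeff_zero, h0, h0, h0, mul_one, mul_one]
  have hQ1 : Q.coeff 1 = Lg c ((a * b : GL (Fin n) ℚ) : Matrix (Fin n) (Fin n) ℚ) -
      Lg c (a : Matrix (Fin n) (Fin n) ℚ) - Lg c (b : Matrix (Fin n) (Fin n) ℚ) := by
    rw [hQ, mul_coeff_one, mul_coeff_zero, mul_coeff_one]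
    simp only [h0, h1, mul_one, one_mul]
    abel
  have hval : ∀ t : ℕ, ev n t (PL c Q) ∈ ML (Si R (i + 1)) c := by
    intro t
    rw [ev_PL, hQ, map_mul, map_mul, ev_PE, ev_PE, ev_PE, E_pow hc0 hN hab,
      E_inv hc0 hN hb.1, E_inv hc0 hN ha, ← Units.val_mul, ← Units.val_mul]
    exact log_mem (mul_pow_mem ha hb t) c
  have h := hκ.2 _ hdeg _ hval 1
  rwa [PL_coeff_one hc hQ0, hQ1] at h

/-- (D) -/
theorem log_mul_pow {κ : ℕ} (hc : 1 < c) (hN : NilJ R c) (hκ : Ki n (c * (c + c + c) + 1) κ)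
    {i : ℕ} {a b : GL (Fin n) ℚ} (ha : a ∈ R) (hb : b ∈ Si R i) (t : ℕ) :
    ∃ Z ∈ ML (Si R (i + 1)) c,
    κ ^ 2 • (Lg c ((a * b ^ t : GL (Fin n) ℚ) : Matrix (Fin n) (Fin n) ℚ) -
      Lg c (a : Matrix (Fin n) (Fin n) ℚ) - t • Lg c (b : Matrix (Fin n) (Fin n) ℚ)) = t • Z := by
  have hc0 : 0 < c := by omega
  set P : (Matrix (Fin n) (Fin n) ℚ)[X] :=
    PL c (C (a : Matrix (Fin n) (Fin n) ℚ) * PE c (Lg c (b : Matrix (Fin n) (Fin n) ℚ))) -
      C (Lg c (a : Matrix (Fin n) (Fin n) ℚ)) -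
      X * C (Lg c (b : Matrix (Fin n) (Fin n) ℚ)) with hP
  have hev : ∀ t : ℕ, ev n t P =
      Lg c ((a * b ^ t : GL (Fin n) ℚ) : Matrix (Fin n) (Fin n) ℚ) -
      Lg c (a : Matrix (Fin n) (Fin n) ℚ) - t • Lg c (b : Matrix (Fin n) (Fin n) ℚ) := by
    intro t
    rw [hP, map_sub, map_sub, ev_PL, map_mul, ev_C, ev_C, ev_PE, E_pow hc0 hN hb.1, map_mul,
      ev_X, ev_C, ← Units.val_mul, nsmul_eq_mul]
  have hdeg : P.natDegree < c * (c + c + c) + 1 := by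
    refine Nat.lt_succ_of_le ?_
    have h1 : (PL c (C (a : Matrix (Fin n) (Fin n) ℚ) *
        PE c (Lg c (b : Matrix (Fin n) (Fin n) ℚ)))).natDegree ≤ c * c :=
      natDegree_PL ((Polynomial.natDegree_C_mul_le _ _).trans (natDegree_PE _ _))
    have h2 : c * c ≤ c * (c + c + c) := Nat.mul_le_mul_left _ (by omega)
    have h3 : 1 ≤ c * (c + c + c) := by nlinarith
    refine (Polynomial.natDegree_sub_le _ _).trans (max_le ?_ ?_)
    · refine (Polynomial.natDegree_sub_le _ _).trans (max_le (h1.trans h2) ?_)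
      rw [natDegree_C]; exact Nat.zero_le _
    · refine (Polynomial.natDegree_mul_le).trans ?_
      rw [natDegree_C, add_zero]
      exact (Polynomial.natDegree_X_le).trans h3
  have h0 : P.coeff 0 = 0 := by
    rw [← ev_zero, hev 0, pow_zero, mul_one, zero_smul, sub_self, sub_zero]
  have hval : ∀ t : ℕ, κ • ev n t P ∈ ML (Si R (i + 1)) c := by
    intro t
    rw [hev t, ← log_pow hc0 hN hb.1]
    exact log_mul hc hN hκ ha ((Si R i).pow_mem hb t)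
  obtain ⟨Z, hZ, h⟩ := ev_div hdeg h0 (hκ.one hdeg hval) t
  exact ⟨Z, hZ, by rw [← hev t]; exact h⟩

/-- (C') -/
theorem exists_log {κ : ℕ} (hc : 1 < c) (hN : NilJ R c) (hκ : Ki n (c * (c + c + c) + 1) κ)
    {i : ℕ} {Y : Matrix (Fin n) (Fin n) ℚ} (hY : Y ∈ ML (Si R i) c) :
    ∃ b ∈ Si R i, κ • (Y - Lg c (b : Matrix (Fin n) (Fin n) ℚ)) ∈ ML (Si R (i + 1)) c := by
  have hc0 : 0 < c := by omega
  refine AddSubgroup.closure_induction (p := fun Y _ =>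
    ∃ b ∈ Si R i, κ • (Y - Lg c (b : Matrix (Fin n) (Fin n) ℚ)) ∈ ML (Si R (i + 1)) c)
    ?_ ?_ ?_ ?_ hY
  · rintro _ ⟨x, hx, rfl⟩
    exact ⟨x, hx, by rw [sub_self, smul_zero]; exact AddSubgroup.zero_mem _⟩
  · refine ⟨1, Subgroup.one_mem _, ?_⟩
    rw [Units.val_one, Lg_one, sub_self, smul_zero]; exact AddSubgroup.zero_mem _
  · rintro x y _ _ ⟨b, hb, h⟩ ⟨b', hb', h'⟩
    refine ⟨b * b', (Si R i).mul_mem hb hb', ?_⟩
    have h1 := log_mul hc hN hκ hb.1 hb'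
    have h2 : κ • (x + y - Lg c ((b * b' : GL (Fin n) ℚ) : Matrix (Fin n) (Fin n) ℚ)) =
        κ • (x - Lg c (b : Matrix (Fin n) (Fin n) ℚ)) +
        κ • (y - Lg c (b' : Matrix (Fin n) (Fin n) ℚ)) -
        κ • (Lg c ((b * b' : GL (Fin n) ℚ) : Matrix (Fin n) (Fin n) ℚ) -
      Lg c (b : Matrix (Fin n) (Fin n) ℚ) - Lg c (b' : Matrix (Fin n) (Fin n) ℚ)) := by
      rw [← smul_add, ← smul_sub]
      congr 1
      abel
    rw [h2]
    exact AddSubgroup.sub_mem _ (AddSubgroup.add_mem _ h h') h1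
  · rintro x _ ⟨b, hb, h⟩
    refine ⟨b⁻¹, (Si R i).inv_mem hb, ?_⟩
    rw [log_inv hc0 hN hb.1]
    have h2 : κ • (-x - -Lg c (b : Matrix (Fin n) (Fin n) ℚ)) =
        - (κ • (x - Lg c (b : Matrix (Fin n) (Fin n) ℚ))) := by
      rw [← smul_neg]; congr 1; abel
    rw [h2]
    exact AddSubgroup.neg_mem _ h

/-- (E) -/
theorem exp_mem_aux {κ : ℕ} (hc : 1 < c) (hN : NilJ R c) (hκ : Ki n (c * (c + c + c) + 1) κ) :
    ∀ k i, i + k + 1 = c → ∀ a ∈ R, ∀ Y ∈ ML (Si R i) c, ∃ s ∈ Si R i,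
      E c (Lg c (a : Matrix (Fin n) (Fin n) ℚ) + (κ ^ 2) ^ k • Y) =
        ((a * s : GL (Fin n) ℚ) : Matrix (Fin n) (Fin n) ℚ) := by
  have hc0 : 0 < c := by omega
  intro k
  induction k with
  | zero =>
    intro i hi a ha Y hY
    have hi' : i = c - 1 := by omega
    have hY0 : Y = 0 := by
      refine AddSubgroup.closure_induction (p := fun Y _ => Y = 0) ?_ rfl ?_ ?_ hY
      · rintro _ ⟨x, hx, rfl⟩
        rw [hi'] at hx
        rw [Si_bot hc0 hN hx, Units.val_one, Lg_one]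
      · rintro x y _ _ rfl rfl; exact add_zero _
      · rintro x _ rfl; exact neg_zero
    refine ⟨1, Subgroup.one_mem _, ?_⟩
    rw [hY0, smul_zero, add_zero, mul_one, E_log hc0 hN ha]
  | succ k ih =>
    intro i hi a ha Y hY
    obtain ⟨b, hb, hb'⟩ := exists_log hc hN hκ hY
    set K : ℕ := (κ ^ 2) ^ k with hK
    set t : ℕ := (κ ^ 2) ^ (k + 1) with ht
    have htK : t = κ ^ 2 * K := by rw [ht, hK, pow_succ]; ring
    obtain ⟨Z, hZ, hZ'⟩ := log_mul_pow hc hN hκ ha hb t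
    set Dd := Lg c ((a * b ^ t : GL (Fin n) ℚ) : Matrix (Fin n) (Fin n) ℚ) -
      Lg c (a : Matrix (Fin n) (Fin n) ℚ) - t • Lg c (b : Matrix (Fin n) (Fin n) ℚ) with hDd
    have hDK : Dd = K • Z := by
      have h1 : κ ^ 2 • (Dd - K • Z) = 0 := by
        rw [smul_sub, hZ', ← mul_smul, htK, sub_self]
      have h2 : κ ^ 2 ≠ 0 := (pow_pos hκ.1 2).ne'
      rw [← Nat.cast_smul_eq_nsmul ℚ] at h1
      rcases smul_eq_zero.1 h1 with h3 | h3
      · exact absurd (Nat.cast_eq_zero.1 h3) h2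
      · exact sub_eq_zero.1 h3
    have hbt : a * b ^ t ∈ R := R.mul_mem ha (R.pow_mem hb.1 t)
    obtain ⟨s, hs, hs'⟩ := ih (i + 1) (by omega) (a * b ^ t) hbt
      (κ • (κ • (Y - Lg c (b : Matrix (Fin n) (Fin n) ℚ))) - Z)
      (AddSubgroup.sub_mem _ (AddSubgroup.nsmul_mem _ hb' _) hZ)
    refine ⟨b ^ t * s, (Si R i).mul_mem ((Si R i).pow_mem hb t) (Si_anti R i hs), ?_⟩
    rw [← mul_assoc, ← hs']
    congr 1
    have h1 : K • (κ • (κ • (Y - Lg c (b : Matrix (Fin n) (Fin n) ℚ))) - Z) =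
        t • Y - t • Lg c (b : Matrix (Fin n) (Fin n) ℚ) - Dd := by
      rw [hDK, smul_sub, ← mul_smul, ← mul_smul, ← smul_sub, htK]
      congr 2
      ring
    rw [h1, hDd]
    abel

end Group

end Pool.Agent.NP
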