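import Mathlib

/-!
# Kolchin's theorem over ℚ, in flag form
-/

set_option autoImplicit false

namespace Pool.Agent.Kol

section general

open Polynomial

variable {M : Type*} [AddCommGroup M] [Module ℚ M] [FiniteDimensional ℚ M]

/-- A multiplicatively closed space of trace zero endomorphisms consists of nilpotent ones. -/
theorem nil_of_trace (J : Submodule ℚ (Module.End ℚ M)) (hmul : ∀ a ∈ J, ∀ b ∈ J, a * b ∈ J)
    (htr : ∀ a ∈ J, LinearMap.trace ℚ M a = 0) : ∀ j ∈ J, IsNilpotent j := by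
  intro j hj
  -- minimal polynomial
  have hm0 : minpoly ℚ j ≠ 0 := minpoly.ne_zero (Algebra.IsIntegral.isIntegral j)
  obtain ⟨g, hg, hgX⟩ := exists_eq_pow_rootMultiplicity_mul_and_not_dvd (minpoly ℚ j) hm0 0
  set k := rootMultiplicity 0 (minpoly ℚ j) with hk
  simp only [map_zero, sub_zero] at hg hgX
  have hcop : IsCoprime (X ^ (k + 1) : ℚ[X]) g := by
    apply IsCoprime.pow_left
    exact (Irreducible.coprime_iff_not_dvd irreducible_X).2 hgX
  obtain ⟨u, v, huv⟩ := hcop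
  set e : Module.End ℚ M := aeval j (u * X ^ (k + 1)) with he
  have hxg : aeval j (X ^ (k + 1) * g) = 0 := by
    have h1 : (X ^ (k + 1) * g : ℚ[X]) = X * minpoly ℚ j := by
      rw [hg]; ring
    rw [h1, map_mul, minpoly.aeval, mul_zero]
  have h1e : 1 - e = aeval j (v * g) := by
    rw [he, ← map_one (aeval j : ℚ[X] →ₐ[ℚ] Module.End ℚ M), ← map_sub, ← huv]
    congr 1; ring
  have hid : IsIdempotentElem e := by
    have h2 : e * (1 - e) = 0 := by
      rw [h1e, he, ← map_mul]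
      have : (u * X ^ (k + 1) * (v * g) : ℚ[X]) = (u * v) * (X ^ (k + 1) * g) := by ring
      rw [this, map_mul, hxg, mul_zero]
    rw [mul_sub, mul_one, sub_eq_zero] at h2
    exact h2.symm
  -- e ∈ J
  have hpow : ∀ m : ℕ, j ^ (m + 1) ∈ J := by
    intro m
    induction m with
    | zero => simpa using hj
    | succ m ih => rw [pow_succ]; exact hmul _ ih _ hj
  have heJ : e ∈ J := by
    have h3 : ∀ q : ℚ[X], aeval j (q * X ^ (k + 1)) ∈ J := by
      intro q
      induction q using Polynomial.induction_on' with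
      | add p q hp hq => rw [add_mul, map_add]; exact J.add_mem hp hq
      | monomial n a =>
        rw [map_mul, aeval_monomial, map_pow, aeval_X, ← Algebra.smul_def, smul_mul_assoc,
          ← pow_add]
        exact J.smul_mem _ (by rw [← add_assoc]; exact hpow _)
    exact h3 u
  have he0 : e = 0 := (LinearMap.IsIdempotentElem.trace_eq_zero_iff hid).1 (htr e heJ)
  refine ⟨k + 1, ?_⟩
  have h4 : aeval j (v * g) = (1 : Module.End ℚ M) := by rw [← h1e, he0, sub_zero]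
  have h5 : aeval j ((X ^ (k + 1) : ℚ[X]) * (v * g)) = j ^ (k + 1) := by
    rw [map_mul, h4, mul_one, map_pow, aeval_X]
  have h6 : ((X ^ (k + 1) : ℚ[X]) * (v * g)) = v * (X ^ (k + 1) * g) := by ring
  rw [← h5, h6, map_mul, hxg, mul_zero]

attribute [local instance 100] LieRing.ofAssociativeRing

/-- Engel's theorem for a multiplicatively closed space of nilpotent endomorphisms. -/
theorem engel_prod (J : Submodule ℚ (Module.End ℚ M)) (hmul : ∀ a ∈ J, ∀ b ∈ J, a * b ∈ J)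
    (hnil : ∀ a ∈ J, IsNilpotent a) :
    ∃ c : ℕ, ∀ l : List (Module.End ℚ M), l.length = c → (∀ a ∈ l, a ∈ J) → l.prod = 0 := by
  let L : LieSubalgebra ℚ (Module.End ℚ M) :=
    { J with
      lie_mem' := by
        intro a b ha hb
        change a * b - b * a ∈ J
        exact J.sub_mem (hmul a ha b hb) (hmul b hb a ha) }
  have hL : ∀ a, a ∈ L ↔ a ∈ J := fun a => Iff.rfl
  have h1 : LieModule.IsNilpotent L M := by
    rw [LieModule.isNilpotent_iff_forall' (R := ℚ)]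
    rintro ⟨a, ha⟩
    have : LieModule.toEnd ℚ L M ⟨a, ha⟩ = a := by
      ext m; rfl
    rw [this]
    exact hnil a ha
  obtain ⟨c, hc⟩ := (LieModule.isNilpotent_iff ℚ L M).1 h1
  refine ⟨c, fun l hl hlJ => ?_⟩
  have h2 : ∀ l : List (Module.End ℚ M), (∀ a ∈ l, a ∈ J) → ∀ m : M,
      l.prod m ∈ LieModule.lowerCentralSeries ℚ L M l.length := by
    intro l
    induction l with
    | nil => intro _ m; simp
    | cons a l ih =>
      intro h m
      rw [List.length_cons, LieModule.lowerCentralSeries_succ, List.prod_cons]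
      have h3 := ih (fun b hb => h b (List.mem_cons_of_mem _ hb)) m
      have ha : a ∈ L := h a (List.mem_cons_self)
      exact LieSubmodule.lie_mem_lie (LieSubmodule.mem_top (⟨a, ha⟩ : L)) h3
  ext m
  have h3 := h2 l hlJ m
  rw [hl, hc] at h3
  simpa using h3

end general

variable {n : ℕ}

/-- the span of the elements `x - 1`, `x ∈ N` -/
def Jsp (N : Subgroup (GL (Fin n) ℚ)) : Submodule ℚ (Matrix (Fin n) (Fin n) ℚ) :=
  Submodule.span ℚ ((fun x : GL (Fin n) ℚ => (x : Matrix (Fin n) (Fin n) ℚ) - 1) '' (N : Set _))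

lemma sub_one_mem {N : Subgroup (GL (Fin n) ℚ)} {x : GL (Fin n) ℚ} (hx : x ∈ N) :
    (x : Matrix (Fin n) (Fin n) ℚ) - 1 ∈ Jsp N :=
  Submodule.subset_span ⟨x, hx, rfl⟩

lemma Jsp_mul (N : Subgroup (GL (Fin n) ℚ)) {a b : Matrix (Fin n) (Fin n) ℚ}
    (ha : a ∈ Jsp N) (hb : b ∈ Jsp N) : a * b ∈ Jsp N := by
  refine Submodule.span_induction₂ (p := fun a b _ _ => a * b ∈ Jsp N) ?_ ?_ ?_ ?_ ?_ ?_ ?_ ha hb
  · rintro _ _ ⟨x, hx, rfl⟩ ⟨y, hy, rfl⟩
    have h : ((x : Matrix (Fin n) (Fin n) ℚ) - 1) * ((y : Matrix (Fin n) (Fin n) ℚ) - 1) =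
        (((x * y : GL (Fin n) ℚ) : Matrix (Fin n) (Fin n) ℚ) - 1) -
          ((x : Matrix (Fin n) (Fin n) ℚ) - 1) - ((y : Matrix (Fin n) (Fin n) ℚ) - 1) := by
      rw [Units.val_mul]; noncomm_ring
    simp only [h]
    exact Submodule.sub_mem _ (Submodule.sub_mem _ (sub_one_mem (N.mul_mem hx hy))
      (sub_one_mem hx)) (sub_one_mem hy)
  · intro y _; rw [zero_mul]; exact Submodule.zero_mem _
  · intro x _; rw [mul_zero]; exact Submodule.zero_mem _
  · intro x y z _ _ _ h1 h2; rw [add_mul]; exact Submodule.add_mem _ h1 h2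
  · intro x y z _ _ _ h1 h2; rw [mul_add]; exact Submodule.add_mem _ h1 h2
  · intro r x y _ _ h; rw [smul_mul_assoc]; exact Submodule.smul_mem _ _ h
  · intro r x y _ _ h; rw [mul_smul_comm]; exact Submodule.smul_mem _ _ h

/-- Kolchin's theorem. -/
theorem kolchin_J (N : Subgroup (GL (Fin n) ℚ))
    (h : ∀ x ∈ N, IsNilpotent ((x : Matrix (Fin n) (Fin n) ℚ) - 1)) :
    ∃ c : ℕ, ∀ l : List (Matrix (Fin n) (Fin n) ℚ), l.length = c → (∀ a ∈ l, a ∈ Jsp N) →
      l.prod = 0 := by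
  let Φ := (Matrix.toLinAlgEquiv' : Matrix (Fin n) (Fin n) ℚ ≃ₐ[ℚ] ((Fin n → ℚ) →ₗ[ℚ] (Fin n → ℚ)))
  let J : Submodule ℚ (Module.End ℚ (Fin n → ℚ)) := (Jsp N).map Φ.toLinearMap
  have hJ : ∀ a, a ∈ J ↔ ∃ b ∈ Jsp N, Φ b = a := by
    intro a
    exact Iff.rfl
  have hmul : ∀ a ∈ J, ∀ b ∈ J, a * b ∈ J := by
    intro a ha b hb
    obtain ⟨a', ha', rfl⟩ := (hJ a).1 ha
    obtain ⟨b', hb', rfl⟩ := (hJ b).1 hb
    exact (hJ _).2 ⟨a' * b', Jsp_mul N ha' hb', map_mul Φ _ _⟩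
  have htr : ∀ a ∈ J, LinearMap.trace ℚ (Fin n → ℚ) a = 0 := by
    intro a ha
    obtain ⟨b, hb, rfl⟩ := (hJ a).1 ha
    have h1 : LinearMap.trace ℚ (Fin n → ℚ) (Φ b) = Matrix.trace b :=
      Matrix.trace_toLin'_eq b
    rw [h1]
    refine Submodule.span_induction (p := fun b _ => Matrix.trace b = 0) ?_ ?_ ?_ ?_ hb
    · rintro _ ⟨x, hx, rfl⟩
      exact (Matrix.isNilpotent_trace_of_isNilpotent (h x hx)).eq_zero
    · simp
    · intro x y _ _ hx hy; rw [Matrix.trace_add, hx, hy, add_zero]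
    · intro r x _ hx; rw [Matrix.trace_smul, hx, smul_zero]
  obtain ⟨c, hc⟩ := engel_prod J hmul (nil_of_trace J hmul htr)
  refine ⟨c, fun l hl hlJ => ?_⟩
  have h1 := hc (l.map Φ) (by rw [List.length_map, hl]) (by
    intro a ha
    obtain ⟨b, hb, rfl⟩ := List.mem_map.1 ha
    exact (hJ _).2 ⟨b, hlJ b hb, rfl⟩)
  rw [← map_list_prod] at h1
  exact (map_eq_zero_iff Φ Φ.injective).1 h1

theorem kolchin (N : Subgroup (GL (Fin n) ℚ))
    (h : ∀ x ∈ N, IsNilpotent ((x : Matrix (Fin n) (Fin n) ℚ) - 1)) :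
    ∃ c : ℕ, ∀ l : List (GL (Fin n) ℚ), l.length = c → (∀ x ∈ l, x ∈ N) →
      (l.map (fun x : GL (Fin n) ℚ => (x : Matrix (Fin n) (Fin n) ℚ) - 1)).prod = 0 := by
  obtain ⟨c, hc⟩ := kolchin_J N h
  refine ⟨c, fun l hl hlN => hc _ (by rw [List.length_map, hl]) ?_⟩
  intro a ha
  obtain ⟨x, hx, rfl⟩ := List.mem_map.1 ha
  exact sub_one_mem (hlN x hx)

/-- The flag of a unipotent group. -/
noncomputable def flag (N : Subgroup (GL (Fin n) ℚ)) : ℕ → Submodule ℚ (Fin n → ℚ)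
  | 0 => ⊤
  | i + 1 => Submodule.span ℚ {w | ∃ X ∈ Jsp N, ∃ v ∈ flag N i, w = X.mulVec v}

lemma flag_step {N : Subgroup (GL (Fin n) ℚ)} {X : Matrix (Fin n) (Fin n) ℚ} (hX : X ∈ Jsp N)
    {i : ℕ} {v : Fin n → ℚ} (hv : v ∈ flag N i) : X.mulVec v ∈ flag N (i + 1) :=
  Submodule.subset_span ⟨X, hX, v, hv, rfl⟩

lemma flag_anti (N : Subgroup (GL (Fin n) ℚ)) (i : ℕ) : flag N (i + 1) ≤ flag N i := by
  induction i with
  | zero => exact le_top
  | succ i ih =>
    refine Submodule.span_le.2 ?_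
    rintro w ⟨X, hX, v, hv, rfl⟩
    exact flag_step hX (ih hv)

lemma flag_bot (N : Subgroup (GL (Fin n) ℚ)) {c : ℕ}
    (hc : ∀ l : List (Matrix (Fin n) (Fin n) ℚ), l.length = c → (∀ a ∈ l, a ∈ Jsp N) →
      l.prod = 0) : flag N c = ⊥ := by
  have h : ∀ i, ∀ l : List (Matrix (Fin n) (Fin n) ℚ), l.length + i = c →
      (∀ a ∈ l, a ∈ Jsp N) → ∀ v ∈ flag N i, l.prod.mulVec v = 0 := by
    intro i
    induction i with
    | zero =>
      intro l hl hlJ v _
      rw [hc l (by omega) hlJ, Matrix.zero_mulVec]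
    | succ i ih =>
      intro l hl hlJ v hv
      refine Submodule.span_induction (p := fun v _ => l.prod.mulVec v = 0) ?_ ?_ ?_ ?_ hv
      · rintro _ ⟨X, hX, u, hu, rfl⟩
        have h1 := ih (l ++ [X]) (by simp; omega) (by
          intro a ha
          rcases List.mem_append.1 ha with ha | ha
          · exact hlJ a ha
          · rw [List.mem_singleton.1 ha]; exact hX) u hu
        rwa [List.prod_append, List.prod_singleton, ← Matrix.mulVec_mulVec] at h1
      · simp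
      · intro x y _ _ hx hy; rw [Matrix.mulVec_add, hx, hy, add_zero]
      · intro r x _ hx; rw [Matrix.mulVec_smul, hx, smul_zero]
  rw [eq_bot_iff]
  intro v hv
  have := h c [] (by simp) (by simp) v hv
  simpa using this

/-- The flag is invariant under the normaliser. -/
lemma flag_invariant {N : Subgroup (GL (Fin n) ℚ)} {g : GL (Fin n) ℚ}
    (hg : ∀ x ∈ N, g * x * g⁻¹ ∈ N) (i : ℕ) {v : Fin n → ℚ} (hv : v ∈ flag N i) :
    (g : Matrix (Fin n) (Fin n) ℚ).mulVec v ∈ flag N i := by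
  have hconj : ∀ X ∈ Jsp N, (g : Matrix (Fin n) (Fin n) ℚ) * X *
      ((g⁻¹ : GL (Fin n) ℚ) : Matrix (Fin n) (Fin n) ℚ) ∈ Jsp N := by
    intro X hX
    refine Submodule.span_induction (p := fun X _ => (g : Matrix (Fin n) (Fin n) ℚ) * X *
      ((g⁻¹ : GL (Fin n) ℚ) : Matrix (Fin n) (Fin n) ℚ) ∈ Jsp N) ?_ ?_ ?_ ?_ hX
    · rintro _ ⟨x, hx, rfl⟩
      have h1 : (g : Matrix (Fin n) (Fin n) ℚ) * ((x : Matrix (Fin n) (Fin n) ℚ) - 1) *
          ((g⁻¹ : GL (Fin n) ℚ) : Matrix (Fin n) (Fin n) ℚ) =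
          ((g * x * g⁻¹ : GL (Fin n) ℚ) : Matrix (Fin n) (Fin n) ℚ) - 1 := by
        rw [mul_sub, mul_one, sub_mul, Units.val_mul, Units.val_mul]
        congr 1
        rw [← Units.val_mul, mul_inv_cancel, Units.val_one]
      simp only [h1]
      exact sub_one_mem (hg x hx)
    · rw [mul_zero, zero_mul]; exact Submodule.zero_mem _
    · intro x y _ _ hx hy; rw [mul_add, add_mul]; exact Submodule.add_mem _ hx hy
    · intro r x _ hx; rw [mul_smul_comm, smul_mul_assoc]; exact Submodule.smul_mem _ _ hx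
  induction i generalizing v with
  | zero => trivial
  | succ i ih =>
    refine Submodule.span_induction (p := fun v _ =>
      (g : Matrix (Fin n) (Fin n) ℚ).mulVec v ∈ flag N (i + 1)) ?_ ?_ ?_ ?_ hv
    · rintro _ ⟨X, hX, u, hu, rfl⟩
      have h1 := flag_step (hconj X hX) (ih hu)
      have h2 : ((g : Matrix (Fin n) (Fin n) ℚ) * X *
          ((g⁻¹ : GL (Fin n) ℚ) : Matrix (Fin n) (Fin n) ℚ)).mulVec
            ((g : Matrix (Fin n) (Fin n) ℚ).mulVec u) =
          (g : Matrix (Fin n) (Fin n) ℚ).mulVec (X.mulVec u) := by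
        rw [Matrix.mulVec_mulVec, Matrix.mul_assoc, ← Units.val_mul, inv_mul_cancel,
          Units.val_one, Matrix.mul_one, Matrix.mulVec_mulVec]
      rwa [h2] at h1
    · rw [Matrix.mulVec_zero]; exact Submodule.zero_mem _
    · intro x y _ _ hx hy; rw [Matrix.mulVec_add]; exact Submodule.add_mem _ hx hy
    · intro r x _ hx; rw [Matrix.mulVec_smul]; exact Submodule.smul_mem _ _ hx

end Pool.Agent.Kol
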