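import Pool.Agent.Helper39.CJ.LatDefs
import Pool.Agent.Helper92.CP.OA3a

/-!
# The logarithmic lattice of a unipotent group: first properties
-/

set_option autoImplicit false

namespace Pool.Agent.NP

open Finset Pool.Agent.LIN Pool.Agent.Kol

variable {n : ℕ}

lemma pow_mem_Jsp {R : Subgroup (GL (Fin n) ℚ)} {a : Matrix (Fin n) (Fin n) ℚ} (ha : a ∈ Jsp R)
    (k : ℕ) : a ^ (k + 1) ∈ Jsp R := by
  induction k with
  | zero => simpa using ha
  | succ k ih => rw [pow_succ]; exact Jsp_mul R ih ha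

lemma Lg_mem {R : Subgroup (GL (Fin n) ℚ)} {x : GL (Fin n) ℚ} (hx : x ∈ R) (c : ℕ) :
    Lg c (x : Matrix (Fin n) (Fin n) ℚ) ∈ Jsp R := by
  unfold Lg
  refine Submodule.sum_mem _ (fun k _ => ?_)
  rcases k with _ | k
  · simp
  · exact Submodule.smul_mem _ _ (pow_mem_Jsp (sub_one_mem hx) k)

lemma LL_le {R : Subgroup (GL (Fin n) ℚ)} {c t : ℕ} {X : Matrix (Fin n) (Fin n) ℚ}
    (hX : X ∈ LL R c t) : X ∈ Jsp R := by
  have h : LL R c t ≤ (Jsp R).toAddSubgroup := by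
    refine (AddSubgroup.closure_le _).2 ?_
    rintro _ ⟨x, hx, rfl⟩
    exact (Jsp R).toAddSubgroup.zsmul_mem (Lg_mem hx c) _
  exact h hX

/-- the nilpotency statement in terms of `Jsp` -/
def NilJ (R : Subgroup (GL (Fin n) ℚ)) (c : ℕ) : Prop :=
  ∀ l : List (Matrix (Fin n) (Fin n) ℚ), l.length = c → (∀ a ∈ l, a ∈ Jsp R) → l.prod = 0

lemma NilJ.succ {R : Subgroup (GL (Fin n) ℚ)} {c : ℕ} (h : NilJ R c) : NilJ R (c + 1) := by
  intro l hl hlJ
  rcases l with _ | ⟨a, l⟩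
  · simp at hl
  · rw [List.prod_cons, h l (by simpa using hl) (fun b hb => hlJ b (List.mem_cons_of_mem _ hb)),
      mul_zero]

lemma NilJ.pow {R : Subgroup (GL (Fin n) ℚ)} {c : ℕ} (h : NilJ R c)
    {a : Matrix (Fin n) (Fin n) ℚ} (ha : a ∈ Jsp R) : a ^ c = 0 := by
  have := h (List.replicate c a) (by simp) (fun b hb => by
    rw [List.eq_of_mem_replicate hb]; exact ha)
  rwa [List.prod_replicate] at this

lemma NilJ.SU {R : Subgroup (GL (Fin n) ℚ)} {c : ℕ} (h : NilJ R c) : SU R c := by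
  intro l hl hlR
  refine h _ (by rw [List.length_map, hl]) ?_
  intro a ha
  obtain ⟨x, hx, rfl⟩ := List.mem_map.1 ha
  exact sub_one_mem (hlR x hx)

lemma E_eq_exp {c : ℕ} {X : Matrix (Fin n) (Fin n) ℚ} (h : X ^ c = 0) :
    E c X = IsNilpotent.exp X := by
  rw [IsNilpotent.exp_eq_sum h]
  rfl

lemma E_neg {c : ℕ} {X : Matrix (Fin n) (Fin n) ℚ} (h : X ^ c = 0) : E c (-X) * E c X = 1 := by
  have h' : (-X) ^ c = 0 := by rw [neg_pow, h, mul_zero]
  rw [E_eq_exp h, E_eq_exp h']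
  exact IsNilpotent.exp_neg_mul_exp_self ⟨c, h⟩

lemma E_zero {c : ℕ} (hc : 0 < c) : E c (0 : Matrix (Fin n) (Fin n) ℚ) = 1 := by
  have h : (0 : Matrix (Fin n) (Fin n) ℚ) ^ c = 0 := zero_pow hc.ne'
  rw [E_eq_exp h, IsNilpotent.exp_zero]

/-- conjugation -/
lemma conj_pow (g : GL (Fin n) ℚ) (X : Matrix (Fin n) (Fin n) ℚ) (k : ℕ) :
    ((g : Matrix (Fin n) (Fin n) ℚ) * X * ((g⁻¹ : GL (Fin n) ℚ) : Matrix (Fin n) (Fin n) ℚ)) ^ k =
      (g : Matrix (Fin n) (Fin n) ℚ) * X ^ k *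
        ((g⁻¹ : GL (Fin n) ℚ) : Matrix (Fin n) (Fin n) ℚ) := by
  induction k with
  | zero =>
    rw [pow_zero, pow_zero, mul_one, ← Units.val_mul, mul_inv_cancel, Units.val_one]
  | succ k ih =>
    rw [pow_succ, ih, pow_succ]
    have h : ((g⁻¹ : GL (Fin n) ℚ) : Matrix (Fin n) (Fin n) ℚ) * (g : Matrix (Fin n) (Fin n) ℚ) =
        1 := by rw [← Units.val_mul, inv_mul_cancel, Units.val_one]
    calc (g : Matrix (Fin n) (Fin n) ℚ) * X ^ k * ((g⁻¹ : GL (Fin n) ℚ) : Matrix _ _ ℚ) *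
          ((g : Matrix (Fin n) (Fin n) ℚ) * X * ((g⁻¹ : GL (Fin n) ℚ) : Matrix _ _ ℚ))
        = (g : Matrix (Fin n) (Fin n) ℚ) * X ^ k * (((g⁻¹ : GL (Fin n) ℚ) : Matrix _ _ ℚ) *
          (g : Matrix (Fin n) (Fin n) ℚ)) * X * ((g⁻¹ : GL (Fin n) ℚ) : Matrix _ _ ℚ) := by
            simp only [mul_assoc]
      _ = _ := by rw [h, mul_one, mul_assoc (g : Matrix (Fin n) (Fin n) ℚ)]

lemma conj_E (g : GL (Fin n) ℚ) (c : ℕ) (X : Matrix (Fin n) (Fin n) ℚ) :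
    (g : Matrix (Fin n) (Fin n) ℚ) * E c X * ((g⁻¹ : GL (Fin n) ℚ) : Matrix (Fin n) (Fin n) ℚ) =
      E c ((g : Matrix (Fin n) (Fin n) ℚ) * X *
        ((g⁻¹ : GL (Fin n) ℚ) : Matrix (Fin n) (Fin n) ℚ)) := by
  unfold E
  rw [Finset.mul_sum, Finset.sum_mul]
  refine Finset.sum_congr rfl (fun k _ => ?_)
  rw [conj_pow, mul_smul_comm, smul_mul_assoc]

lemma conj_Lg (g x : GL (Fin n) ℚ) (c : ℕ) :
    (g : Matrix (Fin n) (Fin n) ℚ) * Lg c (x : Matrix (Fin n) (Fin n) ℚ) *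
      ((g⁻¹ : GL (Fin n) ℚ) : Matrix (Fin n) (Fin n) ℚ) =
      Lg c ((g * x * g⁻¹ : GL (Fin n) ℚ) : Matrix (Fin n) (Fin n) ℚ) := by
  unfold Lg
  rw [Finset.mul_sum, Finset.sum_mul]
  refine Finset.sum_congr rfl (fun k _ => ?_)
  rw [mul_smul_comm, smul_mul_assoc, ← conj_pow]
  congr 2
  rw [mul_sub, mul_one, sub_mul, Units.val_mul, Units.val_mul]
  congr 1
  rw [← Units.val_mul, mul_inv_cancel, Units.val_one]

lemma conj_LL {R : Subgroup (GL (Fin n) ℚ)} {c t : ℕ} {g : GL (Fin n) ℚ}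
    (hg : ∀ x ∈ R, g * x * g⁻¹ ∈ R) {X : Matrix (Fin n) (Fin n) ℚ} (hX : X ∈ LL R c t) :
    (g : Matrix (Fin n) (Fin n) ℚ) * X * ((g⁻¹ : GL (Fin n) ℚ) : Matrix (Fin n) (Fin n) ℚ)
      ∈ LL R c t := by
  refine AddSubgroup.closure_induction (p := fun X _ => (g : Matrix (Fin n) (Fin n) ℚ) * X *
    ((g⁻¹ : GL (Fin n) ℚ) : Matrix (Fin n) (Fin n) ℚ) ∈ LL R c t) ?_ ?_ ?_ ?_ hX
  · rintro _ ⟨x, hx, rfl⟩
    rw [mul_smul_comm, smul_mul_assoc, conj_Lg]
    exact AddSubgroup.subset_closure ⟨_, hg x hx, rfl⟩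
  · rw [mul_zero, zero_mul]; exact AddSubgroup.zero_mem _
  · intro x y _ _ hx hy; rw [mul_add, add_mul]; exact AddSubgroup.add_mem _ hx hy
  · intro x _ hx; rw [mul_neg, neg_mul]; exact AddSubgroup.neg_mem _ hx

/-- the subgroup `exp L` -/
def expG {R : Subgroup (GL (Fin n) ℚ)} {c t : ℕ} (hc : 0 < c) (hN : NilJ R c)
    (hG : Good R c t) : Subgroup (GL (Fin n) ℚ) where
  carrier := {x | ∃ X ∈ LL R c t, (x : Matrix (Fin n) (Fin n) ℚ) = E c X}
  one_mem' := ⟨0, AddSubgroup.zero_mem _, by rw [E_zero hc, Units.val_one]⟩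
  mul_mem' := by
    rintro x y ⟨X, hX, hx⟩ ⟨Y, hY, hy⟩
    obtain ⟨Z, hZ, h⟩ := hG.mul X hX Y hY
    exact ⟨Z, hZ, by rw [Units.val_mul, hx, hy, h]⟩
  inv_mem' := by
    rintro x ⟨X, hX, hx⟩
    refine ⟨-X, AddSubgroup.neg_mem _ hX, ?_⟩
    have h1 : E c (-X) * (x : Matrix (Fin n) (Fin n) ℚ) = 1 := by
      rw [hx]; exact E_neg (hN.pow (LL_le hX))
    have h2 : ((x⁻¹ : GL (Fin n) ℚ) : Matrix (Fin n) (Fin n) ℚ) =
        E c (-X) * (x : Matrix (Fin n) (Fin n) ℚ) *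
          ((x⁻¹ : GL (Fin n) ℚ) : Matrix (Fin n) (Fin n) ℚ) := by rw [h1, one_mul]
    rw [h2, mul_assoc, ← Units.val_mul, mul_inv_cancel, Units.val_one, mul_one]

lemma mem_expG {R : Subgroup (GL (Fin n) ℚ)} {c t : ℕ} (hc : 0 < c) (hN : NilJ R c)
    (hG : Good R c t) (x : GL (Fin n) ℚ) :
    x ∈ expG hc hN hG ↔ ∃ X ∈ LL R c t, (x : Matrix (Fin n) (Fin n) ℚ) = E c X := Iff.rfl

lemma expG_le {R : Subgroup (GL (Fin n) ℚ)} {c t : ℕ} (hc : 0 < c) (hN : NilJ R c)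
    (hG : Good R c t) : expG hc hN hG ≤ R := by
  rintro x ⟨X, hX, hx⟩
  obtain ⟨y, hy, h⟩ := hG.exp_mem X hX
  have : x = y := Units.ext (by rw [hx, h])
  rw [this]; exact hy

lemma expG_normal {R : Subgroup (GL (Fin n) ℚ)} {c t : ℕ} (hc : 0 < c) (hN : NilJ R c)
    (hG : Good R c t) {g : GL (Fin n) ℚ} (hg : ∀ x ∈ R, g * x * g⁻¹ ∈ R) {x : GL (Fin n) ℚ}
    (hx : x ∈ expG hc hN hG) : g * x * g⁻¹ ∈ expG hc hN hG := by
  obtain ⟨X, hX, h⟩ := hx
  exact ⟨_, conj_LL hg hX, by rw [Units.val_mul, Units.val_mul, h, conj_E]⟩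

lemma expG_pow {R : Subgroup (GL (Fin n) ℚ)} {c t : ℕ} (hc : 0 < c) (hN : NilJ R c)
    (hG : Good R c t) {x : GL (Fin n) ℚ} (hx : x ∈ R) : x ^ t ∈ expG hc hN hG :=
  ⟨_, AddSubgroup.subset_closure ⟨x, hx, rfl⟩, (hG.pow x hx).symm⟩

/-! ### finite index -/

/-- powers of `Jsp` -/
noncomputable def Jp (R : Subgroup (GL (Fin n) ℚ)) : ℕ → Submodule ℚ (Matrix (Fin n) (Fin n) ℚ)
  | 0 => Jsp R
  | i + 1 => Submodule.span ℚ {Z | ∃ X ∈ Jsp R, ∃ Y ∈ Jp R i, Z = X * Y}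

lemma Jp_mul {R : Subgroup (GL (Fin n) ℚ)} {i : ℕ} {X Y : Matrix (Fin n) (Fin n) ℚ}
    (hX : X ∈ Jsp R) (hY : Y ∈ Jp R i) : X * Y ∈ Jp R (i + 1) :=
  Submodule.subset_span ⟨X, hX, Y, hY, rfl⟩

lemma Jp_le (R : Subgroup (GL (Fin n) ℚ)) (i : ℕ) : Jp R i ≤ Jsp R := by
  induction i with
  | zero => exact le_refl _
  | succ i ih =>
    refine Submodule.span_le.2 ?_
    rintro _ ⟨X, hX, Y, hY, rfl⟩
    exact Jsp_mul R hX (ih hY)

lemma Jp_anti (R : Subgroup (GL (Fin n) ℚ)) (i : ℕ) : Jp R (i + 1) ≤ Jp R i := by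
  induction i with
  | zero => exact Jp_le R 1
  | succ i ih =>
    refine Submodule.span_le.2 ?_
    rintro _ ⟨X, hX, Y, hY, rfl⟩
    exact Jp_mul hX (ih hY)

lemma Jp_bot {R : Subgroup (GL (Fin n) ℚ)} {c : ℕ} (hc : 0 < c) (hN : NilJ R c) :
    Jp R (c - 1) = ⊥ := by
  have h : ∀ i, ∀ l : List (Matrix (Fin n) (Fin n) ℚ), l.length + i + 1 = c →
      (∀ a ∈ l, a ∈ Jsp R) → ∀ Y ∈ Jp R i, l.prod * Y = 0 := by
    intro i
    induction i with
    | zero =>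
      intro l hl hlJ Y hY
      have := hN (l ++ [Y]) (by simp; omega) (by
        intro a ha
        rcases List.mem_append.1 ha with ha | ha
        · exact hlJ a ha
        · rw [List.mem_singleton.1 ha]; exact hY)
      rwa [List.prod_append, List.prod_singleton] at this
    | succ i ih =>
      intro l hl hlJ Y hY
      refine Submodule.span_induction (p := fun Y _ => l.prod * Y = 0) ?_ ?_ ?_ ?_ hY
      · rintro _ ⟨X, hX, Z, hZ, rfl⟩
        have h1 := ih (l ++ [X]) (by simp; omega) (by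
          intro a ha
          rcases List.mem_append.1 ha with ha | ha
          · exact hlJ a ha
          · rw [List.mem_singleton.1 ha]; exact hX) Z hZ
        rwa [List.prod_append, List.prod_singleton, mul_assoc] at h1
      · simp
      · intro x y _ _ hx hy; rw [mul_add, hx, hy, add_zero]
      · intro r x _ hx; rw [mul_smul_comm, hx, smul_zero]
  rw [eq_bot_iff]
  intro Y hY
  have := h (c - 1) [] (by simp; omega) (by simp) Y hY
  simpa using this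

/-- finitely many cosets -/
theorem expG_finite {R : Subgroup (GL (Fin n) ℚ)} {c t : ℕ} (hc : 0 < c) (hN : NilJ R c)
    (hG : Good R c t) : ∃ F : Finset (GL (Fin n) ℚ), (∀ f ∈ F, f ∈ R) ∧
      ∀ x ∈ R, ∃ f ∈ F, f⁻¹ * x ∈ expG hc hN hG := by
  classical
  -- level i : elements of R with x - 1 ∈ Jp i
  have key : ∀ k i, i + k + 1 = c → ∃ F : Finset (GL (Fin n) ℚ), (∀ f ∈ F, f ∈ R) ∧
      ∀ x ∈ R, (x : Matrix (Fin n) (Fin n) ℚ) - 1 ∈ Jp R i → ∃ f ∈ F,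
        f⁻¹ * x ∈ expG hc hN hG := by
    intro k
    induction k with
    | zero =>
      intro i hi
      refine ⟨{1}, by simp [R.one_mem], fun x _ hx => ⟨1, by simp, ?_⟩⟩
      have hi' : i = c - 1 := by omega
      rw [hi', Jp_bot hc hN, Submodule.mem_bot, sub_eq_zero] at hx
      have : x = 1 := Units.ext (by rw [hx, Units.val_one])
      rw [this, inv_one, one_mul]
      exact Subgroup.one_mem _
    | succ k ih =>
      intro i hi
      obtain ⟨F', hF'R, hF'⟩ := ih (i + 1) (by omega)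
      -- the additive subgroup of Mat / Jp (i+1)
      let W := (Matrix (Fin n) (Fin n) ℚ) ⧸ (Jp R (i + 1))
      have hmul : ∀ x y : GL (Fin n) ℚ, (x : Matrix (Fin n) (Fin n) ℚ) - 1 ∈ Jp R i →
          (y : Matrix (Fin n) (Fin n) ℚ) - 1 ∈ Jp R i →
          ((x * y : GL (Fin n) ℚ) : Matrix (Fin n) (Fin n) ℚ) - 1 -
            (((x : Matrix (Fin n) (Fin n) ℚ) - 1) + ((y : Matrix (Fin n) (Fin n) ℚ) - 1))
            ∈ Jp R (i + 1) := by
        intro x y hx hy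
        have : ((x * y : GL (Fin n) ℚ) : Matrix (Fin n) (Fin n) ℚ) - 1 -
            (((x : Matrix (Fin n) (Fin n) ℚ) - 1) + ((y : Matrix (Fin n) (Fin n) ℚ) - 1)) =
            ((x : Matrix (Fin n) (Fin n) ℚ) - 1) * ((y : Matrix (Fin n) (Fin n) ℚ) - 1) := by
          rw [Units.val_mul]; noncomm_ring
        rw [this]
        exact Jp_mul (Jp_le R i hx) hy
      have hmul' : ∀ x y : GL (Fin n) ℚ, (x : Matrix (Fin n) (Fin n) ℚ) - 1 ∈ Jp R i →
          (y : Matrix (Fin n) (Fin n) ℚ) - 1 ∈ Jp R i →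
          ((x * y : GL (Fin n) ℚ) : Matrix (Fin n) (Fin n) ℚ) - 1 ∈ Jp R i := by
        intro x y hx hy
        have h1 := Submodule.add_mem _ (Jp_anti R i (hmul x y hx hy))
          (Submodule.add_mem _ hx hy)
        simpa using h1
      have hmk : ∀ x y : GL (Fin n) ℚ, (x : Matrix (Fin n) (Fin n) ℚ) - 1 ∈ Jp R i →
          (y : Matrix (Fin n) (Fin n) ℚ) - 1 ∈ Jp R i →
          (Jp R (i + 1)).mkQ (((x * y : GL (Fin n) ℚ) : Matrix (Fin n) (Fin n) ℚ) - 1) =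
          (Jp R (i + 1)).mkQ ((x : Matrix (Fin n) (Fin n) ℚ) - 1) +
            (Jp R (i + 1)).mkQ ((y : Matrix (Fin n) (Fin n) ℚ) - 1) := by
        intro x y hx hy
        rw [← map_add, ← sub_eq_zero, ← map_sub, Submodule.mkQ_apply,
          Submodule.Quotient.mk_eq_zero]
        exact hmul x y hx hy
      have hinv : ∀ x : GL (Fin n) ℚ, x ∈ R → (x : Matrix (Fin n) (Fin n) ℚ) - 1 ∈ Jp R i →
          ((x⁻¹ : GL (Fin n) ℚ) : Matrix (Fin n) (Fin n) ℚ) - 1 ∈ Jp R i := by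
        intro x hxR hx
        -- x⁻¹ - 1 = -(x-1) - (x⁻¹ - 1)(x-1)
        have h1 : ((x⁻¹ : GL (Fin n) ℚ) : Matrix (Fin n) (Fin n) ℚ) - 1 =
            -((x : Matrix (Fin n) (Fin n) ℚ) - 1) -
              (((x⁻¹ : GL (Fin n) ℚ) : Matrix (Fin n) (Fin n) ℚ) - 1) *
                ((x : Matrix (Fin n) (Fin n) ℚ) - 1) := by
          have h2 : ((x⁻¹ : GL (Fin n) ℚ) : Matrix (Fin n) (Fin n) ℚ) *
              (x : Matrix (Fin n) (Fin n) ℚ) = 1 := by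
            rw [← Units.val_mul, inv_mul_cancel, Units.val_one]
          have h3 : (((x⁻¹ : GL (Fin n) ℚ) : Matrix (Fin n) (Fin n) ℚ) - 1) *
                ((x : Matrix (Fin n) (Fin n) ℚ) - 1) =
              ((x⁻¹ : GL (Fin n) ℚ) : Matrix (Fin n) (Fin n) ℚ) *
              (x : Matrix (Fin n) (Fin n) ℚ) - ((x⁻¹ : GL (Fin n) ℚ) : Matrix (Fin n) (Fin n) ℚ)
                - (x : Matrix (Fin n) (Fin n) ℚ) + 1 := by noncomm_ring
          rw [h3, h2]; abel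
        rw [h1]
        exact Submodule.sub_mem _ (Submodule.neg_mem _ hx)
          (Jp_anti R i (Jp_mul (sub_one_mem (R.inv_mem hxR)) hx))
      let K : AddSubgroup W :=
        { carrier := {w | ∃ x ∈ R, (x : Matrix (Fin n) (Fin n) ℚ) - 1 ∈ Jp R i ∧
            w = (Jp R (i + 1)).mkQ ((x : Matrix (Fin n) (Fin n) ℚ) - 1)}
          zero_mem' := ⟨1, R.one_mem, by simp, by simp⟩
          add_mem' := by
            rintro _ _ ⟨x, hx, hx', rfl⟩ ⟨y, hy, hy', rfl⟩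
            exact ⟨x * y, R.mul_mem hx hy, hmul' x y hx' hy', (hmk x y hx' hy').symm⟩
          neg_mem' := by
            rintro _ ⟨x, hx, hx', rfl⟩
            refine ⟨x⁻¹, R.inv_mem hx, hinv x hx hx', ?_⟩
            have h1 := hmk x x⁻¹ hx' (hinv x hx hx')
            rw [mul_inv_cancel, Units.val_one, sub_self, map_zero] at h1
            exact (eq_neg_of_add_eq_zero_right h1.symm).symm }
      have hpowmk : ∀ (x : GL (Fin n) ℚ), x ∈ R → (x : Matrix (Fin n) (Fin n) ℚ) - 1 ∈ Jp R i →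
          ∀ m : ℕ, ((x ^ m : GL (Fin n) ℚ) : Matrix (Fin n) (Fin n) ℚ) - 1 ∈ Jp R i ∧
          (Jp R (i + 1)).mkQ (((x ^ m : GL (Fin n) ℚ) : Matrix (Fin n) (Fin n) ℚ) - 1) =
          m • (Jp R (i + 1)).mkQ ((x : Matrix (Fin n) (Fin n) ℚ) - 1) := by
        intro x hxR hx m
        induction m with
        | zero => simp
        | succ m ihm =>
          rw [pow_succ]
          refine ⟨hmul' _ _ ihm.1 hx, ?_⟩
          rw [hmk _ _ ihm.1 hx, ihm.2, succ_nsmul]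
      obtain ⟨Fw, hFw1, hFw2⟩ := Pool.Agent.CP.finite_mod K t hG.pos
      choose g hg using fun f : {f // f ∈ Fw} => hFw1 f.1 f.2
      refine ⟨(Fw.attach ×ˢ F').image (fun q => g q.1 * q.2), ?_, ?_⟩
      · intro f hf
        obtain ⟨⟨a, b⟩, hab, rfl⟩ := Finset.mem_image.1 hf
        exact R.mul_mem (hg a).1 (hF'R b (Finset.mem_product.1 hab).2)
      · intro x hxR hx
        obtain ⟨f, hf, l', hl', hl⟩ := hFw2 _ ⟨x, hxR, hx, rfl⟩
        obtain ⟨y, hyR, hy, rfl⟩ := hl'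
        obtain ⟨hgR, hgJ, hgf⟩ := hg ⟨f, hf⟩
        have hyp := hpowmk y hyR hy t
        -- z := g⁻¹ x y^{-t}
        set a := g ⟨f, hf⟩ with ha
        have hz : ((a⁻¹ * (x * (y ^ t)⁻¹) : GL (Fin n) ℚ) : Matrix (Fin n) (Fin n) ℚ) - 1 ∈
            Jp R (i + 1) := by
          have h1 : (x : Matrix (Fin n) (Fin n) ℚ) - 1 ∈ Jp R i := hx
          have h2 := hinv (y ^ t) (R.pow_mem hyR t) hyp.1
          have h3 := hmul' x (y ^ t)⁻¹ hx h2
          have h4 := hinv a hgR hgJ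
          have e1 := hmk (y ^ t) (y ^ t)⁻¹ hyp.1 h2
          rw [mul_inv_cancel, Units.val_one, sub_self, map_zero] at e1
          have e2 := hmk a a⁻¹ hgJ h4
          rw [mul_inv_cancel, Units.val_one, sub_self, map_zero] at e2
          have e3 := hmk a⁻¹ (x * (y ^ t)⁻¹) h4 h3
          have e4 := hmk x (y ^ t)⁻¹ hx h2
          rw [← Submodule.Quotient.mk_eq_zero, ← Submodule.mkQ_apply, e3, e4]
          simp only at hgf hl
          rw [eq_neg_of_add_eq_zero_right e1.symm, eq_neg_of_add_eq_zero_right e2.symm, hl,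
            hyp.2, ← hgf]
          abel
        have hzR : a⁻¹ * (x * (y ^ t)⁻¹) ∈ R :=
          R.mul_mem (R.inv_mem hgR) (R.mul_mem hxR (R.inv_mem (R.pow_mem hyR t)))
        obtain ⟨b, hb, hb'⟩ := hF' _ hzR hz
        refine ⟨a * b, Finset.mem_image.2 ⟨(⟨f, hf⟩, b), Finset.mem_product.2
          ⟨Finset.mem_attach _ _, hb⟩, rfl⟩, ?_⟩
        have h5 : (a * b)⁻¹ * x = (b⁻¹ * (a⁻¹ * (x * (y ^ t)⁻¹))) * y ^ t := by group
        rw [h5]
        exact Subgroup.mul_mem _ hb' (expG_pow hc hN hG hyR)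
  obtain ⟨F, hF1, hF2⟩ := key (c - 1) 0 (by omega)
  exact ⟨F, hF1, fun x hx => hF2 x hx (sub_one_mem hx)⟩

end Pool.Agent.NP
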