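import Pool.Agent.Helper39.CJ.Words
import Pool.Agent.Helper39.CJ.Kolchin

/-!
# Logarithmic lattices: definitions
-/

set_option autoImplicit false

namespace Pool.Agent.NP

open Finset Pool.Agent.LIN

variable {n : ℕ}

/-- Truncated logarithm. -/
noncomputable def Lg (c : ℕ) (x : Matrix (Fin n) (Fin n) ℚ) : Matrix (Fin n) (Fin n) ℚ :=
  ∑ k ∈ range c, ((-1 : ℚ) ^ (k + 1) * (k : ℚ)⁻¹) • (x - 1) ^ k

/-- all products of `c` factors `x - 1`, `x ∈ R`, vanish -/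
def SU (R : Subgroup (GL (Fin n) ℚ)) (c : ℕ) : Prop :=
  ∀ l : List (GL (Fin n) ℚ), l.length = c → (∀ x ∈ l, x ∈ R) →
    (l.map (fun x : GL (Fin n) ℚ => (x : Matrix (Fin n) (Fin n) ℚ) - 1)).prod = 0

/-- the additive group spanned by `t log x`, `x ∈ R` -/
noncomputable def LL (R : Subgroup (GL (Fin n) ℚ)) (c t : ℕ) :
    AddSubgroup (Matrix (Fin n) (Fin n) ℚ) :=
  AddSubgroup.closure {X | ∃ x ∈ R, X = (t : ℤ) • Lg c (x : Matrix (Fin n) (Fin n) ℚ)}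

/-- the properties of the logarithmic lattice which are used -/
structure Good (R : Subgroup (GL (Fin n) ℚ)) (c t : ℕ) : Prop where
  pos : 0 < t
  exp_mem : ∀ X ∈ LL R c t, ∃ x ∈ R, (x : Matrix (Fin n) (Fin n) ℚ) = E c X
  mul : ∀ X ∈ LL R c t, ∀ Y ∈ LL R c t, ∃ Z ∈ LL R c t, E c X * E c Y = E c Z
  pow : ∀ x ∈ R, E c ((t : ℤ) • Lg c (x : Matrix (Fin n) (Fin n) ℚ)) =
    ((x ^ t : GL (Fin n) ℚ) : Matrix (Fin n) (Fin n) ℚ)

end Pool.Agent.NP
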