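import Pool.Agent.Helper39.CJ.RE

/-!
# Duality for linear systems over ℤ[1/s]
-/

set_option autoImplicit false

namespace Pool.Agent.LIN

open Finset

/-- `q ∈ ℤ[1/s]`. -/
def InR (s : ℕ) (q : ℚ) : Prop := ∃ j : ℕ, ∃ z : ℤ, (s : ℚ) ^ j * q = z

lemma InR.int (s : ℕ) (z : ℤ) : InR s (z : ℚ) := ⟨0, z, by simp⟩

lemma InR.zero (s : ℕ) : InR s 0 := by simpa using InR.int s 0

lemma InR.add {s : ℕ} {q q' : ℚ} (h : InR s q) (h' : InR s q') : InR s (q + q') := by
  obtain ⟨j, z, hz⟩ := h
  obtain ⟨j', z', hz'⟩ := h'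
  refine ⟨j + j', (s : ℤ) ^ j' * z + (s : ℤ) ^ j * z', ?_⟩
  push_cast
  rw [← hz, ← hz', pow_add]
  ring

lemma InR.mul {s : ℕ} {q q' : ℚ} (h : InR s q) (h' : InR s q') : InR s (q * q') := by
  obtain ⟨j, z, hz⟩ := h
  obtain ⟨j', z', hz'⟩ := h'
  refine ⟨j + j', z * z', ?_⟩
  push_cast
  rw [← hz, ← hz', pow_add]
  ring

lemma InR.sum {s : ℕ} {ι : Type*} (t : Finset ι) {q : ι → ℚ} (h : ∀ i ∈ t, InR s (q i)) :
    InR s (∑ i ∈ t, q i) := by
  classical
  induction t using Finset.induction_on with
  | empty => simpa using InR.zero s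
  | insert i t hi ih =>
    rw [Finset.sum_insert hi]
    exact (h i (Finset.mem_insert_self _ _)).add
      (ih (fun j hj => h j (Finset.mem_insert_of_mem hj)))

lemma notInR_iff {s : ℕ} (hs : 0 < s) (q : ℚ) :
    ¬ InR s q ↔ ∃ d : ℕ, 1 < d ∧ Nat.Coprime d s ∧ d ∣ q.den := by
  constructor
  · intro h
    by_contra hcon
    push Not at hcon
    apply h
    have h1 : ∀ p : ℕ, p.Prime → p ∣ q.den → p ∣ s := by
      intro p hp hpd
      by_contra hps
      exact hcon p hp.one_lt ((Nat.Prime.coprime_iff_not_dvd hp).2 hps) hpd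
    have h2 : q.den ∣ s ^ q.den := by
      rw [← Nat.factorization_le_iff_dvd q.den_nz (pow_ne_zero _ hs.ne')]
      intro p
      rw [Nat.factorization_pow, Finsupp.smul_apply, smul_eq_mul]
      by_cases hp : p.Prime
      · by_cases hpd : p ∣ q.den
        · have h3 : 1 ≤ s.factorization p :=
            (Nat.Prime.dvd_iff_one_le_factorization hp hs.ne').1 (h1 p hp hpd)
          have h4 : q.den.factorization p < q.den := Nat.factorization_lt p q.den_nz
          nlinarith
        · rw [Nat.factorization_eq_zero_of_not_dvd hpd]; exact Nat.zero_le _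
      · rw [Nat.factorization_eq_zero_of_not_prime _ hp]; exact Nat.zero_le _
    obtain ⟨c, hc⟩ := h2
    refine ⟨q.den, c * q.num, ?_⟩
    have h5 : (s : ℚ) ^ q.den = q.den * c := by exact_mod_cast hc
    have h6 : (q.den : ℚ) ≠ 0 := by exact_mod_cast q.den_nz
    rw [h5]
    push_cast
    have h7 : (q.den : ℚ) * q = q.num := by
      rw [mul_comm]; exact Rat.mul_den_eq_num q
    calc (q.den : ℚ) * c * q = c * ((q.den : ℚ) * q) := by ring
      _ = _ := by rw [h7]
  · rintro ⟨d, hd1, hds, hdd⟩ ⟨j, z, hz⟩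
    have h1 : (s : ℤ) ^ j * q.num = z * q.den := by
      have h7 : (q.den : ℚ) * q = q.num := by
        rw [mul_comm]; exact Rat.mul_den_eq_num q
      have : ((s : ℚ) ^ j * q.num) = z * q.den := by
        rw [← h7, ← hz]; ring
      exact_mod_cast this
    have h2 : (q.den : ℤ) ∣ (s : ℤ) ^ j * q.num := ⟨z, by rw [h1]; ring⟩
    have h3 : IsCoprime (q.den : ℤ) q.num := by
      rw [Int.isCoprime_iff_nat_coprime]
      simpa [Nat.coprime_comm] using q.reduced
    have h4 : (q.den : ℤ) ∣ (s : ℤ) ^ j := h3.dvd_of_dvd_mul_right h2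
    have h5 : q.den ∣ s ^ j := by exact_mod_cast h4
    have h6 : d ∣ s ^ j := hdd.trans h5
    have h7 : Nat.Coprime d (s ^ j) := Nat.Coprime.pow_right j hds
    have h8 := Nat.eq_one_of_self_dvd_coprime d (s ^ j) h7 h6
    omega
  where
  Nat.eq_one_of_self_dvd_coprime (d n : ℕ) (h : Nat.Coprime d n) (h' : d ∣ n) : d = 1 := by
    have := Nat.dvd_gcd (dvd_refl d) h'
    rw [Nat.Coprime] at h
    rw [h] at this
    exact Nat.dvd_one.1 this

/-- Common denominators. -/
lemma exists_den {ι : Type*} [Fintype ι] (q : ι → ℚ) :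
    ∃ d : ℕ, 0 < d ∧ ∀ i, ∃ z : ℤ, (d : ℚ) * q i = z := by
  classical
  refine ⟨∏ i, (q i).den, Finset.prod_pos (fun i _ => (q i).pos), fun i => ?_⟩
  refine ⟨(∏ j ∈ Finset.univ.erase i, (q j).den : ℕ) * (q i).num, ?_⟩
  have h7 : ((q i).den : ℚ) * q i = (q i).num := by
    rw [mul_comm]; exact Rat.mul_den_eq_num _
  rw [← Finset.mul_prod_erase _ _ (Finset.mem_univ i)]
  push_cast
  rw [← h7]
  ring

lemma exists_den_pow {s : ℕ} {ι : Type*} [Fintype ι] (q : ι → ℚ) (h : ∀ i, InR s (q i)) :
    ∃ j : ℕ, ∀ i, ∃ z : ℤ, (s : ℚ) ^ j * q i = z := by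
  classical
  have h1 : ∀ t : Finset ι, ∃ j : ℕ, ∀ i ∈ t, ∃ z : ℤ, (s : ℚ) ^ j * q i = z := by
    intro t
    induction t using Finset.induction_on with
    | empty => exact ⟨0, by simp⟩
    | insert i t hi ih =>
      obtain ⟨j, hj⟩ := ih
      obtain ⟨j', z', hz'⟩ := h i
      refine ⟨j + j', fun k hk => ?_⟩
      rcases Finset.mem_insert.1 hk with rfl | hk
      · exact ⟨(s : ℤ) ^ j * z', by push_cast; rw [← hz', pow_add]; ring⟩
      · obtain ⟨z, hz⟩ := hj k hk
        exact ⟨(s : ℤ) ^ j' * z, by push_cast; rw [← hz, pow_add]; ring⟩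
  obtain ⟨j, hj⟩ := h1 Finset.univ
  exact ⟨j, fun i => hj i (Finset.mem_univ i)⟩

theorem duality {m N : ℕ} {s : ℕ} (hs : 0 < s) (M : Matrix (Fin m) (Fin N) ℚ) (b : Fin m → ℚ) :
    (¬ ∃ x : Fin N → ℚ, (∀ k, InR s (x k)) ∧ M.mulVec x = b) ↔
      ∃ z : Fin m → ℚ, (∀ k, InR s (∑ i, z i * M i k)) ∧ ¬ InR s (∑ i, z i * b i) := by
  classical
  constructor
  swap
  · rintro ⟨z, hz1, hz2⟩ ⟨x, hx1, hx2⟩
    apply hz2
    have h : ∑ i, z i * b i = ∑ k, (∑ i, z i * M i k) * x k := by
      rw [← hx2]
      simp only [Matrix.mulVec, dotProduct, Finset.mul_sum, Finset.sum_mul]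
      rw [Finset.sum_comm]
      refine Finset.sum_congr rfl (fun k _ => Finset.sum_congr rfl (fun i _ => ?_))
      ring
    rw [h]
    exact InR.sum _ (fun k _ => (hz1 k).mul (hx1 k))
  · intro hno
    by_contra hcon
    push Not at hcon
    apply hno
    -- integral matrix
    obtain ⟨d, hd, hdz⟩ := exists_den (fun q : Fin m × Fin N => M q.1 q.2)
    choose M' hM' using hdz
    have hd' : (d : ℚ) ≠ 0 := by exact_mod_cast hd.ne'
    let A : Matrix (Fin m) (Fin N) ℤ := Matrix.of (fun i k => M' (i, k))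
    have hA : ∀ i k, (A i k : ℚ) = d * M i k := fun i k => (hM' (i, k)).symm
    let P : Submodule ℤ (Fin m → ℤ) := LinearMap.range A.mulVecLin
    obtain ⟨n, snf⟩ := Submodule.smithNormalForm (Pi.basisFun ℤ (Fin m)) P
    let c : Fin m → Fin m → ℤ := fun k j => snf.bM.repr (Pi.single j 1) k
    have hc : ∀ (v : Fin m → ℤ) (k : Fin m), snf.bM.repr v k = ∑ j, v j * c k j := by
      intro v k
      have h1 : v = ∑ j, v j • (Pi.single j 1 : Fin m → ℤ) := by
        funext i
        simp [Finset.sum_apply, Pi.single_apply]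
      conv_lhs => rw [h1]
      rw [map_sum, Finsupp.finsetSum_apply]
      refine Finset.sum_congr rfl (fun j _ => ?_)
      rw [map_smul, Finsupp.smul_apply, smul_eq_mul]
    -- coordinates of d • b
    let β : Fin m → ℚ := fun k => ∑ j, (d * b j) * (c k j : ℚ)
    have hβ : ∀ i, d * b i = ∑ k, β k * (snf.bM k i : ℚ) := by
      intro i
      have h1 : ∀ j, ((Pi.single j 1 : Fin m → ℤ) i : ℤ) = ∑ k, c k j * snf.bM k i := by
        intro j
        have h2 := snf.bM.sum_repr (Pi.single j 1)
        have h3 := congrFun h2 i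
        rw [Finset.sum_apply] at h3
        rw [← h3]
        rfl
      have h4 : ∑ k, β k * (snf.bM k i : ℚ) =
          ∑ j, (d * b j) * (((Pi.single j 1 : Fin m → ℤ) i : ℤ) : ℚ) := by
        simp only [β, Finset.sum_mul]
        rw [Finset.sum_comm]
        refine Finset.sum_congr rfl (fun j _ => ?_)
        rw [h1 j]
        push_cast
        rw [Finset.mul_sum]
        refine Finset.sum_congr rfl (fun k _ => ?_)
        ring
      rw [h4, Finset.sum_eq_single i]
      · simp
      · intro j _ hj; simp [Pi.single_apply, Ne.symm hj]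
      · simp
    have hcol : ∀ k, (fun i => A i k) ∈ P := by
      intro k
      refine ⟨Pi.single k 1, ?_⟩
      funext i
      simp [Matrix.mulVecLin_apply]
    -- outside the range
    have hout : ∀ k, k ∉ Set.range snf.f → β k = 0 := by
      intro k hk
      by_contra hne
      set lam : ℚ := 1 / (((s : ℚ) + 1) * β k) with hlam
      have hz1 : ∀ l, InR s (∑ i, (lam * d * c k i) * M i l) := by
        intro l
        have h1 : snf.bM.repr (fun i => A i l) k = 0 :=
          snf.repr_eq_zero_of_notMem_range ⟨_, hcol l⟩ hk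
        rw [hc] at h1
        have h2 : ∑ i, (lam * d * c k i) * M i l =
            lam * ((∑ i, A i l * c k i : ℤ) : ℚ) := by
          push_cast
          rw [Finset.mul_sum]
          refine Finset.sum_congr rfl (fun i _ => ?_)
          rw [hA]; ring
        rw [h2, h1]
        simpa using InR.zero s
      have hz2 := hcon _ hz1
      have h3 : ∑ i, (lam * d * c k i) * b i = 1 / ((s : ℚ) + 1) := by
        have : ∑ i, (lam * d * c k i) * b i = lam * β k := by
          simp only [β]
          rw [Finset.mul_sum]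
          refine Finset.sum_congr rfl (fun i _ => ?_)
          ring
        rw [this, hlam]
        have hs1 : (s : ℚ) + 1 ≠ 0 := by positivity
        field_simp
      rw [h3] at hz2
      refine absurd hz2 ((notInR_iff hs _).2 ⟨s + 1, by omega, ?_, ?_⟩)
      · simp
      · have h4 : (1 / ((s : ℚ) + 1)) = ((1 : ℤ) : ℚ) / (((s + 1 : ℕ) : ℤ) : ℚ) := by
          push_cast; rfl
        have h5 := Rat.den_div_eq_of_coprime (a := 1) (b := ((s + 1 : ℕ) : ℤ))
          (by positivity) (by simp)
        rw [← h4] at h5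
        have h6 : (1 / ((s : ℚ) + 1)).den = s + 1 := by exact_mod_cast h5
        rw [h6]
    -- inside the range
    have ha0 : ∀ i, snf.a i ≠ 0 := by
      intro i h0
      have h1 := snf.snf i
      rw [h0, zero_smul] at h1
      exact snf.bN.ne_zero i (Subtype.ext h1)
    have hin : ∀ i, InR s (β (snf.f i) / snf.a i) := by
      intro i
      have ha : (snf.a i : ℚ) ≠ 0 := by exact_mod_cast ha0 i
      have hz1 : ∀ l, InR s (∑ j, (d * c (snf.f i) j / snf.a i) * M j l) := by
        intro l
        have h1 : snf.bM.repr (fun i => A i l) (snf.f i) =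
            snf.bN.repr (snf.a i • ⟨_, hcol l⟩) i :=
          snf.repr_apply_embedding_eq_repr_smul (m := ⟨_, hcol l⟩) (i := i)
        rw [hc, map_smul, Finsupp.smul_apply, smul_eq_mul] at h1
        have h2 : ∑ j, (d * c (snf.f i) j / snf.a i) * M j l =
            ((snf.bN.repr ⟨_, hcol l⟩ i : ℤ) : ℚ) := by
          have h3 := congrArg (fun z : ℤ => (z : ℚ)) h1
          simp only [Int.cast_mul, Int.cast_sum] at h3
          have h4 : ∑ j, (d * c (snf.f i) j / snf.a i) * M j l =
              (∑ j, (A j l : ℚ) * c (snf.f i) j) / snf.a i := by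
            rw [Finset.sum_div]
            refine Finset.sum_congr rfl (fun j _ => ?_)
            rw [hA]; ring
          rw [h4, h3]
          field_simp
        rw [h2]
        exact InR.int s _
      have hz2 := hcon _ hz1
      have h3 : ∑ j, (d * c (snf.f i) j / snf.a i) * b j = β (snf.f i) / snf.a i := by
        simp only [β]
        rw [Finset.sum_div]
        refine Finset.sum_congr rfl (fun j _ => ?_)
        ring
      rwa [h3] at hz2
    -- construct the solution
    have hpre : ∀ i, ∃ y : Fin N → ℤ, A.mulVec y = (snf.bN i : Fin m → ℤ) := by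
      intro i
      obtain ⟨y, hy⟩ := (snf.bN i).2
      exact ⟨y, by simpa [Matrix.mulVecLin_apply] using hy⟩
    choose y hy using hpre
    refine ⟨fun k => ∑ i, (β (snf.f i) / snf.a i) * (y i k : ℚ), fun k => ?_, ?_⟩
    · exact InR.sum _ (fun i _ => (hin i).mul (InR.int s _))
    · funext j
      apply mul_left_cancel₀ hd'
      rw [hβ j]
      have h1 : ∑ k, β k * (snf.bM k j : ℚ) = ∑ i, β (snf.f i) * (snf.bM (snf.f i) j : ℚ) := by
        rw [← Finset.sum_image (s := Finset.univ) (g := snf.f)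
          (f := fun k => β k * (snf.bM k j : ℚ)) (fun a _ b _ h => snf.f.injective h)]
        symm
        apply Finset.sum_subset (Finset.subset_univ _)
        intro k _ hk
        have : k ∉ Set.range snf.f := by
          rintro ⟨i, rfl⟩
          exact hk (Finset.mem_image_of_mem _ (Finset.mem_univ i))
        rw [hout k this, zero_mul]
      rw [h1]
      simp only [Matrix.mulVec, dotProduct, Finset.mul_sum]
      rw [Finset.sum_comm]
      refine Finset.sum_congr rfl (fun i _ => ?_)
      have h2 : ((snf.bN i : Fin m → ℤ) j : ℚ) = ∑ k, (A j k : ℚ) * (y i k : ℚ) := by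
        rw [← hy i]
        simp [Matrix.mulVec, dotProduct]
      have h3 : ((snf.bN i : Fin m → ℤ) j : ℚ) = (snf.a i : ℚ) * (snf.bM (snf.f i) j : ℚ) := by
        have := congrFun (snf.snf i) j
        simp only [Pi.smul_apply, smul_eq_mul] at this
        rw [this]; push_cast; rfl
      have ha : (snf.a i : ℚ) ≠ 0 := by exact_mod_cast ha0 i
      have h4 : β (snf.f i) * (snf.bM (snf.f i) j : ℚ) =
          (β (snf.f i) / snf.a i) * ((snf.bN i : Fin m → ℤ) j : ℚ) := by
        rw [h3]; field_simp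
      rw [h4, h2, Finset.mul_sum]
      refine Finset.sum_congr rfl (fun k _ => ?_)
      rw [hA]; ring

end Pool.Agent.LIN
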