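import Pool.Agent.Helper39.CJ.LinD
import Pool.Agent.Helper39.CJ.LinZ

/-!
# Linear systems over r.e. subgroups of ℤ[1/s]^N are decidable
-/

set_option autoImplicit false

namespace Pool.Agent.LIN

open Finset

variable {N : ℕ}

/-- `l` (in `L`) is not in `pL`, in terms of coordinates. -/
def NotIn (p : ℕ) (L : AddSubgroup (Fin N → ℚ)) {r : ℕ} (e : Fin r → Fin N → ℚ)
    (l : Fin N → ℚ) : Prop :=
  ∃ c : Fin r → ℤ, ∃ l' : Fin N → ℚ, l' ∈ L ∧ l = ∑ i, c i • e i + (p : ℤ) • l' ∧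
    ∃ i, ¬ (p : ℤ) ∣ c i

lemma notIn_iff {p : ℕ} {L : AddSubgroup (Fin N → ℚ)} {r : ℕ} {e : Fin r → Fin N → ℚ}
    (heL : ∀ i, e i ∈ L) (he : Indep p L e) (hs : Spans p L e) {l : Fin N → ℚ} (hl : l ∈ L) :
    NotIn p L e l ↔ ¬ ∃ l' ∈ L, l = (p : ℤ) • l' := by
  constructor
  · rintro ⟨c, l', hl', h, i, hi⟩ ⟨l'', hl'', h'⟩
    apply hi
    refine he c ⟨l'' - l', L.sub_mem hl'' hl', ?_⟩ i
    rw [smul_sub, ← h', h]; abel
  · intro h
    obtain ⟨c, l', hl', hc⟩ := hs l hl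
    refine ⟨c, l', hl', hc, ?_⟩
    by_contra hcon
    push Not at hcon
    choose d hd using hcon
    apply h
    refine ⟨∑ i, d i • e i + l', L.add_mem (sum_mem heL d) hl', ?_⟩
    rw [hc, smul_add, Finset.smul_sum]
    congr 1
    refine Finset.sum_congr rfl (fun i _ => ?_)
    rw [smul_smul, ← hd i]

/-- Existence of generalised inverses. -/
lemma exists_ginv {m N : ℕ} (M : Matrix (Fin m) (Fin N) ℚ) :
    ∃ X : Matrix (Fin N) (Fin m) ℚ, M * X * M = M := by
  classical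
  let f : (Fin N → ℚ) →ₗ[ℚ] (Fin m → ℚ) := M.mulVecLin
  obtain ⟨g0, hg0⟩ := f.rangeRestrict.exists_rightInverse_of_surjective
    (LinearMap.range_rangeRestrict f)
  obtain ⟨g, hg⟩ := LinearMap.exists_extend g0
  refine ⟨LinearMap.toMatrix' g, ?_⟩
  have h1 : M = LinearMap.toMatrix' f := by
    change M = LinearMap.toMatrix' M.mulVecLin
    rw [← Matrix.toLin'_apply', LinearMap.toMatrix'_toLin']
  rw [h1, ← LinearMap.toMatrix'_comp, ← LinearMap.toMatrix'_comp]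
  refine congrArg _ (LinearMap.ext (fun v => ?_))
  have h2 : g (f v) = g0 (f.rangeRestrict v) := by
    have := congrArg (fun φ => φ (f.rangeRestrict v)) hg
    simpa using this
  have h3 : f (g0 (f.rangeRestrict v)) = f v := by
    have := congrArg (fun φ => ((φ (f.rangeRestrict v)) : Fin m → ℚ)) hg0
    simpa using this
  simp only [LinearMap.comp_apply]
  rw [h2, h3]

lemma mulVec_zsmul {m N : ℕ} (M : Matrix (Fin m) (Fin N) ℚ) (n : ℤ) (v : Fin N → ℚ) :
    M.mulVec (n • v) = n • M.mulVec v := by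
  have := map_zsmul M.mulVecLin n v
  simpa using this

lemma c_zsmulVec {α : Type*} [Primcodable α] {n : α → ℤ} {v : α → Fin N → ℚ}
    (hn : Computable n) (hv : Computable v) : Computable (fun a => n a • v a) := by
  refine CQ.c_pi (fun i => ?_)
  have : Computable (fun a => (n a : ℚ) * v a i) := CQ.c_qmul (CQ.c_intCast hn) (CQ.c_app hv i)
  exact this.of_eq (fun a => by simp)

lemma c_vsum {α ι : Type*} [Primcodable α] [Fintype ι] {v : ι → α → Fin N → ℚ}
    (hv : ∀ k, Computable (v k)) : Computable (fun a => ∑ k, v k a) := by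
  refine CQ.c_pi (fun i => ?_)
  have : Computable (fun a => ∑ k, v k a i) := CQ.c_sum (fun k => CQ.c_app (hv k) i)
  exact this.of_eq (fun a => by rw [Finset.sum_apply])

lemma re_notDvd {α : Type*} [Primcodable α] (p : ℕ) {c : α → ℤ} (hc : Computable c) :
    REPred (fun a => ¬ (p : ℤ) ∣ c a) := by
  have h1 : Primrec (fun z : ℤ => (z.natAbs % p : ℕ)) :=
    Primrec.nat_mod.comp (CQ.pr_natAbs Primrec.id) (Primrec.const p)
  have h2 : REPred (fun a => (c a).natAbs % p ≠ 0) :=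
    CQ.re_ne (h1.to_comp.comp hc) (Computable.const 0)
  refine h2.of_eq (fun a => ?_)
  rw [Int.natCast_dvd, Nat.dvd_iff_mod_eq_zero]

lemma re_notIn (p : ℕ) {L : AddSubgroup (Fin N → ℚ)} (hre : REPred (fun v : Fin N → ℚ => v ∈ L))
    {r : ℕ} (e : Fin r → Fin N → ℚ) : REPred (fun l : Fin N → ℚ => NotIn p L e l) := by
  unfold NotIn
  refine CQ.re_exists (β := Fin r → ℤ) (CQ.re_exists (β := Fin N → ℚ) ?_)
  refine CQ.re_and (CQ.re_comp hre Computable.snd) (CQ.re_and (CQ.re_eq ?_ ?_) ?_)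
  · exact Computable.fst.comp Computable.fst
  · refine CQ.c_vadd (c_vsum (fun i => c_zsmulVec ?_ (Computable.const _)))
      (c_zsmulVec (Computable.const _) Computable.snd)
    exact CQ.c_app (Computable.snd.comp Computable.fst) i
  · exact CQ.re_exists_fintype (fun i => re_notDvd p
      (CQ.c_app (Computable.snd.comp Computable.fst) i))

/-- Reduction of integer coefficients modulo `p`. -/
lemma reduce_coeffs {p : ℕ} (hp : p.Prime) {L : AddSubgroup (Fin N → ℚ)} {t : ℕ}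
    {κ : Fin t → Fin N → ℚ} (hκ : ∀ i, κ i ∈ L) (a : Fin t → ℤ) :
    ∃ a' : Fin t → Fin p, (∀ i, (p : ℤ) ∣ a i - ((a' i : ℕ) : ℤ)) ∧
      ∃ l ∈ L, ∑ i, a i • κ i = ∑ i, (((a' i : ℕ) : ℤ)) • κ i + (p : ℤ) • l := by
  have hp0 : (p : ℤ) ≠ 0 := by exact_mod_cast hp.ne_zero
  have h1 : ∀ i, ∃ a' : Fin p, (p : ℤ) ∣ a i - ((a' : ℕ) : ℤ) := by
    intro i
    have h2 : 0 ≤ a i % p := Int.emod_nonneg _ hp0
    have h3 : a i % p < p := Int.emod_lt_of_pos _ (by exact_mod_cast hp.pos)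
    refine ⟨⟨(a i % p).toNat, by omega⟩, ?_⟩
    have h4 : (((a i % p).toNat : ℕ) : ℤ) = a i % p := Int.toNat_of_nonneg h2
    simp only [h4]
    exact Int.dvd_self_sub_emod
  choose a' ha' using h1
  refine ⟨a', ha', ?_⟩
  choose d hd using ha'
  refine ⟨∑ i, d i • κ i, sum_mem hκ d, ?_⟩
  rw [Finset.smul_sum, ← Finset.sum_add_distrib]
  refine Finset.sum_congr rfl (fun i _ => ?_)
  rw [smul_smul, ← add_smul]
  congr 1
  have := hd i
  linarith

section prime

variable {p : ℕ} [hp : Fact p.Prime] {L : AddSubgroup (Fin N → ℚ)} {r : ℕ}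
  {e : Fin r → Fin N → ℚ}

/-- The certificate at the prime `p`. -/
def Cert (L : AddSubgroup (Fin N → ℚ)) (e : Fin r → Fin N → ℚ) (X : Fin N → Fin r → ℤ_[p])
    (t : ℕ) {m : ℕ} (q : Matrix (Fin m) (Fin N) ℚ × (Fin m → ℚ)) : Prop :=
  ∃ Y : Matrix (Fin N) (Fin m) ℚ, ∃ κ : Fin t → Fin N → ℚ, ∃ l0 : Fin N → ℚ, ∃ k : ℤ,
    q.1 * Y * q.1 = q.1 ∧ DCond X (t + 1) (1 - Y * q.1) ∧
    (∀ i, κ i ∈ L ∧ q.1.mulVec (κ i) = 0) ∧ l0 ∈ L ∧ q.1.mulVec l0 = ((p : ℤ) * k) • q.2 ∧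
    (∀ a : Fin t → Fin p, (∃ i, (a i : ℕ) ≠ 0) →
      NotIn p L e (∑ i, ((a i : ℕ) : ℤ) • κ i)) ∧
    (∀ a : Fin t → Fin p, NotIn p L e (l0 - ∑ i, ((a i : ℕ) : ℤ) • κ i))

lemma re_cert (hre : REPred (fun v : Fin N → ℚ => v ∈ L)) (X : Fin N → Fin r → ℤ_[p])
    (t : ℕ) {m : ℕ} :
    REPred (fun q : Matrix (Fin m) (Fin N) ℚ × (Fin m → ℚ) => Cert L e X t q) := by
  unfold Cert
  refine CQ.re_exists (β := Matrix (Fin N) (Fin m) ℚ) (CQ.re_exists (β := Fin t → Fin N → ℚ)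
    (CQ.re_exists (β := Fin N → ℚ) (CQ.re_exists (β := ℤ) ?_)))
  -- projections
  have cq1 : Computable (fun z : ((((Matrix (Fin m) (Fin N) ℚ × (Fin m → ℚ)) ×
      Matrix (Fin N) (Fin m) ℚ) × (Fin t → Fin N → ℚ)) × (Fin N → ℚ)) × ℤ => z.1.1.1.1.1) :=
    Computable.fst.comp (Computable.fst.comp (Computable.fst.comp
      (Computable.fst.comp Computable.fst)))
  have cq2 : Computable (fun z : ((((Matrix (Fin m) (Fin N) ℚ × (Fin m → ℚ)) ×
      Matrix (Fin N) (Fin m) ℚ) × (Fin t → Fin N → ℚ)) × (Fin N → ℚ)) × ℤ => z.1.1.1.1.2) :=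
    Computable.snd.comp (Computable.fst.comp (Computable.fst.comp
      (Computable.fst.comp Computable.fst)))
  have cY : Computable (fun z : ((((Matrix (Fin m) (Fin N) ℚ × (Fin m → ℚ)) ×
      Matrix (Fin N) (Fin m) ℚ) × (Fin t → Fin N → ℚ)) × (Fin N → ℚ)) × ℤ => z.1.1.1.2) :=
    Computable.snd.comp (Computable.fst.comp (Computable.fst.comp Computable.fst))
  have cκ : Computable (fun z : ((((Matrix (Fin m) (Fin N) ℚ × (Fin m → ℚ)) ×
      Matrix (Fin N) (Fin m) ℚ) × (Fin t → Fin N → ℚ)) × (Fin N → ℚ)) × ℤ => z.1.1.2) :=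
    Computable.snd.comp (Computable.fst.comp Computable.fst)
  have cl0 : Computable (fun z : ((((Matrix (Fin m) (Fin N) ℚ × (Fin m → ℚ)) ×
      Matrix (Fin N) (Fin m) ℚ) × (Fin t → Fin N → ℚ)) × (Fin N → ℚ)) × ℤ => z.1.2) :=
    Computable.snd.comp Computable.fst
  have ck : Computable (fun z : ((((Matrix (Fin m) (Fin N) ℚ × (Fin m → ℚ)) ×
      Matrix (Fin N) (Fin m) ℚ) × (Fin t → Fin N → ℚ)) × (Fin N → ℚ)) × ℤ => z.2) :=
    Computable.snd
  have hnot := re_notIn p hre e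
  refine CQ.re_and ?_ (CQ.re_and ?_ (CQ.re_and ?_ (CQ.re_and ?_ (CQ.re_and ?_
    (CQ.re_and ?_ ?_)))))
  · exact CQ.re_eq (CQ.c_mmul (CQ.c_mmul cq1 cY) cq1) cq1
  · exact CQ.re_comp (DCond.computable X (t + 1)) (CQ.c_msub (Computable.const 1) (CQ.c_mmul cY cq1))
  · refine CQ.re_forall_fintype (fun i => CQ.re_and ?_ ?_)
    · exact CQ.re_comp hre (CQ.c_app cκ i)
    · exact CQ.re_eq (CQ.c_mulVec cq1 (CQ.c_app cκ i)) (Computable.const 0)
  · exact CQ.re_comp hre cl0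
  · refine CQ.re_eq (CQ.c_mulVec cq1 cl0) (c_zsmulVec ?_ cq2)
    have hmul : Primrec (fun k : ℤ => (p : ℤ) * k) := CQ.pr_mul (Primrec.const _) Primrec.id
    exact hmul.to_comp.comp ck
  · refine CQ.re_forall_fintype (fun a => ?_)
    by_cases ha : ∃ i, (a i : ℕ) ≠ 0
    · refine (CQ.re_comp hnot (f := fun z : ((((Matrix (Fin m) (Fin N) ℚ × (Fin m → ℚ)) ×
        Matrix (Fin N) (Fin m) ℚ) × (Fin t → Fin N → ℚ)) × (Fin N → ℚ)) × ℤ =>
          ∑ i, ((a i : ℕ) : ℤ) • z.1.1.2 i) ?_).of_eq (fun z => ⟨fun h _ => h, fun h => h ha⟩)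
      exact c_vsum (fun i => c_zsmulVec (Computable.const _) (CQ.c_app cκ i))
    · exact CQ.re_true.of_eq (fun z => ⟨fun _ h => absurd h ha, fun _ => trivial⟩)
  · refine CQ.re_forall_fintype (fun a => ?_)
    refine CQ.re_comp hnot (f := fun z : ((((Matrix (Fin m) (Fin N) ℚ × (Fin m → ℚ)) ×
        Matrix (Fin N) (Fin m) ℚ) × (Fin t → Fin N → ℚ)) × (Fin N → ℚ)) × ℤ =>
          z.1.2 - ∑ i, ((a i : ℕ) : ℤ) • z.1.1.2 i) ?_
    exact CQ.c_vsub cl0 (c_vsum (fun i => c_zsmulVec (Computable.const _) (CQ.c_app cκ i)))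

lemma cert_sound (heL : ∀ i, e i ∈ L) (he : Indep p L e) (hsp : Spans p L e) {s : ℕ} (hs : 0 < s)
    {X : Fin N → Fin r → ℤ_[p]} (hX : ∀ k, Coord L e (Pi.single k 1) (X k))
    (hden : ∀ l ∈ L, ∃ j : ℕ, ∀ i, ∃ z : ℤ, (s : ℚ) ^ j * l i = z) {t m : ℕ}
    {q : Matrix (Fin m) (Fin N) ℚ × (Fin m → ℚ)} (h : Cert L e X t q) :
    ¬ ∃ l ∈ L, q.1.mulVec l = q.2 := by
  obtain ⟨Y, κ, l0, k, hY, hD, hκ, hl0, hMl0, hn1, hn2⟩ := h
  rintro ⟨l, hl, hMl⟩
  set u : Fin N → ℚ := l0 - ((p : ℤ) * k) • l with hu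
  have huL : u ∈ L := L.sub_mem hl0 (L.zsmul_mem hl _)
  have huM : q.1.mulVec u = 0 := by
    rw [hu, Matrix.mulVec_sub, hMl0, mulVec_zsmul, hMl, sub_self]
  -- the family (κ, u)
  let w : Fin (t + 1) → Fin N → ℚ := Fin.snoc (α := fun _ => Fin N → ℚ) κ u
  have hwL : ∀ i, w i ∈ L := by
    intro i
    refine Fin.lastCases ?_ (fun i => ?_) i
    · simpa [w] using huL
    · simpa [w] using (hκ i).1
  have hwM : ∀ i, q.1.mulVec (w i) = 0 := by
    intro i
    refine Fin.lastCases ?_ (fun i => ?_) i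
    · simpa [w] using huM
    · simpa [w] using (hκ i).2
  have hmin : ∀ f : Fin (t + 1) → Fin r, minor X f w = 0 := by
    intro f
    have h1 : ∀ i, w i = ∑ k, w i k • (fun j => (1 - Y * q.1 : Matrix (Fin N) (Fin N) ℚ) j k) := by
      intro i
      have h2 : (1 - Y * q.1).mulVec (w i) = w i := by
        rw [Matrix.sub_mulVec, Matrix.one_mulVec, ← Matrix.mulVec_mulVec, hwM i,
          Matrix.mulVec_zero, sub_zero]
      conv_lhs => rw [← h2]
      funext j
      simp only [Matrix.mulVec, dotProduct, Finset.sum_apply, Pi.smul_apply, smul_eq_mul]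
      refine Finset.sum_congr rfl (fun k _ => ?_)
      ring
    rw [multilinear_expand (minor X f) (fun k j => (1 - Y * q.1 : Matrix (Fin N) (Fin N) ℚ) j k) (fun i k => w i k) w h1]
    refine Finset.sum_eq_zero (fun g _ => ?_)
    rw [hD f g, smul_zero]
  have hdep := dep_of_minors he heL hs hX hden hsp w hwL hmin
  unfold Indep at hdep
  push Not at hdep
  obtain ⟨a, ⟨l', hl', hal⟩, i0, hi0⟩ := hdep
  rw [Fin.sum_univ_castSucc] at hal
  simp only [w, Fin.snoc_castSucc, Fin.snoc_last] at hal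
  set c := a (Fin.last t) with hc
  have hκL : ∀ i, κ i ∈ L := fun i => (hκ i).1
  by_cases hpc : (p : ℤ) ∣ c
  · obtain ⟨c', hc'⟩ := hpc
    obtain ⟨a', ha', l'', hl'', hal''⟩ := reduce_coeffs hp.out hκL (fun i => a i.castSucc)
    have hne : ∃ i, (a' i : ℕ) ≠ 0 := by
      by_contra hcon
      push Not at hcon
      apply hi0
      refine Fin.lastCases ?_ (fun i => ?_) i0
      · exact ⟨c', hc'⟩
      · have := ha' i
        rw [hcon i] at this
        simpa using this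
    have h1 := (notIn_iff heL he hsp (sum_mem hκL _)).1 (hn1 a' hne)
    apply h1
    refine ⟨l' - c' • u - l'', L.sub_mem (L.sub_mem hl' (L.zsmul_mem huL _)) hl'', ?_⟩
    rw [smul_sub, smul_sub, smul_smul, ← hc', ← hal]
    rw [hal'']
    abel
  · have hpz : Prime (p : ℤ) := Nat.prime_iff_prime_int.1 hp.out
    have hcop : IsCoprime c (p : ℤ) := by
      rw [isCoprime_comm]
      exact (Prime.coprime_iff_not_dvd hpz).2 hpc
    obtain ⟨x, y, hxy⟩ := hcop
    -- u = sum a'' κ + p l''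
    have hu2 : u = ∑ i, (-(x * a i.castSucc)) • κ i + (p : ℤ) • (x • l' + y • u) := by
      have e1 : u = (x * c) • u + (y * p) • u := by
        rw [← add_smul, hxy, one_smul]
      have e2 : c • u = (p : ℤ) • l' - ∑ i : Fin t, a i.castSucc • κ i := by
        rw [← hal]; abel
      have e3 : ∑ i : Fin t, (-(x * a i.castSucc)) • κ i =
          -(x • ∑ i : Fin t, a i.castSucc • κ i) := by
        rw [Finset.smul_sum, ← Finset.sum_neg_distrib]
        refine Finset.sum_congr rfl (fun i _ => ?_)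
        rw [smul_smul, neg_smul]
      rw [e3]
      calc u = (x * c) • u + (y * p) • u := e1
        _ = x • (c • u) + (y * p) • u := by rw [smul_smul]
        _ = _ := by
          rw [e2, smul_sub, smul_add, smul_smul, smul_smul, smul_smul]
          rw [mul_comm x (p : ℤ), mul_comm y (p : ℤ)]
          abel
    obtain ⟨a', ha', l'', hl'', hal''⟩ := reduce_coeffs hp.out hκL
      (fun i => -(x * a i.castSucc))
    have h1 := (notIn_iff heL he hsp (L.sub_mem hl0 (sum_mem hκL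
      (fun i => ((a' i : ℕ) : ℤ))))).1 (hn2 a')
    apply h1
    refine ⟨l'' + (x • l' + y • u) + k • l, ?_, ?_⟩
    · exact L.add_mem (L.add_mem hl'' (L.add_mem (L.zsmul_mem hl' _) (L.zsmul_mem huL _)))
        (L.zsmul_mem hl _)
    · have e4 : l0 = u + ((p : ℤ) * k) • l := by rw [hu]; abel
      rw [e4]
      conv_lhs => rw [hu2]
      rw [hal'']
      simp only [smul_add, smul_smul]
      abel

lemma cert_complete (heL : ∀ i, e i ∈ L) (he : Indep p L e) (hsp : Spans p L e) {s : ℕ}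
    (hs : 0 < s) (hint : ∀ i, (Pi.single i 1 : Fin N → ℚ) ∈ L)
    {X : Fin N → Fin r → ℤ_[p]} (hX : ∀ k, Coord L e (Pi.single k 1) (X k))
    (hden : ∀ l ∈ L, ∃ j : ℕ, ∀ i, ∃ z : ℤ, (s : ℚ) ^ j * l i = z) {m : ℕ}
    {q : Matrix (Fin m) (Fin N) ℚ × (Fin m → ℚ)} (k : ℤ)
    (h1 : ¬ ∃ l ∈ L, q.1.mulVec l = k • q.2) (h2 : ∃ l ∈ L, q.1.mulVec l = ((p : ℤ) * k) • q.2) :
    ∃ t : Fin (N + 1), Cert L e X t q := by
  classical
  obtain ⟨l0, hl0, hMl0⟩ := h2
  have hp0 : (p : ℤ) ≠ 0 := by exact_mod_cast hp.out.ne_zero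
  let K : AddSubgroup (Fin N → ℚ) := L ⊓ (q.1.mulVecLin.toAddMonoidHom).ker
  have hKmem : ∀ v, v ∈ K ↔ v ∈ L ∧ q.1.mulVec v = 0 := by
    intro v
    simp [K, AddSubgroup.mem_inf, AddMonoidHom.mem_ker]
  obtain ⟨t, κ, hκK, hκind, hκsp⟩ := exists_pbasis hp.out K
  have ht : t ≤ N := Indep.card_le hp.out hκind
  obtain ⟨Y, hY⟩ := exists_ginv q.1
  have hκL : ∀ i, κ i ∈ L := fun i => ((hKmem _).1 (hκK i)).1
  have hκM : ∀ i, q.1.mulVec (κ i) = 0 := fun i => ((hKmem _).1 (hκK i)).2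
  have hKL : K ≤ L := inf_le_left
  -- if p • l' is in the kernel, so is l'
  have hker : ∀ l' : Fin N → ℚ, q.1.mulVec ((p : ℤ) • l') = 0 → q.1.mulVec l' = 0 := by
    intro l' h
    rw [mulVec_zsmul] at h
    have h0 : (p : ℤ) • q.1.mulVec l' = (p : ℤ) • (0 : Fin m → ℚ) := by rw [h, smul_zero]
    exact zsmul_inj hp0 h0
  have hsumM : ∀ a : Fin t → ℤ, q.1.mulVec (∑ i, a i • κ i) = 0 := by
    intro a
    have : ∑ i, a i • κ i ∈ K := sum_mem hκK a
    exact ((hKmem _).1 this).2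
  refine ⟨⟨t, by omega⟩, Y, κ, l0, k, hY, ?_, fun i => ⟨hκL i, hκM i⟩, hl0, hMl0, ?_, ?_⟩
  · -- DCond
    intro f g
    -- columns scaled into K
    obtain ⟨d, hd, hdz⟩ := exists_den (fun z : Fin N × Fin N => (1 - Y * q.1 : Matrix (Fin N) (Fin N) ℚ) z.1 z.2)
    choose zz hzz using hdz
    have hd' : (d : ℚ) ≠ 0 := by exact_mod_cast hd.ne'
    have hcol : ∀ k', ((d : ℚ) • (fun j => (1 - Y * q.1 : Matrix (Fin N) (Fin N) ℚ) j k')) ∈ K := by
      intro k'
      rw [hKmem]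
      constructor
      · have : ((d : ℚ) • (fun j => (1 - Y * q.1 : Matrix (Fin N) (Fin N) ℚ) j k')) =
            ∑ j, zz (j, k') • (Pi.single j 1 : Fin N → ℚ) := by
          funext j
          rw [Finset.sum_apply]
          simp only [Pi.smul_apply, Pi.single_apply, zsmul_eq_mul, smul_eq_mul]
          rw [Finset.sum_eq_single j]
          · simp only [if_true, mul_one]; exact hzz (j, k')
          · intro b _ hb; simp [Ne.symm hb]
          · simp
        rw [this]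
        exact sum_mem hint _
      · rw [Matrix.mulVec_smul]
        have h3 : q.1 * (1 - Y * q.1) = 0 := by
          rw [Matrix.mul_sub, Matrix.mul_one, ← Matrix.mul_assoc, hY, sub_self]
        have h4 : q.1.mulVec (fun j => (1 - Y * q.1 : Matrix (Fin N) (Fin N) ℚ) j k') = 0 := by
          funext i
          have := congrFun (congrFun h3 i) k'
          rw [Matrix.mul_apply] at this
          exact this
        rw [h4, smul_zero]
    have h5 := minors_zero he hs hX hden hsp hKL hκK hκsp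
      (fun i => (d : ℚ) • (fun j => (1 - Y * q.1 : Matrix (Fin N) (Fin N) ℚ) j (g i))) (fun i => hcol (g i)) f
    rw [MultilinearMap.map_smul_univ] at h5
    rcases smul_eq_zero.1 h5 with h6 | h6
    · exfalso
      rw [Finset.prod_eq_zero_iff] at h6
      obtain ⟨_, _, h7⟩ := h6
      exact hd' h7
    · exact h6
  · intro a ha
    rw [notIn_iff heL he hsp (sum_mem hκL _)]
    rintro ⟨l', hl', hl''⟩
    obtain ⟨i, hi⟩ := ha
    have h3 : l' ∈ K := by
      rw [hKmem]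
      refine ⟨hl', hker l' ?_⟩
      rw [← hl'']; exact hsumM _
    have h4 := hκind (fun i => ((a i : ℕ) : ℤ)) ⟨l', h3, hl''⟩ i
    have h5 : p ∣ (a i : ℕ) := by exact_mod_cast h4
    have h6 := Nat.le_of_dvd (Nat.pos_of_ne_zero hi) h5
    have h7 := (a i).isLt
    omega
  · intro a
    rw [notIn_iff heL he hsp (L.sub_mem hl0 (sum_mem hκL _))]
    rintro ⟨l', hl', hl''⟩
    apply h1
    refine ⟨l', hl', ?_⟩
    have h3 := congrArg (fun v => q.1.mulVec v) hl''
    simp only [Matrix.mulVec_sub] at h3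
    rw [hsumM, sub_zero, hMl0, mulVec_zsmul, mul_smul] at h3
    exact (zsmul_inj hp0 h3).symm

end prime

/-- The p-part. -/
theorem lin_prime {p : ℕ} (hp : p.Prime) (L : AddSubgroup (Fin N → ℚ))
    (hint : ∀ i, (Pi.single i 1 : Fin N → ℚ) ∈ L) {s : ℕ} (hs : 0 < s)
    (hden : ∀ l ∈ L, ∃ j : ℕ, ∀ i, ∃ z : ℤ, (s : ℚ) ^ j * l i = z)
    (hre : REPred (fun v : Fin N → ℚ => v ∈ L)) (m : ℕ) :
    ∃ C : Matrix (Fin m) (Fin N) ℚ × (Fin m → ℚ) → Prop, REPred C ∧
      (∀ q, C q → ¬ ∃ l ∈ L, q.1.mulVec l = q.2) ∧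
      (∀ q, ∀ k : ℤ, (¬ ∃ l ∈ L, q.1.mulVec l = k • q.2) →
        (∃ l ∈ L, q.1.mulVec l = ((p : ℤ) * k) • q.2) → C q) := by
  haveI : Fact p.Prime := ⟨hp⟩
  obtain ⟨r, e, heL, he, hsp⟩ := exists_pbasis hp L
  choose X hX using fun k => exists_coord he hsp (hint k)
  refine ⟨fun q => ∃ t : Fin (N + 1), Cert L e X t q, ?_, ?_, ?_⟩
  · exact CQ.re_exists_fintype (fun t => re_cert hre X t)
  · rintro q ⟨t, ht⟩
    exact cert_sound heL he hsp hs hX hden ht
  · intro q k h1 h2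
    exact cert_complete heL he hsp hs hint hX hden k h1 h2

lemma re_inR {α : Type*} [Primcodable α] (s : ℕ) {q : α → ℚ} (hq : Computable q) :
    REPred (fun a => InR s (q a)) := by
  unfold InR
  refine CQ.re_exists (β := ℕ) (CQ.re_exists (β := ℤ) ?_)
  refine CQ.re_eq (CQ.c_qmul ?_ (hq.comp (Computable.fst.comp Computable.fst)))
    (CQ.c_intCast Computable.snd)
  have h1 : Computable (fun j : ℕ => ((s ^ j : ℕ) : ℚ)) :=
    CQ.c_natCast (CQ.pr_npow (Primrec.const s) Primrec.id).to_comp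
  exact (h1.comp (Computable.snd.comp Computable.fst)).of_eq (fun a => by push_cast; rfl)

lemma re_notInR {α : Type*} [Primcodable α] {s : ℕ} (hs : 0 < s) {q : α → ℚ}
    (hq : Computable q) : REPred (fun a => ¬ InR s (q a)) := by
  have h1 : REPred (fun a => ∃ d : ℕ, 1 < d ∧ Nat.Coprime d s ∧ d ∣ (q a).den) := by
    refine CQ.re_exists (β := ℕ) (CQ.re_and ?_ (CQ.re_and ?_ ?_))
    · have h2 : PrimrecPred (fun d : ℕ => 1 < d) :=
        Primrec.nat_lt.comp (Primrec.const 1) Primrec.id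
      exact CQ.re_comp h2.computablePred.to_re Computable.snd
    · have h2 : PrimrecPred (fun d : ℕ => Nat.gcd d s = 1) :=
        Primrec.eq.comp (CQ.pr_gcd.comp Primrec.id (Primrec.const s)) (Primrec.const 1)
      exact CQ.re_comp h2.computablePred.to_re Computable.snd
    · have h2 : PrimrecPred (fun z : ℕ × ℕ => z.1 ∣ z.2) := CQ.pr_dvd
      have h3 : Computable (fun q : ℚ => q.den) := (CQ.pr_den Primrec.id).to_comp
      exact CQ.re_comp h2.computablePred.to_re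
        (Computable.snd.pair (h3.comp (hq.comp Computable.fst)))
  exact h1.of_eq (fun a => (notInR_iff hs _).symm)

/-- LIN: unsolvability is r.e. -/
theorem lin_not_re {N m : ℕ} (L : AddSubgroup (Fin N → ℚ))
    (hint : ∀ i, (Pi.single i 1 : Fin N → ℚ) ∈ L) (s : ℕ) (hs : 0 < s)
    (hden : ∀ l ∈ L, ∃ j : ℕ, ∀ i, ∃ z : ℤ, (s : ℚ) ^ j * l i = z)
    (hre : REPred (fun v : Fin N → ℚ => v ∈ L)) :
    REPred (fun q : Matrix (Fin m) (Fin N) ℚ × (Fin m → ℚ) =>
      ¬ ∃ l ∈ L, q.1.mulVec l = q.2) := by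
  classical
  have hC : ∀ p : {p : ℕ // p ∈ s.primeFactors}, ∃ C : Matrix (Fin m) (Fin N) ℚ × (Fin m → ℚ) → Prop,
      REPred C ∧ (∀ q, C q → ¬ ∃ l ∈ L, q.1.mulVec l = q.2) ∧
      (∀ q, ∀ k : ℤ, (¬ ∃ l ∈ L, q.1.mulVec l = k • q.2) →
        (∃ l ∈ L, q.1.mulVec l = (((p : ℕ) : ℤ) * k) • q.2) → C q) := by
    intro p
    exact lin_prime (Nat.prime_of_mem_primeFactors p.2) L hint hs hden hre m
  choose C hCre hCs hCc using hC
  have h1 : REPred (fun q : Matrix (Fin m) (Fin N) ℚ × (Fin m → ℚ) =>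
      (∃ z : Fin m → ℚ, (∀ k, InR s (∑ i, z i * q.1 i k)) ∧ ¬ InR s (∑ i, z i * q.2 i)) ∨
      ∃ p, C p q) := by
    refine CQ.re_or (CQ.re_exists (β := Fin m → ℚ) (CQ.re_and ?_ ?_))
      (CQ.re_exists_fintype hCre)
    · refine CQ.re_forall_fintype (fun k => re_inR s (CQ.c_sum (fun i => ?_)))
      exact CQ.c_qmul (CQ.c_app Computable.snd i)
        (CQ.c_entry (Computable.fst.comp Computable.fst) i k)
    · refine re_notInR hs (CQ.c_sum (fun i => ?_))
      exact CQ.c_qmul (CQ.c_app Computable.snd i)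
        (CQ.c_app (Computable.snd.comp Computable.fst) i)
  refine h1.of_eq (fun q => ?_)
  constructor
  · rintro (h | ⟨p, hp⟩)
    · rw [← duality hs] at h
      rintro ⟨l, hl, hlq⟩
      exact h ⟨l, fun k => by
        obtain ⟨j, hj⟩ := hden l hl
        exact ⟨j, hj k⟩, hlq⟩
    · exact hCs p q hp
  · intro hno
    by_cases hx : ∃ x : Fin N → ℚ, (∀ k, InR s (x k)) ∧ q.1.mulVec x = q.2
    swap
    · exact Or.inl ((duality hs q.1 q.2).1 hx)
    right
    obtain ⟨x, hx1, hx2⟩ := hx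
    obtain ⟨j, hj⟩ := exists_den_pow x hx1
    choose z hz using hj
    -- s^j x in L
    have hsx : ((s : ℤ) ^ j) • x ∈ L := by
      have : ((s : ℤ) ^ j) • x = ∑ i, z i • (Pi.single i 1 : Fin N → ℚ) := by
        funext i
        rw [Finset.sum_apply]
        simp only [Pi.smul_apply, Pi.single_apply, zsmul_eq_mul]
        rw [Finset.sum_eq_single i]
        · simp only [if_true, mul_one]
          rw [← hz i]; push_cast; ring
        · intro b _ hb; simp [Ne.symm hb]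
        · simp
      rw [this]
      exact sum_mem hint _
    -- minimal n
    have hex : ∃ n : ℕ, 0 < n ∧ ∃ l ∈ L, q.1.mulVec l = (n : ℤ) • q.2 :=
      ⟨s ^ j, pow_pos hs j, ((s : ℤ) ^ j) • x, hsx, by
        rw [mulVec_zsmul, hx2]; push_cast; rfl⟩
    let n := Nat.find hex
    obtain ⟨hn0, l0, hl0, hMl0⟩ := Nat.find_spec hex
    have hmin : ∀ n' : ℕ, n' < n → 0 < n' → ¬ ∃ l ∈ L, q.1.mulVec l = (n' : ℤ) • q.2 := by
      intro n' hn' h0 h
      exact Nat.find_min hex hn' ⟨h0, h⟩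
    have hn1 : n ≠ 1 := by
      intro h
      apply hno
      refine ⟨l0, hl0, ?_⟩
      have : (Nat.find hex : ℤ) = 1 := by exact_mod_cast h
      rw [hMl0, this, one_smul]
    -- n divides s^j
    have hdvd : n ∣ s ^ j := by
      have h3 : ¬ 0 < s ^ j % n := by
        intro h0
        refine hmin (s ^ j % n) (Nat.mod_lt _ hn0) h0 ⟨((s : ℤ) ^ j) • x -
          ((s ^ j / n : ℕ) : ℤ) • l0, L.sub_mem hsx (L.zsmul_mem hl0 _), ?_⟩
        rw [Matrix.mulVec_sub, mulVec_zsmul, mulVec_zsmul, hx2, hMl0, smul_smul, ← sub_smul]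
        congr 1
        have h4 := Nat.div_add_mod (s ^ j) n
        have h5 : ((n : ℤ)) * ((s ^ j / n : ℕ) : ℤ) + ((s ^ j % n : ℕ) : ℤ) = (s : ℤ) ^ j := by
          exact_mod_cast h4
        rw [← h5]
        change _ - ((s ^ j / n : ℕ) : ℤ) * (n : ℤ) = _
        ring
      exact Nat.dvd_of_mod_eq_zero (by omega)
    obtain ⟨p, hp, hpn⟩ := Nat.exists_prime_and_dvd hn1
    have hps : p ∣ s := hp.dvd_of_dvd_pow (hpn.trans hdvd)
    have hpm : p ∈ s.primeFactors := Nat.mem_primeFactors.2 ⟨hp, hps, hs.ne'⟩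
    obtain ⟨k, hk⟩ := hpn
    refine ⟨⟨p, hpm⟩, hCc ⟨p, hpm⟩ q (k : ℤ) ?_ ?_⟩
    · have hk0 : 0 < k := by
        rcases Nat.eq_zero_or_pos k with h0 | h0
        · rw [h0, mul_zero] at hk
          exact absurd hk hn0.ne'
        · exact h0
      refine hmin k ?_ hk0
      rw [hk]
      exact (Nat.lt_mul_iff_one_lt_left hk0).2 hp.one_lt
    · refine ⟨l0, hl0, ?_⟩
      rw [hMl0]
      congr 1
      exact_mod_cast hk

/-- LIN: linear systems over an r.e. subgroup of ℤ[1/s]^N are decidable. -/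
theorem lin_computable {N m : ℕ} (L : AddSubgroup (Fin N → ℚ))
    (hint : ∀ i, (Pi.single i 1 : Fin N → ℚ) ∈ L) (s : ℕ) (hs : 0 < s)
    (hden : ∀ l ∈ L, ∃ j : ℕ, ∀ i, ∃ z : ℤ, (s : ℚ) ^ j * l i = z)
    (hre : REPred (fun v : Fin N → ℚ => v ∈ L)) :
    ComputablePred (fun q : Matrix (Fin m) (Fin N) ℚ × (Fin m → ℚ) =>
      ∃ l ∈ L, q.1.mulVec l = q.2) := by
  refine CQ.computable_of_re ?_ (lin_not_re L hint s hs hden hre)
  refine CQ.re_exists (β := Fin N → ℚ) (CQ.re_and ?_ ?_)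
  · exact CQ.re_comp hre Computable.snd
  · exact CQ.re_eq (CQ.c_mulVec (Computable.fst.comp Computable.fst) Computable.snd)
      (Computable.snd.comp Computable.fst)

end Pool.Agent.LIN
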