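import Pool.Agent.Helper39.CJ.LinP

/-!
# The rational form of p-adic rank conditions
-/

set_option autoImplicit false

namespace Pool.Agent.LIN

open Finset

/-- Expansion of a multilinear map. -/
lemma multilinear_expand {R V K : Type*} [CommSemiring R] [AddCommMonoid V] [Module R V]
    [AddCommMonoid K] [Module R K] {m N : ℕ} (A : MultilinearMap R (fun _ : Fin m => V) K)
    (u : Fin N → V) (c : Fin m → Fin N → R) (w : Fin m → V) (hw : ∀ i, w i = ∑ k, c i k • u k) :
    A w = ∑ h : Fin m → Fin N, (∏ i, c i (h i)) • A (fun i => u (h i)) := by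
  have h1 : A w = A (fun i => ∑ k, c i k • u k) := by
    congr 1; funext i; exact hw i
  rw [h1, MultilinearMap.map_sum]
  refine Finset.sum_congr rfl (fun h _ => ?_)
  rw [MultilinearMap.map_smul_univ]

section Padic

variable {N : ℕ} {p : ℕ} [hp : Fact p.Prime]

/-- The minors of the linear map with columns `X k`. -/
noncomputable def minor {r t : ℕ} (X : Fin N → Fin r → ℤ_[p]) (f : Fin t → Fin r) :
    MultilinearMap ℚ (fun _ : Fin t => (Fin N → ℚ)) ℚ_[p] :=
  (((Matrix.detRowAlternating (n := Fin t) (R := ℚ_[p])).toMultilinearMap.restrictScalars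
      ℚ).compLinearMap
    (fun _ : Fin t => (LinearMap.pi (fun i => ∑ k, (LinearMap.proj k : (Fin N → ℚ) →ₗ[ℚ] ℚ).smulRight
      ((X k (f i) : ℤ_[p]) : ℚ_[p])) : (Fin N → ℚ) →ₗ[ℚ] (Fin t → ℚ_[p]))))

lemma minor_apply {r t : ℕ} (X : Fin N → Fin r → ℤ_[p]) (f : Fin t → Fin r)
    (w : Fin t → Fin N → ℚ) :
    minor X f w = (Matrix.of (fun i' i => ∑ k, w i' k • ((X k (f i) : ℤ_[p]) : ℚ_[p]))).det := by
  unfold minor
  rw [MultilinearMap.compLinearMap_apply]
  change Matrix.det _ = _
  congr 1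
  ext i' i
  simp [LinearMap.pi_apply, LinearMap.sum_apply]

/-- The rational condition. -/
def DCond {r : ℕ} (X : Fin N → Fin r → ℤ_[p]) (t : ℕ) (B : Matrix (Fin N) (Fin N) ℚ) : Prop :=
  ∀ (f : Fin t → Fin r) (g : Fin t → Fin N), minor X f (fun i k => B k (g i)) = 0

lemma DCond.computable {r : ℕ} (X : Fin N → Fin r → ℤ_[p]) (t : ℕ) :
    REPred (fun B : Matrix (Fin N) (Fin N) ℚ => DCond X t B) := by
  unfold DCond
  refine CQ.re_forall_fintype (fun f => CQ.re_forall_fintype (fun g => ?_))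
  have h1 : ∀ B : Matrix (Fin N) (Fin N) ℚ, minor X f (fun i k => B k (g i)) =
      ∑ h : Fin t → Fin N, (∏ i, B (h i) (g i)) •
        minor X f (fun i => (Pi.single (h i) 1 : Fin N → ℚ)) := by
    intro B
    refine multilinear_expand (minor X f) (fun k => (Pi.single k 1 : Fin N → ℚ))
      (fun i k => B k (g i)) _ (fun i => ?_)
    funext k
    simp [Finset.sum_apply, Pi.single_apply]
  have h2 := CQ.cp_linear (α := Matrix (Fin N) (Fin N) ℚ)
    (fun h : Fin t → Fin N => minor X f (fun i => (Pi.single (h i) 1 : Fin N → ℚ)))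
    (q := fun h B => ∏ i, B (h i) (g i))
    (fun h => CQ.c_prod (fun i => CQ.c_entry Computable.id (h i) (g i)))
  exact h2.to_re.of_eq (fun B => by rw [h1 B])

variable {L : AddSubgroup (Fin N → ℚ)} {r : ℕ} {e : Fin r → Fin N → ℚ}

/-- The rational extension of the coordinates. -/
lemma coord_eq (he : Indep p L e) {s : ℕ} (hs : 0 < s) {X : Fin N → Fin r → ℤ_[p]}
    (hX : ∀ k, Coord L e (Pi.single k 1) (X k)) {l : Fin N → ℚ} {x : Fin r → ℤ_[p]}
    (hx : Coord L e l x) (hl : ∃ j : ℕ, ∀ i, ∃ z : ℤ, (s : ℚ) ^ j * l i = z) (i : Fin r) :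
    ((x i : ℤ_[p]) : ℚ_[p]) = ∑ k, l k • ((X k i : ℤ_[p]) : ℚ_[p]) := by
  obtain ⟨j, hj⟩ := hl
  choose z hz using hj
  have h1 := hx.zsmul ((s : ℤ) ^ j)
  have h2 := Coord.sum (p := p) (L := L) (e := e) Finset.univ (l := fun k => Pi.single k 1)
    (x := X) z (fun k _ => hX k)
  have h3 : ((s : ℤ) ^ j) • l = ∑ k, z k • (Pi.single k 1 : Fin N → ℚ) := by
    funext k
    rw [Finset.sum_apply]
    simp only [Pi.smul_apply, Pi.single_apply, zsmul_eq_mul]
    rw [Finset.sum_eq_single k]
    · simp only [if_true, mul_one]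
      rw [← hz k]; push_cast; ring
    · intro b _ hb; simp [Ne.symm hb]
    · simp
  rw [h3] at h1
  have h4 := congrFun (Coord.unique he h1 h2) i
  have h5 := congrArg (fun y : ℤ_[p] => (y : ℚ_[p])) h4
  simp only [PadicInt.coe_mul, PadicInt.coe_intCast] at h5
  have h6 : (((∑ k, (z k : ℤ_[p]) * X k i : ℤ_[p])) : ℚ_[p]) =
      ∑ k, (z k : ℚ_[p]) * ((X k i : ℤ_[p]) : ℚ_[p]) := by
    have := map_sum (PadicInt.Coe.ringHom (p := p)) (fun k => (z k : ℤ_[p]) * X k i) Finset.univ
    simpa using this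
  rw [h6] at h5
  have hs' : ((s : ℚ_[p]) ^ j) ≠ 0 := by
    apply pow_ne_zero
    exact_mod_cast hs.ne'
  apply mul_left_cancel₀ hs'
  push_cast at h5
  rw [h5, Finset.mul_sum]
  refine Finset.sum_congr rfl (fun k _ => ?_)
  rw [← Rat.cast_smul_eq_qsmul ℚ_[p] (l k), smul_eq_mul, ← mul_assoc]
  congr 1
  have := congrArg (fun q : ℚ => (q : ℚ_[p])) (hz k)
  push_cast at this
  exact this.symm

/-- Upper bound for the rank modulo p from the vanishing of minors. -/
lemma dep_of_minors (he : Indep p L e) (heL : ∀ i, e i ∈ L) {s : ℕ} (hs : 0 < s)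
    {X : Fin N → Fin r → ℤ_[p]}
    (hX : ∀ k, Coord L e (Pi.single k 1) (X k))
    (hden : ∀ l ∈ L, ∃ j : ℕ, ∀ i, ∃ z : ℤ, (s : ℚ) ^ j * l i = z) (hsp : Spans p L e)
    {t : ℕ} (w : Fin t → Fin N → ℚ) (hw : ∀ i, w i ∈ L)
    (h : ∀ f : Fin t → Fin r, minor X f w = 0) : ¬ Indep p L w := by
  classical
  intro hind
  choose x hx using fun i => exists_coord he hsp (hw i)
  -- residues
  let Y : Fin t → Fin r → ZMod p := fun i' i => PadicInt.toZMod (x i' i)
  have hli : LinearIndependent (ZMod p) Y := by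
    rw [Fintype.linearIndependent_iff]
    intro g hg
    -- lift to integers
    have hgl : ∀ i, ((((g i).val : ℕ) : ℤ) : ZMod p) = g i := by
      intro i; simp
    have hsum := Coord.sum (p := p) (L := L) (e := e) Finset.univ (l := w) (x := x)
      (fun i => ((g i).val : ℤ)) (fun k _ => hx k)
    have hdvd : ∀ i, ((p : ℤ_[p]) ^ 1) ∣ ∑ k, ((((g k).val : ℕ) : ℤ) : ℤ_[p]) * x k i := by
      intro i
      rw [pow_one, ← Ideal.mem_span_singleton, ← PadicInt.maximalIdeal_eq_span_p,
        ← PadicInt.ker_toZMod, RingHom.mem_ker, map_sum]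
      have h1 := congrFun hg i
      simp only [Finset.sum_apply, Pi.smul_apply, smul_eq_mul, Pi.zero_apply] at h1
      rw [← h1]
      refine Finset.sum_congr rfl (fun k _ => ?_)
      rw [map_mul, map_intCast, hgl k]
    obtain ⟨l', hl', hl''⟩ := Coord.mem_of_dvd heL hsum hdvd
    have h2 := hind (fun i => ((g i).val : ℤ)) ⟨l', hl', by rw [hl'', pow_one]⟩
    intro i
    rw [← hgl i]
    exact (ZMod.intCast_zmod_eq_zero_iff_dvd _ p).2 (h2 i)
  -- choose columns
  have hcols : ∃ f : Fin t → Fin r, LinearIndependent (ZMod p)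
      (fun i' => fun i => Y i' (f i) : Fin t → Fin t → ZMod p) := by
    -- rows Y independent: the column vectors span
    let Z : Matrix (Fin t) (Fin r) (ZMod p) := Matrix.of Y
    have hrank : Z.rank = t := by
      have := LinearIndependent.rank_matrix (M := Z) hli
      simpa using this
    have hspan : Submodule.span (ZMod p) (Set.range Z.col) = ⊤ := by
      apply Submodule.eq_top_of_finrank_eq
      rw [← Matrix.rank_eq_finrank_span_cols, hrank]
      simp
    obtain ⟨v, hv1, hv2, hv3⟩ := Submodule.exists_fun_fin_finrank_span_eq (ZMod p) (Set.range Z.col)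
    have hfr : Module.finrank (ZMod p) (Submodule.span (ZMod p) (Set.range Z.col)) = t := by
      rw [← Matrix.rank_eq_finrank_span_cols, hrank]
    choose f0 hf0 using hv1
    refine ⟨fun i => f0 (Fin.cast hfr.symm i), ?_⟩
    have h3 : LinearIndependent (ZMod p) (fun i : Fin t => v (Fin.cast hfr.symm i)) :=
      hv3.comp _ (Fin.cast_injective _)
    have h4 : (fun i : Fin t => v (Fin.cast hfr.symm i)) =
        (Matrix.of (fun i' i => Y i' (f0 (Fin.cast hfr.symm i)))).col := by
      funext i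
      rw [← hf0]
      rfl
    rw [h4] at h3
    have h5 := Matrix.linearIndependent_cols_iff_isUnit.1 h3
    exact Matrix.linearIndependent_rows_iff_isUnit.2 h5
  obtain ⟨f, hf⟩ := hcols
  have h1 := h f
  rw [minor_apply] at h1
  have h2 : (Matrix.of (fun i' i => ∑ k, w i' k • ((X k (f i) : ℤ_[p]) : ℚ_[p]))) =
      (PadicInt.Coe.ringHom (p := p)).mapMatrix (Matrix.of (fun i' i => x i' (f i))) := by
    ext i' i
    simp only [Matrix.of_apply, RingHom.mapMatrix_apply, Matrix.map_apply]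
    exact (coord_eq he hs hX (hx i') (hden _ (hw i')) (f i)).symm
  rw [h2, ← RingHom.map_det] at h1
  have h3 : (Matrix.of (fun i' i => x i' (f i)) : Matrix (Fin t) (Fin t) ℤ_[p]).det = 0 := by
    apply PadicInt.ext
    exact h1
  have h4 := congrArg (PadicInt.toZMod (p := p)) h3
  rw [RingHom.map_det, map_zero] at h4
  have h5 : IsUnit (Matrix.of (fun i' i => Y i' (f i)) : Matrix (Fin t) (Fin t) (ZMod p)) :=
    Matrix.linearIndependent_rows_iff_isUnit.1 hf
  rw [Matrix.isUnit_iff_isUnit_det] at h5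
  apply h5.ne_zero
  exact h4

lemma det_fat_zero {R : Type*} [CommRing R] {t : ℕ} (C : Fin (t + 1) → Fin t → R)
    (D : Fin t → Fin (t + 1) → R) :
    (Matrix.of (fun i' i => ∑ k, C i' k * D k i) : Matrix (Fin (t + 1)) (Fin (t + 1)) R).det = 0 := by
  have h : (Matrix.of (fun i' i => ∑ k, C i' k * D k i) : Matrix (Fin (t + 1)) (Fin (t + 1)) R) =
      (Matrix.of (fun i' => Fin.snoc (α := fun _ => R) (C i') 0)) *
        (Matrix.of (Fin.snoc (α := fun _ => Fin (t + 1) → R) D 0)) := by
    ext i' i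
    rw [Matrix.mul_apply, Fin.sum_univ_castSucc]
    simp
  rw [h, Matrix.det_mul]
  have : (Matrix.of (fun i' => Fin.snoc (α := fun _ => R) (C i') 0) :
      Matrix (Fin (t + 1)) (Fin (t + 1)) R).det = 0 := by
    apply Matrix.det_eq_zero_of_column_eq_zero (Fin.last t)
    intro i
    simp
  rw [this, zero_mul]

/-- The minors of size `t+1` vanish on a subgroup with `t` generators modulo p. -/
lemma minors_zero (he : Indep p L e) {s : ℕ} (hs : 0 < s) {X : Fin N → Fin r → ℤ_[p]}
    (hX : ∀ k, Coord L e (Pi.single k 1) (X k))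
    (hden : ∀ l ∈ L, ∃ j : ℕ, ∀ i, ∃ z : ℤ, (s : ℚ) ^ j * l i = z) (hsp : Spans p L e)
    {K : AddSubgroup (Fin N → ℚ)} (hK : K ≤ L) {t : ℕ} {κ : Fin t → Fin N → ℚ}
    (hκ : ∀ i, κ i ∈ K) (hspan : Spans p K κ)
    (w : Fin (t + 1) → Fin N → ℚ) (hw : ∀ i, w i ∈ K) (f : Fin (t + 1) → Fin r) :
    minor X f w = 0 := by
  classical
  choose x hx using fun i => exists_coord he hsp (hK (hw i))
  choose y hy using fun i => exists_coord he hsp (hK (hκ i))
  have h2 : (Matrix.of (fun i' i => ∑ k, w i' k • ((X k (f i) : ℤ_[p]) : ℚ_[p]))) =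
      (PadicInt.Coe.ringHom (p := p)).mapMatrix (Matrix.of (fun i' i => x i' (f i))) := by
    ext i' i
    simp only [Matrix.of_apply, RingHom.mapMatrix_apply, Matrix.map_apply]
    exact (coord_eq he hs hX (hx i') (hden _ (hK (hw i'))) (f i)).symm
  rw [minor_apply, h2, ← RingHom.map_det]
  have h3 : (Matrix.of (fun i' i => x i' (f i)) : Matrix (Fin (t + 1)) (Fin (t + 1)) ℤ_[p]).det
      = 0 := by
    rw [← sub_eq_zero, sub_zero]
    have : ∀ j : ℕ, ((p : ℤ_[p]) ^ j) ∣
        (Matrix.of (fun i' i => x i' (f i)) :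
          Matrix (Fin (t + 1)) (Fin (t + 1)) ℤ_[p]).det - 0 := by
      intro j
      rw [sub_zero, ← Ideal.mem_span_singleton, ← Ideal.Quotient.eq_zero_iff_mem,
        RingHom.map_det]
      choose a l' hl' ha using fun i => hspan.pow j (w i) (hw i)
      -- coordinates of w i'
      have h4 : ∀ i' i, ((p : ℤ_[p]) ^ j) ∣ x i' i - ∑ k, (a i' k : ℤ_[p]) * y k i := by
        intro i' i
        obtain ⟨z, hz⟩ := exists_coord he hsp (hK (hl' i'))
        have h5 := (Coord.sum (p := p) (L := L) (e := e) Finset.univ (l := κ) (x := y)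
          (a i') (fun k _ => hy k)).add (hz.zsmul ((p : ℤ) ^ j))
        rw [← ha i'] at h5
        have h6 := congrFun (Coord.unique he (hx i') h5) i
        simp only [Pi.add_apply] at h6
        rw [h6]
        refine ⟨z i, ?_⟩
        push_cast
        ring
      have h7 : (Ideal.Quotient.mk (Ideal.span {(p : ℤ_[p]) ^ j})).mapMatrix
          (Matrix.of (fun i' i => x i' (f i))) =
          Matrix.of (fun i' i => ∑ k, (Ideal.Quotient.mk (Ideal.span {(p : ℤ_[p]) ^ j}))
            (a i' k : ℤ_[p]) * (Ideal.Quotient.mk (Ideal.span {(p : ℤ_[p]) ^ j})) (y k (f i))) := by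
        ext i' i
        simp only [Matrix.of_apply, RingHom.mapMatrix_apply, Matrix.map_apply]
        rw [← sub_eq_zero]
        have h8 := h4 i' (f i)
        rw [← Ideal.mem_span_singleton, ← Ideal.Quotient.eq_zero_iff_mem, map_sub, map_sum] at h8
        simpa using h8
      rw [h7]
      exact det_fat_zero _ _
    exact padic_eq_of_dvd this
  rw [h3, map_zero]

end Padic

end Pool.Agent.LIN
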