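import Pool.Agent.Helper39.CJ.RE

/-!
# p-bases of subgroups of ℚ^N and p-adic coordinates
-/

set_option autoImplicit false

namespace Pool.Agent.LIN

open Finset

variable {N : ℕ}

/-- The family `e` in `L` is independent modulo `pL`. -/
def Indep (p : ℕ) (L : AddSubgroup (Fin N → ℚ)) {r : ℕ} (e : Fin r → Fin N → ℚ) : Prop :=
  ∀ a : Fin r → ℤ, (∃ l ∈ L, ∑ i, a i • e i = (p : ℤ) • l) → ∀ i, (p : ℤ) ∣ a i

/-- The family `e` generates `L` modulo `pL`. -/
def Spans (p : ℕ) (L : AddSubgroup (Fin N → ℚ)) {r : ℕ} (e : Fin r → Fin N → ℚ) : Prop :=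
  ∀ l ∈ L, ∃ a : Fin r → ℤ, ∃ l' ∈ L, l = ∑ i, a i • e i + (p : ℤ) • l'

lemma zsmul_inj {n : ℤ} (hn : n ≠ 0) {v w : Fin N → ℚ} (h : n • v = n • w) : v = w := by
  have h' : (n : ℚ) • v = (n : ℚ) • w := by
    simpa [Int.cast_smul_eq_zsmul] using h
  exact smul_right_injective _ (by exact_mod_cast hn : (n : ℚ) ≠ 0) h'

lemma sum_mem {L : AddSubgroup (Fin N → ℚ)} {r : ℕ} {e : Fin r → Fin N → ℚ}
    (he : ∀ i, e i ∈ L) (a : Fin r → ℤ) : ∑ i, a i • e i ∈ L :=
  AddSubgroup.sum_mem _ (fun i _ => AddSubgroup.zsmul_mem _ (he i) _)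

lemma Indep.pow {p : ℕ} (hp : p.Prime) {L : AddSubgroup (Fin N → ℚ)} {r : ℕ}
    {e : Fin r → Fin N → ℚ} (he : Indep p L e) (j : ℕ) (a : Fin r → ℤ)
    (h : ∃ l ∈ L, ∑ i, a i • e i = ((p : ℤ) ^ j) • l) : ∀ i, ((p : ℤ) ^ j) ∣ a i := by
  have hp0 : (p : ℤ) ≠ 0 := by exact_mod_cast hp.ne_zero
  induction j generalizing a with
  | zero => intro i; simp
  | succ j ih =>
    obtain ⟨l, hl, hal⟩ := h
    have h1 : ∀ i, (p : ℤ) ∣ a i := by
      refine he a ⟨((p : ℤ) ^ j) • l, AddSubgroup.zsmul_mem _ hl _, ?_⟩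
      rw [hal, smul_smul, pow_succ']
    choose c hc using h1
    have h2 : ∑ i, c i • e i = ((p : ℤ) ^ j) • l := by
      apply zsmul_inj hp0
      rw [Finset.smul_sum, smul_smul, ← pow_succ', ← hal]
      refine Finset.sum_congr rfl (fun i _ => ?_)
      rw [smul_smul, ← hc i]
    intro i
    rw [hc i, pow_succ']
    exact mul_dvd_mul_left _ (ih c ⟨l, hl, h2⟩ i)

lemma Indep.eq_zero {p : ℕ} (hp : p.Prime) {L : AddSubgroup (Fin N → ℚ)} {r : ℕ}
    {e : Fin r → Fin N → ℚ} (he : Indep p L e) (a : Fin r → ℤ)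
    (h : ∑ i, a i • e i = 0) : a = 0 := by
  funext i
  by_contra hne
  have hne' : a i ≠ 0 := hne
  have h1 : ∀ j : ℕ, ((p : ℤ) ^ j) ∣ a i := fun j =>
    Indep.pow hp he j a ⟨0, L.zero_mem, by rw [h, smul_zero]⟩ i
  have h2 := Int.natAbs_dvd_natAbs.2 (h1 (a i).natAbs)
  rw [Int.natAbs_pow, Int.natAbs_natCast] at h2
  have h3 := Nat.le_of_dvd (Int.natAbs_pos.2 hne') h2
  exact absurd h3 (not_le.2 (Nat.lt_pow_self hp.one_lt))

lemma Indep.card_le {p : ℕ} (hp : p.Prime) {L : AddSubgroup (Fin N → ℚ)} {r : ℕ}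
    {e : Fin r → Fin N → ℚ} (he : Indep p L e) : r ≤ N := by
  have h1 : LinearIndependent ℤ e := by
    rw [Fintype.linearIndependent_iff]
    intro g hg i
    exact congrFun (Indep.eq_zero hp he g hg) i
  have h2 : LinearIndependent ℚ e := (LinearIndependent.iff_fractionRing ℤ ℚ).1 h1
  have h3 := h2.fintype_card_le_finrank
  simpa using h3

lemma Spans.pow {p : ℕ} {L : AddSubgroup (Fin N → ℚ)} {r : ℕ} {e : Fin r → Fin N → ℚ}
    (he : Spans p L e) (j : ℕ) : ∀ l ∈ L, ∃ a : Fin r → ℤ, ∃ l' ∈ L,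
      l = ∑ i, a i • e i + ((p : ℤ) ^ j) • l' := by
  induction j with
  | zero => intro l hl; exact ⟨0, l, hl, by simp⟩
  | succ j ih =>
    intro l hl
    obtain ⟨a, l', hl', h⟩ := ih l hl
    obtain ⟨c, l'', hl'', h'⟩ := he l' hl'
    refine ⟨fun i => a i + ((p : ℤ) ^ j) * c i, l'', hl'', ?_⟩
    rw [h]
    conv_lhs => rw [h']
    rw [smul_add, Finset.smul_sum, pow_succ, mul_smul, ← add_assoc, ← Finset.sum_add_distrib]
    congr 1
    refine Finset.sum_congr rfl (fun i _ => ?_)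
    rw [add_smul, mul_smul]

/-- Existence of a p-basis. -/
theorem exists_pbasis {p : ℕ} (hp : p.Prime) (L : AddSubgroup (Fin N → ℚ)) :
    ∃ r : ℕ, ∃ e : Fin r → Fin N → ℚ, (∀ i, e i ∈ L) ∧ Indep p L e ∧ Spans p L e := by
  classical
  have hpz : Prime (p : ℤ) := Nat.prime_iff_prime_int.1 hp
  -- the set of sizes
  let P : ℕ → Prop := fun r => ∃ e : Fin r → Fin N → ℚ, (∀ i, e i ∈ L) ∧ Indep p L e
  have hP0 : P 0 := ⟨fun i => i.elim0, fun i => i.elim0, fun a _ i => i.elim0⟩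
  have hbd : ∀ r, P r → r ≤ N := fun r ⟨e, _, he⟩ => Indep.card_le hp he
  obtain ⟨r, hr, hmax⟩ : ∃ r, P r ∧ ¬ P (r + 1) := by
    by_contra hcon
    push Not at hcon
    have : ∀ r, P r := by
      intro r
      induction r with
      | zero => exact hP0
      | succ r ih => exact hcon r ih
    have := hbd (N + 1) (this (N + 1))
    omega
  obtain ⟨e, heL, he⟩ := hr
  refine ⟨r, e, heL, he, ?_⟩
  intro l hl
  -- the family (e, l) is dependent
  have hdep : ¬ Indep p L (Fin.snoc (α := fun _ => Fin N → ℚ) e l) := by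
    intro h
    apply hmax
    refine ⟨Fin.snoc (α := fun _ => Fin N → ℚ) e l, ?_, h⟩
    intro i
    refine Fin.lastCases ?_ (fun i => ?_) i
    · simpa using hl
    · simpa using heL i
  unfold Indep at hdep
  push Not at hdep
  obtain ⟨a, ⟨l', hl', hal⟩, i0, hi0⟩ := hdep
  rw [Fin.sum_univ_castSucc] at hal
  simp only [Fin.snoc_castSucc, Fin.snoc_last] at hal
  set c := a (Fin.last r) with hc
  by_cases hpc : (p : ℤ) ∣ c
  · exfalso
    obtain ⟨c', hc'⟩ := hpc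
    have h1 : ∀ i : Fin r, (p : ℤ) ∣ a i.castSucc := by
      refine he (fun i => a i.castSucc) ⟨l' - c' • l, ?_, ?_⟩
      · exact L.sub_mem hl' (L.zsmul_mem hl _)
      · rw [smul_sub, smul_smul, ← hc', ← hal]
        abel
    apply hi0
    refine Fin.lastCases ?_ (fun i => ?_) i0
    · exact ⟨c', hc'⟩
    · exact h1 i
  · have hcop : IsCoprime c (p : ℤ) := by
      rw [isCoprime_comm]
      exact (Prime.coprime_iff_not_dvd hpz).2 hpc
    obtain ⟨u, v, huv⟩ := hcop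
    refine ⟨fun i => -(u * a i.castSucc), u • l' + v • l, ?_, ?_⟩
    · exact L.add_mem (L.zsmul_mem hl' _) (L.zsmul_mem hl _)
    · have e1 : l = (u * c) • l + (v * p) • l := by
        rw [← add_smul, huv, one_smul]
      have e2 : c • l = (p : ℤ) • l' - ∑ i : Fin r, a i.castSucc • e i := by
        rw [← hal]; abel
      have e3 : ∑ i : Fin r, (-(u * a i.castSucc)) • e i =
          -(u • ∑ i : Fin r, a i.castSucc • e i) := by
        rw [Finset.smul_sum, ← Finset.sum_neg_distrib]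
        refine Finset.sum_congr rfl (fun i _ => ?_)
        rw [smul_smul, neg_smul]
      rw [e3]
      calc l = (u * c) • l + (v * p) • l := e1
        _ = u • (c • l) + (v * p) • l := by rw [smul_smul]
        _ = _ := by
          rw [e2, smul_sub, smul_add, smul_smul, smul_smul, smul_smul]
          rw [mul_comm u (p : ℤ), mul_comm v (p : ℤ)]
          abel

/-! ### p-adic coordinates -/

section Padic

variable {p : ℕ} [hp : Fact p.Prime]

lemma exists_padic_limit (a : ℕ → ℤ) (h : ∀ j, ((p : ℤ) ^ j) ∣ a (j + 1) - a j) :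
    ∃ x : ℤ_[p], ∀ j, ((p : ℤ_[p]) ^ j) ∣ x - (a j : ℤ_[p]) := by
  have h1 : ∀ j n, j ≤ n → ((p : ℤ) ^ j) ∣ a n - a j := by
    intro j n hjn
    induction n, hjn using Nat.le_induction with
    | base => simp
    | succ n hn ih =>
      have h2 : ((p : ℤ) ^ j) ∣ a (n + 1) - a n := (pow_dvd_pow _ hn).trans (h n)
      have : a (n + 1) - a j = (a (n + 1) - a n) + (a n - a j) := by ring
      rw [this]
      exact dvd_add h2 ih
  have h3 : ∀ j n, j ≤ n → ‖(a n : ℤ_[p]) - (a j : ℤ_[p])‖ ≤ (p : ℝ) ^ (-(j : ℤ)) := by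
    intro j n hjn
    have := (PadicInt.norm_int_le_pow_iff_dvd (p := p) (k := a n - a j) (n := j)).2 (by
      exact_mod_cast h1 j n hjn)
    simpa using this
  have hp1 : (1 : ℝ) < p := by exact_mod_cast hp.out.one_lt
  have hcau : CauchySeq (fun n => (a n : ℤ_[p])) := by
    rw [Metric.cauchySeq_iff']
    intro ε hε
    obtain ⟨j, hj⟩ := exists_pow_lt_of_lt_one hε (inv_lt_one_of_one_lt₀ hp1)
    refine ⟨j, fun n hn => ?_⟩
    rw [dist_eq_norm]
    refine lt_of_le_of_lt (h3 j n hn) ?_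
    rw [zpow_neg, zpow_natCast, ← inv_pow]
    exact hj
  obtain ⟨x, hx⟩ := cauchySeq_tendsto_of_complete hcau
  refine ⟨x, fun j => ?_⟩
  have h4 : ‖x - (a j : ℤ_[p])‖ ≤ (p : ℝ) ^ (-(j : ℤ)) := by
    have h5 : Filter.Tendsto (fun n => ‖(a n : ℤ_[p]) - (a j : ℤ_[p])‖) Filter.atTop
        (nhds ‖x - (a j : ℤ_[p])‖) := (hx.sub_const _).norm
    refine le_of_tendsto h5 ?_
    filter_upwards [Filter.eventually_ge_atTop j] with n hn
    exact h3 j n hn
  rw [PadicInt.norm_le_pow_iff_mem_span_pow] at h4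
  exact Ideal.mem_span_singleton.1 h4

lemma padic_eq_of_dvd {x y : ℤ_[p]} (h : ∀ j : ℕ, ((p : ℤ_[p]) ^ j) ∣ x - y) : x = y := by
  by_contra hne
  have h0 : x - y ≠ 0 := sub_ne_zero.2 hne
  have h1 : ∀ j : ℕ, ‖x - y‖ ≤ (p : ℝ) ^ (-(j : ℤ)) := fun j => by
    rw [PadicInt.norm_le_pow_iff_mem_span_pow]
    exact Ideal.mem_span_singleton.2 (h j)
  have hp1 : (1 : ℝ) < p := by exact_mod_cast hp.out.one_lt
  obtain ⟨j, hj⟩ := exists_pow_lt_of_lt_one (norm_pos_iff.2 h0) (inv_lt_one_of_one_lt₀ hp1)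
  have := h1 j
  rw [zpow_neg, zpow_natCast, ← inv_pow] at this
  exact absurd this (not_le.2 hj)

/-- `x` is the vector of p-adic coordinates of `l`. -/
def Coord (L : AddSubgroup (Fin N → ℚ)) {r : ℕ} (e : Fin r → Fin N → ℚ) (l : Fin N → ℚ)
    (x : Fin r → ℤ_[p]) : Prop :=
  ∀ j : ℕ, ∃ a : Fin r → ℤ, ∃ l' ∈ L, l = ∑ i, a i • e i + ((p : ℤ) ^ j) • l' ∧
    ∀ i, ((p : ℤ_[p]) ^ j) ∣ x i - (a i : ℤ_[p])

lemma int_dvd_cast {a : ℤ} {j : ℕ} (h : ((p : ℤ) ^ j) ∣ a) :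
    ((p : ℤ_[p]) ^ j) ∣ (a : ℤ_[p]) := by
  obtain ⟨c, rfl⟩ := h
  exact ⟨c, by push_cast; ring⟩

lemma int_dvd_of_cast {a : ℤ} {j : ℕ} (h : ((p : ℤ_[p]) ^ j) ∣ (a : ℤ_[p])) :
    ((p : ℤ) ^ j) ∣ a := by
  have h1 : ‖(a : ℤ_[p])‖ ≤ (p : ℝ) ^ (-(j : ℤ)) := by
    rw [PadicInt.norm_le_pow_iff_mem_span_pow]
    exact Ideal.mem_span_singleton.2 h
  have := (PadicInt.norm_int_le_pow_iff_dvd (p := p) (k := a) (n := j)).1 h1
  exact_mod_cast this

variable {L : AddSubgroup (Fin N → ℚ)} {r : ℕ} {e : Fin r → Fin N → ℚ}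

lemma exists_coord (he : Indep p L e) (hs : Spans p L e) {l : Fin N → ℚ} (hl : l ∈ L) :
    ∃ x : Fin r → ℤ_[p], Coord L e l x := by
  have h := fun j => hs.pow j l hl
  choose a l' hl' hal using h
  have h1 : ∀ i j, ((p : ℤ) ^ j) ∣ a (j + 1) i - a j i := by
    intro i j
    refine Indep.pow hp.out he j (fun i => a (j + 1) i - a j i)
      ⟨l' j - (p : ℤ) • l' (j + 1), L.sub_mem (hl' j) (L.zsmul_mem (hl' _) _), ?_⟩ i
    have e1 := hal j
    have e2 := hal (j + 1)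
    simp only [sub_smul, Finset.sum_sub_distrib]
    have e3 : ∑ i, a (j + 1) i • e i = l - ((p : ℤ) ^ (j + 1)) • l' (j + 1) := by
      rw [eq_sub_iff_add_eq]; exact e2.symm
    have e4 : ∑ i, a j i • e i = l - ((p : ℤ) ^ j) • l' j := by
      rw [eq_sub_iff_add_eq]; exact e1.symm
    rw [e3, e4, smul_sub, smul_smul, ← pow_succ]
    abel
  have h2 := fun i => exists_padic_limit (p := p) (fun j => a j i) (h1 i)
  choose x hx using h2
  exact ⟨x, fun j => ⟨a j, l' j, hl' j, hal j, fun i => hx i j⟩⟩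

lemma Coord.unique (he : Indep p L e) {l : Fin N → ℚ} {x y : Fin r → ℤ_[p]}
    (hx : Coord L e l x) (hy : Coord L e l y) : x = y := by
  funext i
  refine padic_eq_of_dvd (fun j => ?_)
  obtain ⟨a, l', hl', h1, h2⟩ := hx j
  obtain ⟨b, l'', hl'', h3, h4⟩ := hy j
  have h5 : ((p : ℤ) ^ j) ∣ a i - b i := by
    refine Indep.pow hp.out he j (fun i => a i - b i) ⟨l'' - l', L.sub_mem hl'' hl', ?_⟩ i
    simp only [sub_smul, Finset.sum_sub_distrib]
    have e3 : ∑ i, a i • e i = l - ((p : ℤ) ^ j) • l' := by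
      rw [eq_sub_iff_add_eq]; exact h1.symm
    have e4 : ∑ i, b i • e i = l - ((p : ℤ) ^ j) • l'' := by
      rw [eq_sub_iff_add_eq]; exact h3.symm
    rw [e3, e4, smul_sub]
    abel
  have h6 := int_dvd_cast (p := p) h5
  have : x i - y i = (x i - (a i : ℤ_[p])) + ((a i - b i : ℤ) : ℤ_[p]) - (y i - (b i : ℤ_[p])) := by
    push_cast; ring
  rw [this]
  exact dvd_sub (dvd_add (h2 i) h6) (h4 i)

lemma Coord.add {l m : Fin N → ℚ} {x y : Fin r → ℤ_[p]}
    (hx : Coord L e l x) (hy : Coord L e m y) : Coord L e (l + m) (x + y) := by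
  intro j
  obtain ⟨a, l', hl', h1, h2⟩ := hx j
  obtain ⟨b, l'', hl'', h3, h4⟩ := hy j
  refine ⟨fun i => a i + b i, l' + l'', L.add_mem hl' hl'', ?_, fun i => ?_⟩
  · rw [h1, h3, smul_add]
    simp only [add_smul, Finset.sum_add_distrib]
    abel
  · have : (x + y) i - ((a i + b i : ℤ) : ℤ_[p]) = (x i - (a i : ℤ_[p])) + (y i - (b i : ℤ_[p])) := by
      simp only [Pi.add_apply]; push_cast; ring
    rw [this]
    exact dvd_add (h2 i) (h4 i)

lemma Coord.zsmul {l : Fin N → ℚ} {x : Fin r → ℤ_[p]}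
    (hx : Coord L e l x) (n : ℤ) : Coord L e (n • l) (fun i => (n : ℤ_[p]) * x i) := by
  intro j
  obtain ⟨a, l', hl', h1, h2⟩ := hx j
  refine ⟨fun i => n * a i, n • l', L.zsmul_mem hl' _, ?_, fun i => ?_⟩
  · rw [h1, smul_add, Finset.smul_sum]
    simp only [smul_smul]
    rw [mul_comm n]
  · have : (n : ℤ_[p]) * x i - ((n * a i : ℤ) : ℤ_[p]) = (n : ℤ_[p]) * (x i - (a i : ℤ_[p])) := by
      push_cast; ring
    rw [this]
    exact Dvd.dvd.mul_left (h2 i) _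

lemma Coord.zero : Coord (p := p) L e 0 (fun _ => 0) := by
  intro j
  exact ⟨fun _ => 0, 0, L.zero_mem, by simp, fun i => by simp⟩

lemma Coord.sum {ι : Type*} (s : Finset ι) {l : ι → Fin N → ℚ} {x : ι → Fin r → ℤ_[p]} (n : ι → ℤ)
    (hx : ∀ k ∈ s, Coord L e (l k) (x k)) :
    Coord L e (∑ k ∈ s, n k • l k) (fun i => ∑ k ∈ s, (n k : ℤ_[p]) * x k i) := by
  classical
  induction s using Finset.induction_on with
  | empty => simpa using Coord.zero (p := p) (L := L) (e := e)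
  | insert k s hk ih =>
    rw [Finset.sum_insert hk]
    have h1 := (hx k (Finset.mem_insert_self _ _)).zsmul (n k)
    have h2 := ih (fun k' hk' => hx k' (Finset.mem_insert_of_mem hk'))
    have h3 := h1.add h2
    refine cast (by congr 1; funext i; simp [Finset.sum_insert hk]) h3

lemma Coord.mem_of_dvd (heL : ∀ i, e i ∈ L) {l : Fin N → ℚ} {x : Fin r → ℤ_[p]}
    (hx : Coord L e l x) {j : ℕ} (h : ∀ i, ((p : ℤ_[p]) ^ j) ∣ x i) :
    ∃ l' ∈ L, l = ((p : ℤ) ^ j) • l' := by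
  obtain ⟨a, l', hl', h1, h2⟩ := hx j
  have h3 : ∀ i, ((p : ℤ) ^ j) ∣ a i := by
    intro i
    apply int_dvd_of_cast (p := p)
    have : (a i : ℤ_[p]) = x i - (x i - (a i : ℤ_[p])) := by ring
    rw [this]
    exact dvd_sub (h i) (h2 i)
  choose c hc using h3
  refine ⟨∑ i, c i • e i + l', L.add_mem (sum_mem heL c) hl', ?_⟩
  rw [h1, smul_add, Finset.smul_sum]
  congr 1
  refine Finset.sum_congr rfl (fun i _ => ?_)
  rw [smul_smul, ← hc i]

end Padic

end Pool.Agent.LIN
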