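import Pool.Agent.Helper39.CJ.Lin

/-!
# Orbits of unipotent groups with a logarithmic lattice
-/

set_option autoImplicit false

namespace Pool.Agent.NP

open Finset Pool.Agent.LIN

variable {n : ℕ}

/-- Truncated exponential. -/
noncomputable def E (c : ℕ) (X : Matrix (Fin n) (Fin n) ℚ) : Matrix (Fin n) (Fin n) ℚ :=
  ∑ k ∈ range c, ((k.factorial : ℚ)⁻¹) • X ^ k

lemma c_pow {α : Type*} [Primcodable α] {f : α → Matrix (Fin n) (Fin n) ℚ} (hf : Computable f)
    (k : ℕ) : Computable (fun a => f a ^ k) := by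
  induction k with
  | zero => exact (Computable.const 1).of_eq (fun a => by simp)
  | succ k ih => exact (CQ.c_mmul ih hf).of_eq (fun a => by rw [pow_succ])

lemma c_msum {α ι : Type*} [Primcodable α] (s : Finset ι)
    {f : ι → α → Matrix (Fin n) (Fin n) ℚ} (hf : ∀ i ∈ s, Computable (f i)) :
    Computable (fun a => ∑ i ∈ s, f i a) := by
  classical
  induction s using Finset.induction_on with
  | empty => exact (Computable.const 0).of_eq (fun a => by simp)
  | insert i s hi ih =>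
    exact (CQ.c_madd (hf i (Finset.mem_insert_self _ _))
      (ih (fun j hj => hf j (Finset.mem_insert_of_mem hj)))).of_eq
        (fun a => by rw [Finset.sum_insert hi])

lemma c_E {α : Type*} [Primcodable α] {f : α → Matrix (Fin n) (Fin n) ℚ} (hf : Computable f)
    (c : ℕ) : Computable (fun a => E c (f a)) := by
  unfold E
  exact c_msum _ (fun k _ => CQ.c_smul (Computable.const _) (c_pow hf k))

/-- Membership in a fixed subspace is computable. -/
lemma cp_mem {α : Type*} [Primcodable α] (V : Submodule ℚ (Fin n → ℚ)) {v : α → Fin n → ℚ}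
    (hv : Computable v) : ComputablePred (fun a => v a ∈ V) := by
  have h := CQ.cp_linear (α := α) (K := (Fin n → ℚ) ⧸ V)
    (fun j : Fin n => Submodule.Quotient.mk (p := V) (Pi.single j 1 : Fin n → ℚ))
    (q := fun j a => v a j) (fun j => CQ.c_app hv j)
  refine h.of_eq (fun a => ?_)
  have h1 : ∑ j, v a j • Submodule.Quotient.mk (p := V) (Pi.single j 1 : Fin n → ℚ) =
      Submodule.Quotient.mk (p := V) (v a) := by
    have h2 : v a = ∑ j, v a j • (Pi.single j 1 : Fin n → ℚ) := by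
      funext i
      simp [Finset.sum_apply, Pi.single_apply]
    conv_rhs => rw [h2]
    exact (map_sum V.mkQ (fun j => v a j • (Pi.single j 1 : Fin n → ℚ)) Finset.univ).symm
  rw [h1]
  exact Submodule.Quotient.mk_eq_zero V

/-- A subspace is the kernel of a rational matrix. -/
lemma exists_ker (V : Submodule ℚ (Fin n → ℚ)) :
    ∃ m : ℕ, ∃ F : Matrix (Fin m) (Fin n) ℚ, ∀ v, F.mulVec v = 0 ↔ v ∈ V := by
  let b := Module.finBasis ℚ ((Fin n → ℚ) ⧸ V)
  let φ : (Fin n → ℚ) →ₗ[ℚ] (Fin (Module.finrank ℚ ((Fin n → ℚ) ⧸ V)) → ℚ) :=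
    b.equivFun.toLinearMap ∘ₗ V.mkQ
  refine ⟨_, LinearMap.toMatrix' φ, fun v => ?_⟩
  rw [LinearMap.toMatrix'_mulVec]
  simp only [φ, LinearMap.comp_apply, LinearEquiv.coe_coe]
  rw [LinearEquiv.map_eq_zero_iff, Submodule.mkQ_apply, Submodule.Quotient.mk_eq_zero]

/-- The lattice data needed for the orbit problem. -/
structure Lat (n : ℕ) where
  L : AddSubgroup (Matrix (Fin n) (Fin n) ℚ)
  c : ℕ
  V : ℕ → Submodule ℚ (Fin n → ℚ)
  hV0 : V 0 = ⊤
  hVc : V c = ⊥
  hVanti : ∀ i, V (i + 1) ≤ V i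
  hVL : ∀ X ∈ L, ∀ i, ∀ v ∈ V i, X.mulVec v ∈ V (i + 1)
  re : REPred (fun X : Matrix (Fin n) (Fin n) ℚ => X ∈ L)
  s : ℕ
  hs : 0 < s
  den : ∀ X ∈ L, ∀ i j, InR s (X i j)
  mul : ∀ X ∈ L, ∀ Y ∈ L, ∃ Z ∈ L, E c X * E c Y = E c Z
  inv : ∀ X ∈ L, E c (-X) * E c X = 1

namespace Lat

variable (D : Lat n)

lemma V_le {i j : ℕ} (h : i ≤ j) : D.V j ≤ D.V i := by
  induction j, h using Nat.le_induction with
  | base => exact le_refl _
  | succ j _ ih => exact (D.hVanti j).trans ih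

lemma pow_mem {X : Matrix (Fin n) (Fin n) ℚ} (hX : X ∈ D.L) {i : ℕ} {v : Fin n → ℚ}
    (hv : v ∈ D.V i) (k : ℕ) : (X ^ k).mulVec v ∈ D.V (i + k) := by
  induction k with
  | zero => simpa using hv
  | succ k ih =>
    rw [pow_succ', ← Matrix.mulVec_mulVec, ← add_assoc]
    exact D.hVL X hX _ _ ih

lemma E_sub {X : Matrix (Fin n) (Fin n) ℚ} (hX : X ∈ D.L) {i : ℕ} {v : Fin n → ℚ}
    (hv : X.mulVec v ∈ D.V i) : (E D.c X).mulVec v - v - X.mulVec v ∈ D.V (i + 1) := by
  rcases Nat.lt_or_ge D.c 2 with hc | hc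
  · -- everything is zero
    have h1 : D.V 1 = ⊥ := by
      rcases Nat.lt_or_ge D.c 1 with h0 | h0
      · have h2 : D.c = 0 := by omega
        have h3 := D.hVc
        rw [h2] at h3
        exact le_bot_iff.1 ((D.hVanti 0).trans h3.le)
      · have h2 : D.c = 1 := by omega
        have h3 := D.hVc
        rwa [h2] at h3
    have h4 : X.mulVec v = 0 := by
      have := D.hVL X hX 0 v (by rw [D.hV0]; trivial)
      rw [h1] at this
      exact (Submodule.mem_bot ℚ).1 this
    rcases Nat.lt_or_ge D.c 1 with h0 | h0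
    · -- c = 0 : then V = 0
      have h2 : D.c = 0 := by omega
      have h3 := D.hVc
      rw [h2, D.hV0] at h3
      have h5 : ∀ w : Fin n → ℚ, w = 0 := by
        intro w
        have : w ∈ (⊥ : Submodule ℚ (Fin n → ℚ)) := by rw [← h3]; trivial
        exact (Submodule.mem_bot ℚ).1 this
      rw [h5 ((E D.c X).mulVec v - v - X.mulVec v)]
      exact Submodule.zero_mem _
    · have h2 : D.c = 1 := by omega
      rw [h2]
      simp only [E, Finset.sum_range_one, Nat.factorial_zero, Nat.cast_one, inv_one, pow_zero,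
        one_smul, Matrix.one_mulVec, sub_self, zero_sub]
      rw [h4, neg_zero]
      exact Submodule.zero_mem _
  · obtain ⟨c', hc'⟩ : ∃ c', D.c = c' + 2 := ⟨D.c - 2, by omega⟩
    have h1 : (E D.c X).mulVec v - v - X.mulVec v =
        ∑ k ∈ range c', (((k + 2).factorial : ℚ)⁻¹) • (X ^ (k + 1)).mulVec (X.mulVec v) := by
      rw [hc']
      unfold E
      rw [Finset.sum_range_succ', Finset.sum_range_succ']
      simp only [Matrix.add_mulVec, Matrix.sum_mulVec, Matrix.smul_mulVec]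
      simp only [Nat.factorial_zero, Nat.cast_one, inv_one, pow_zero, one_smul,
        Matrix.one_mulVec, zero_add, Nat.factorial_one, pow_one]
      have h2 : ∀ k, (X ^ (k + 1)).mulVec (X.mulVec v) = (X ^ (k + 1 + 1)).mulVec v := by
        intro k
        rw [Matrix.mulVec_mulVec, ← pow_succ]
      simp only [h2]
      abel
    rw [h1]
    refine Submodule.sum_mem _ (fun k _ => Submodule.smul_mem _ _ ?_)
    have := D.pow_mem hX hv (k + 1)
    exact D.V_le (by omega) this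

lemma unit_mem {X : Matrix (Fin n) (Fin n) ℚ} (hX : X ∈ D.L) {i : ℕ} {v : Fin n → ℚ}
    (hv : (E D.c X).mulVec v - v ∈ D.V i) : X.mulVec v ∈ D.V i := by
  -- descending: X v ∈ V j for all j ≤ i
  have h : ∀ j, j ≤ i → X.mulVec v ∈ D.V j := by
    intro j
    induction j with
    | zero => intro _; rw [D.hV0]; trivial
    | succ j ih =>
      intro hj
      have h1 := D.E_sub hX (ih (by omega))
      have h2 : (E D.c X).mulVec v - v ∈ D.V (j + 1) := D.V_le hj hv
      have h3 := Submodule.sub_mem _ h2 h1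
      have h4 : (E D.c X).mulVec v - v - ((E D.c X).mulVec v - v - X.mulVec v) = X.mulVec v := by
        abel
      rwa [h4] at h3
  exact h i (le_refl i)

/-- The orbit relation of `exp L`. -/
def Orb (v w : Fin n → ℚ) : Prop := ∃ X ∈ D.L, (E D.c X).mulVec v = w

lemma E_zero_mulVec (v : Fin n → ℚ) : (E D.c (0 : Matrix (Fin n) (Fin n) ℚ)).mulVec v = v := by
  have h1 := D.E_sub D.L.zero_mem (i := D.c) (v := v) (by simp)
  have h2 : D.V (D.c + 1) = ⊥ := le_bot_iff.1 ((D.hVanti _).trans D.hVc.le)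
  rw [h2, Submodule.mem_bot, Matrix.zero_mulVec, sub_zero] at h1
  exact sub_eq_zero.1 h1

lemma orb_move {X : Matrix (Fin n) (Fin n) ℚ} (hX : X ∈ D.L) (v w : Fin n → ℚ) :
    D.Orb ((E D.c X).mulVec v) w ↔ D.Orb v w := by
  constructor
  · rintro ⟨Y, hY, h⟩
    obtain ⟨Z, hZ, hZ'⟩ := D.mul Y hY X hX
    exact ⟨Z, hZ, by rw [← hZ', ← Matrix.mulVec_mulVec]; exact h⟩
  · rintro ⟨Y, hY, h⟩
    obtain ⟨Z, hZ, hZ'⟩ := D.mul Y hY (-X) (D.L.neg_mem hX)
    refine ⟨Z, hZ, ?_⟩
    rw [← hZ', Matrix.mulVec_mulVec, Matrix.mul_assoc, D.inv X hX, Matrix.mul_one]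
    exact h

/-- Coordinates on the lattice. -/
lemma exists_coords : ∃ N : ℕ, ∃ B : Fin N → Matrix (Fin n) (Fin n) ℚ,
    ∃ L' : AddSubgroup (Fin N → ℚ), (∀ i, (Pi.single i 1 : Fin N → ℚ) ∈ L') ∧
      (∃ s : ℕ, 0 < s ∧ ∀ l ∈ L', ∃ j : ℕ, ∀ i, ∃ z : ℤ, (s : ℚ) ^ j * l i = z) ∧
      REPred (fun v : Fin N → ℚ => v ∈ L') ∧
      (∀ X, X ∈ D.L ↔ ∃ l ∈ L', X = ∑ k, l k • B k) := by
  classical
  obtain ⟨N, B, hB1, hB2, hB3⟩ : ∃ N : ℕ, ∃ B : Fin N → Matrix (Fin n) (Fin n) ℚ,
      (∀ i, B i ∈ D.L) ∧ Submodule.span ℚ (Set.range B) =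
        Submodule.span ℚ (D.L : Set (Matrix (Fin n) (Fin n) ℚ)) ∧ LinearIndependent ℚ B :=
    ⟨_, Submodule.exists_fun_fin_finrank_span_eq ℚ (D.L : Set (Matrix (Fin n) (Fin n) ℚ))⟩
  let φ : (Fin N → ℚ) →ₗ[ℚ] Matrix (Fin n) (Fin n) ℚ := Fintype.linearCombination ℚ B
  have hφ : ∀ l, φ l = ∑ k, l k • B k := fun l => by
    simp [φ, Fintype.linearCombination_apply]
  have hφinj : Function.Injective φ := by
    rw [← LinearMap.ker_eq_bot, LinearMap.ker_eq_bot']
    intro l hl
    rw [hφ] at hl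
    funext i
    exact Fintype.linearIndependent_iff.1 hB3 l hl i
  obtain ⟨T, hT⟩ := LinearMap.exists_leftInverse_of_injective φ (LinearMap.ker_eq_bot.2 hφinj)
  let L' : AddSubgroup (Fin N → ℚ) := D.L.comap φ.toAddMonoidHom
  have hL' : ∀ l, l ∈ L' ↔ ∑ k, l k • B k ∈ D.L := by
    intro l
    rw [← hφ]
    rfl
  refine ⟨N, B, L', ?_, ?_, ?_, ?_⟩
  · intro i
    rw [hL']
    have : ∑ k, (Pi.single i 1 : Fin N → ℚ) k • B k = B i := by
      rw [Finset.sum_eq_single i]
      · simp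
      · intro b _ hb; simp [hb]
      · simp
    rw [this]
    exact hB1 i
  · -- denominators
    obtain ⟨d, hd, hdz⟩ := exists_den (fun q : Fin N × (Fin n × Fin n) =>
      T (Matrix.single q.2.1 q.2.2 1) q.1)
    refine ⟨D.s * d, Nat.mul_pos D.hs hd, fun l hl => ?_⟩
    have hX := (hL' l).1 hl
    have h1 : ∀ k, InR (D.s * d) (l k) := by
      intro k
      have h2 : l = T (∑ k, l k • B k) := by
        rw [← hφ]
        have := congrArg (fun ψ => ψ l) hT
        simpa using this.symm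
      set X := ∑ k, l k • B k with hXdef
      have h3 : l k = ∑ i, ∑ j, X i j * T (Matrix.single i j 1) k := by
        have h4 : X = ∑ i, ∑ j, X i j • Matrix.single i j (1 : ℚ) := by
          conv_lhs => rw [Matrix.matrix_eq_sum_single X]
          refine Finset.sum_congr rfl (fun i _ => Finset.sum_congr rfl (fun j _ => ?_))
          rw [Matrix.smul_single, smul_eq_mul, mul_one]
        have h5 : T X = ∑ i, ∑ j, X i j • T (Matrix.single i j (1 : ℚ)) := by
          conv_lhs => rw [h4]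
          simp only [map_sum, map_smul]
        rw [h2, h5]
        simp only [Finset.sum_apply, Pi.smul_apply, smul_eq_mul]
      rw [h3]
      refine InR.sum _ (fun i _ => InR.sum _ (fun j _ => InR.mul ?_ ?_))
      · obtain ⟨a, z, hz⟩ := D.den X hX i j
        refine ⟨a, (d : ℤ) ^ a * z, ?_⟩
        push_cast
        rw [mul_pow, ← hz]; ring
      · obtain ⟨z, hz⟩ := hdz (k, (i, j))
        refine ⟨1, D.s * z, ?_⟩
        push_cast
        rw [← hz]; ring
    obtain ⟨j, hj⟩ := exists_den_pow l h1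
    exact ⟨j, hj⟩
  · have h1 : Computable (fun l : Fin N → ℚ => ∑ k, l k • B k) :=
      c_msum Finset.univ (fun k _ => CQ.c_smul (CQ.c_app Computable.id k) (Computable.const _))
    exact (CQ.re_comp D.re h1).of_eq (fun l => (hL' l).symm)
  · intro X
    constructor
    · intro hX
      have h1 : X ∈ Submodule.span ℚ (Set.range B) := by
        rw [hB2]
        exact Submodule.subset_span hX
      obtain ⟨l, hl⟩ := (Submodule.mem_span_range_iff_exists_fun ℚ).1 h1
      refine ⟨l, ?_, hl.symm⟩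
      rw [hL', hl]
      exact hX
    · rintro ⟨l, hl, rfl⟩
      exact (hL' l).1 hl

/-- Unsolvability of one linear step is r.e. -/
lemma step_re (i : ℕ) : REPred (fun p : (Fin n → ℚ) × (Fin n → ℚ) =>
    ¬ ∃ X ∈ D.L, p.2 - p.1 - X.mulVec p.1 ∈ D.V (i + 1)) := by
  obtain ⟨N, B, L', h1, ⟨s, hs, h2⟩, h3, h4⟩ := D.exists_coords
  obtain ⟨m, F, hF⟩ := exists_ker (D.V (i + 1))
  have h5 := lin_not_re (m := m) L' h1 s hs h2 h3
  let Mv : (Fin n → ℚ) → Matrix (Fin m) (Fin N) ℚ :=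
    fun v => Matrix.of (fun a k => F.mulVec ((B k).mulVec v) a)
  have hMv : Computable Mv := by
    refine CQ.c_matrix (fun a k => ?_)
    exact CQ.c_app (CQ.c_mulVec (Computable.const _)
      (CQ.c_mulVec (Computable.const _) Computable.id)) a
  have h6 := CQ.re_comp h5 (f := fun p : (Fin n → ℚ) × (Fin n → ℚ) =>
    (Mv p.1, F.mulVec (p.2 - p.1))) ((hMv.comp Computable.fst).pair
      (CQ.c_mulVec (Computable.const _) (CQ.c_vsub Computable.snd Computable.fst)))
  refine h6.of_eq (fun p => not_congr ?_)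
  have h7 : ∀ l : Fin N → ℚ, (Mv p.1).mulVec l = F.mulVec ((∑ k, l k • B k).mulVec p.1) := by
    intro l
    rw [Matrix.sum_mulVec, Matrix.mulVec_sum]
    funext a
    simp only [Mv, Matrix.mulVec, dotProduct, Matrix.of_apply, Finset.sum_apply]
    refine Finset.sum_congr rfl (fun k _ => ?_)
    simp only [Matrix.smul_apply, smul_eq_mul]
    rw [Finset.sum_mul]
    refine Finset.sum_congr rfl (fun b _ => ?_)
    rw [mul_assoc, Finset.sum_mul]
    congr 1
    refine Finset.sum_congr rfl (fun d _ => ?_)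
    ring
  constructor
  · rintro ⟨l, hl, hl'⟩
    refine ⟨∑ k, l k • B k, (h4 _).2 ⟨l, hl, rfl⟩, ?_⟩
    rw [← hF, Matrix.mulVec_sub, ← h7 l]
    simp only at hl'
    rw [hl', sub_self]
  · rintro ⟨X, hX, hX'⟩
    obtain ⟨l, hl, rfl⟩ := (h4 X).1 hX
    refine ⟨l, hl, ?_⟩
    rw [← hF, Matrix.mulVec_sub, sub_eq_zero] at hX'
    simp only
    rw [h7 l, hX']

theorem not_orb_re_aux (k : ℕ) : ∀ i, i + k = D.c → REPred (fun p : (Fin n → ℚ) × (Fin n → ℚ) =>
    p.2 - p.1 ∈ D.V i ∧ ¬ D.Orb p.1 p.2) := by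
  induction k with
  | zero =>
    intro i hi
    refine CQ.re_false.of_eq (fun p => ?_)
    constructor
    · exact False.elim
    · rintro ⟨h1, h2⟩
      have hi' : i = D.c := by omega
      rw [hi', D.hVc, Submodule.mem_bot, sub_eq_zero] at h1
      exact h2 ⟨0, D.L.zero_mem, by rw [D.E_zero_mulVec, h1]⟩
  | succ k ih =>
    intro i hi
    have h1 := ih (i + 1) (by omega)
    have h2 : REPred (fun p : (Fin n → ℚ) × (Fin n → ℚ) => p.2 - p.1 ∈ D.V i ∧
        ((¬ ∃ X ∈ D.L, p.2 - p.1 - X.mulVec p.1 ∈ D.V (i + 1)) ∨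
          ∃ X : Matrix (Fin n) (Fin n) ℚ, X ∈ D.L ∧ X.mulVec p.1 ∈ D.V i ∧
            (p.2 - (E D.c X).mulVec p.1 ∈ D.V (i + 1) ∧ ¬ D.Orb ((E D.c X).mulVec p.1) p.2))) := by
      refine CQ.re_and (cp_mem _ (CQ.c_vsub Computable.snd Computable.fst)).to_re
        (CQ.re_or (D.step_re i) (CQ.re_exists (CQ.re_and ?_ (CQ.re_and ?_ ?_))))
      · exact CQ.re_comp D.re Computable.snd
      · exact (cp_mem _ (CQ.c_mulVec Computable.snd (Computable.fst.comp Computable.fst))).to_re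
      · exact CQ.re_comp h1 (f := fun z : ((Fin n → ℚ) × (Fin n → ℚ)) × Matrix (Fin n) (Fin n) ℚ =>
          ((E D.c z.2).mulVec z.1.1, z.1.2)) ((CQ.c_mulVec (c_E Computable.snd _)
            (Computable.fst.comp Computable.fst)).pair (Computable.snd.comp Computable.fst))
    refine h2.of_eq (fun p => ?_)
    constructor
    · rintro ⟨h3, h4⟩
      refine ⟨h3, ?_⟩
      rintro ⟨Y, hY, hYw⟩
      rcases h4 with h4 | ⟨X, hX, _, _, h5⟩
      · have h6 : Y.mulVec p.1 ∈ D.V i := D.unit_mem hY (by rw [hYw]; exact h3)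
        apply h4
        refine ⟨Y, hY, ?_⟩
        have h7 := D.E_sub hY h6
        rwa [hYw] at h7
      · exact h5 ((D.orb_move hX _ _).2 ⟨Y, hY, hYw⟩)
    · rintro ⟨h3, h4⟩
      refine ⟨h3, ?_⟩
      by_cases h5 : ∃ X ∈ D.L, p.2 - p.1 - X.mulVec p.1 ∈ D.V (i + 1)
      · right
        obtain ⟨X, hX, hX'⟩ := h5
        have h6 : X.mulVec p.1 ∈ D.V i := by
          have h7 := Submodule.sub_mem _ h3 (D.hVanti i hX')
          have h8 : p.2 - p.1 - (p.2 - p.1 - X.mulVec p.1) = X.mulVec p.1 := by abel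
          rwa [h8] at h7
        refine ⟨X, hX, h6, ?_, fun h9 => h4 ((D.orb_move hX _ _).1 h9)⟩
        have h7 := Submodule.sub_mem _ hX' (D.E_sub hX h6)
        have h8 : p.2 - p.1 - X.mulVec p.1 - ((E D.c X).mulVec p.1 - p.1 - X.mulVec p.1) =
            p.2 - (E D.c X).mulVec p.1 := by abel
        rwa [h8] at h7
      · left; exact h5

/-- Non-membership in an orbit of `exp L` is r.e. -/
theorem not_orb_re : REPred (fun p : (Fin n → ℚ) × (Fin n → ℚ) => ¬ D.Orb p.1 p.2) := by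
  refine (D.not_orb_re_aux D.c 0 (by omega)).of_eq (fun p => ?_)
  rw [D.hV0]
  simp

theorem orb_re : REPred (fun p : (Fin n → ℚ) × (Fin n → ℚ) => D.Orb p.1 p.2) := by
  unfold Orb
  refine CQ.re_exists (β := Matrix (Fin n) (Fin n) ℚ) (CQ.re_and ?_ ?_)
  · exact CQ.re_comp D.re Computable.snd
  · exact CQ.re_eq (CQ.c_mulVec (c_E Computable.snd _) (Computable.fst.comp Computable.fst))
      (Computable.snd.comp Computable.fst)

theorem orb_computable :
    ComputablePred (fun p : (Fin n → ℚ) × (Fin n → ℚ) => D.Orb p.1 p.2) :=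
  CQ.computable_of_re D.orb_re D.not_orb_re

end Lat

end Pool.Agent.NP
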