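import Pool.Agent.Helper39.CJ.NP

/-!
# Primitive recursive matrix operations, words, r.e. closures
-/

set_option autoImplicit false

namespace Pool.Agent.CQ

open Finset

section Prim

variable {α σ : Type*} [Primcodable α] [Primcodable σ]

theorem pr_pi {n : ℕ} {f : α → Fin n → σ} (hf : ∀ i, Primrec (fun a => f a i)) : Primrec f := by
  have h1 : Primrec (fun a => List.Vector.ofFn fun i => f a i) :=
    Primrec.vector_ofFn (f := fun i a => f a i) hf
  have h2 : Primrec (@List.Vector.get σ n) := Primrec.vector_get'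
  exact (h2.comp h1).of_eq (fun a => by funext i; simp)

theorem pr_app {n : ℕ} {f : α → Fin n → σ} (hf : Primrec f) (i : Fin n) :
    Primrec (fun a => f a i) :=
  Primrec.fin_app.comp hf (Primrec.const i)

lemma pr_qsum {ι : Type*} [Fintype ι] {f : ι → α → ℚ} (hf : ∀ i, Primrec (f i)) :
    Primrec (fun a => ∑ i, f i a) := by
  classical
  have h : ∀ s : Finset ι, Primrec (fun a => ∑ i ∈ s, f i a) := by
    intro s
    induction s using Finset.induction_on with
    | empty => exact (Primrec.const 0).of_eq (fun a => by simp)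
    | insert i s hi ih =>
      exact (pr_qadd (hf i) ih).of_eq (fun a => by rw [Finset.sum_insert hi])
  exact h Finset.univ

theorem pr_matrix {m n : ℕ} {f : α → Matrix (Fin m) (Fin n) σ}
    (hf : ∀ i j, Primrec (fun a => f a i j)) : Primrec f :=
  pr_pi (σ := Fin n → σ) (f := f) (fun i => pr_pi (fun j => hf i j))

theorem pr_entry {m n : ℕ} {f : α → Matrix (Fin m) (Fin n) σ} (hf : Primrec f)
    (i : Fin m) (j : Fin n) : Primrec (fun a => f a i j) :=
  pr_app (f := fun a => f a i) (pr_app (σ := Fin n → σ) (f := f) hf i) j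

theorem pr_mmul {l m n : ℕ} {f : α → Matrix (Fin l) (Fin m) ℚ} {g : α → Matrix (Fin m) (Fin n) ℚ}
    (hf : Primrec f) (hg : Primrec g) : Primrec (fun a => f a * g a) := by
  refine pr_matrix (fun i j => ?_)
  simp only [Matrix.mul_apply]
  exact pr_qsum (fun k => pr_qmul (pr_entry hf i k) (pr_entry hg k j))

theorem pr_madd {m n : ℕ} {f g : α → Matrix (Fin m) (Fin n) ℚ}
    (hf : Primrec f) (hg : Primrec g) : Primrec (fun a => f a + g a) := by
  refine pr_matrix (fun i j => ?_)
  simp only [Matrix.add_apply]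
  exact pr_qadd (pr_entry hf i j) (pr_entry hg i j)

theorem pr_msmul {m n : ℕ} {c : α → ℚ} {f : α → Matrix (Fin m) (Fin n) ℚ}
    (hc : Primrec c) (hf : Primrec f) : Primrec (fun a => c a • f a) := by
  refine pr_matrix (fun i j => ?_)
  simp only [Matrix.smul_apply, smul_eq_mul]
  exact pr_qmul hc (pr_entry hf i j)

theorem pr_mzsmul {m n : ℕ} {c : α → ℤ} {f : α → Matrix (Fin m) (Fin n) ℚ}
    (hc : Primrec c) (hf : Primrec f) : Primrec (fun a => c a • f a) :=
  (pr_msmul (pr_ratCast hc) hf).of_eq (fun a => by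
    ext i j
    simp)

/-- products of lists of matrices -/
theorem pr_listProd {n : ℕ} :
    Primrec (fun l : List (Matrix (Fin n) (Fin n) ℚ) => l.prod) := by
  have h : Primrec (fun l : List (Matrix (Fin n) (Fin n) ℚ) =>
      l.foldr (fun b acc => b * acc) 1) := by
    refine Primrec.list_foldr (f := fun l : List (Matrix (Fin n) (Fin n) ℚ) => l)
      (g := fun _ => 1)
      (h := fun (_ : List (Matrix (Fin n) (Fin n) ℚ))
        (p : Matrix (Fin n) (Fin n) ℚ × Matrix (Fin n) (Fin n) ℚ) => p.1 * p.2) ?_ ?_ ?_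
    · exact Primrec.id
    · exact Primrec.const 1
    · exact pr_mmul (Primrec.fst.comp Primrec.snd) (Primrec.snd.comp Primrec.snd)
  exact h.of_eq (fun l => rfl)

/-- sums of lists of matrices -/
theorem pr_listSum {m n : ℕ} :
    Primrec (fun l : List (Matrix (Fin m) (Fin n) ℚ) => l.sum) := by
  have h : Primrec (fun l : List (Matrix (Fin m) (Fin n) ℚ) =>
      l.foldr (fun b acc => b + acc) 0) := by
    refine Primrec.list_foldr (f := fun l : List (Matrix (Fin m) (Fin n) ℚ) => l)
      (g := fun _ => 0)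
      (h := fun (_ : List (Matrix (Fin m) (Fin n) ℚ))
        (p : Matrix (Fin m) (Fin n) ℚ × Matrix (Fin m) (Fin n) ℚ) => p.1 + p.2) ?_ ?_ ?_
    · exact Primrec.id
    · exact Primrec.const 0
    · exact pr_madd (Primrec.fst.comp Primrec.snd) (Primrec.snd.comp Primrec.snd)
  exact h.of_eq (fun l => rfl)

theorem pr_listMap {β γ : Type*} [Primcodable β] [Primcodable γ] {g : β → γ} (hg : Primrec g) :
    Primrec (fun l : List β => l.map g) :=
  Primrec.list_map Primrec.id (hg.comp Primrec.snd)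

/-- Evaluation of words in a finite family of invertible matrices. -/
def wev {n k : ℕ} (s : Fin k → GL (Fin n) ℚ) (w : List (Fin k × Bool)) : GL (Fin n) ℚ :=
  (w.map (fun p => if p.2 then s p.1 else (s p.1)⁻¹)).prod

theorem pr_wev {n k : ℕ} (s : Fin k → GL (Fin n) ℚ) :
    Primrec (fun w : List (Fin k × Bool) => (wev s w : Matrix (Fin n) (Fin n) ℚ)) := by
  have h1 : Primrec (fun p : Fin k × Bool =>
      ((if p.2 then s p.1 else (s p.1)⁻¹ : GL (Fin n) ℚ) : Matrix (Fin n) (Fin n) ℚ)) :=
    Primrec.dom_finite _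
  have h2 := pr_listProd.comp (pr_listMap h1)
  refine h2.of_eq (fun w => ?_)
  unfold wev
  have h3 := map_list_prod (Units.coeHom (Matrix (Fin n) (Fin n) ℚ))
    (w.map (fun p => if p.2 then s p.1 else (s p.1)⁻¹))
  rw [List.map_map] at h3
  exact h3.symm

theorem wev_append {n k : ℕ} (s : Fin k → GL (Fin n) ℚ) (w w' : List (Fin k × Bool)) :
    wev s (w ++ w') = wev s w * wev s w' := by
  unfold wev
  rw [List.map_append, List.prod_append]

theorem wev_mem {n k : ℕ} (s : Fin k → GL (Fin n) ℚ) (w : List (Fin k × Bool)) :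
    wev s w ∈ Subgroup.closure (Set.range s) := by
  unfold wev
  refine Subgroup.list_prod_mem _ ?_
  intro x hx
  obtain ⟨p, _, rfl⟩ := List.mem_map.1 hx
  split_ifs
  · exact Subgroup.subset_closure ⟨_, rfl⟩
  · exact Subgroup.inv_mem _ (Subgroup.subset_closure ⟨_, rfl⟩)

theorem mem_closure_iff_wev {n k : ℕ} (s : Fin k → GL (Fin n) ℚ) (x : GL (Fin n) ℚ) :
    x ∈ Subgroup.closure (Set.range s) ↔ ∃ w, wev s w = x := by
  constructor
  · intro hx
    refine Subgroup.closure_induction (p := fun x _ => ∃ w, wev s w = x) ?_ ?_ ?_ ?_ hx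
    · rintro _ ⟨i, rfl⟩
      exact ⟨[(i, true)], by simp [wev]⟩
    · exact ⟨[], by simp [wev]⟩
    · rintro a b _ _ ⟨w, rfl⟩ ⟨w', rfl⟩
      exact ⟨w ++ w', wev_append s w w'⟩
    · rintro a _ ⟨w, rfl⟩
      refine ⟨(w.map (fun p => (p.1, !p.2))).reverse, ?_⟩
      have key : ∀ w : List (Fin k × Bool),
          wev s (w.map (fun p => (p.1, !p.2))).reverse = (wev s w)⁻¹ := by
        intro w
        induction w with
        | nil => simp [wev]
        | cons p w ih =>
          rw [List.map_cons, List.reverse_cons, wev_append, ih]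
          have h1 : wev s (p :: w) = wev s [p] * wev s w := wev_append s [p] w
          rw [h1, mul_inv_rev]
          congr 1
          obtain ⟨i, b⟩ := p
          cases b <;> simp [wev]
      exact key w
  · rintro ⟨w, rfl⟩
    exact wev_mem s w

/-- A finitely generated subgroup of `GL n ℚ` is the set of values of words. -/
theorem exists_gens {n : ℕ} {G : Subgroup (GL (Fin n) ℚ)} (hG : G.FG) :
    ∃ k : ℕ, ∃ s : Fin k → GL (Fin n) ℚ, (∀ i, s i ∈ G) ∧ ∀ x, x ∈ G ↔ ∃ w, wev s w = x := by
  obtain ⟨S, hS⟩ := hG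
  let e := S.equivFin
  let s : Fin S.card → GL (Fin n) ℚ := fun i => (e.symm i : GL (Fin n) ℚ)
  have hr : Set.range s = (S : Set (GL (Fin n) ℚ)) := by
    ext x
    constructor
    · rintro ⟨i, rfl⟩; exact (e.symm i).2
    · intro hx; exact ⟨e ⟨x, hx⟩, by simp [s]⟩
  refine ⟨S.card, s, fun i => ?_, fun x => ?_⟩
  · rw [← hS]; exact Subgroup.subset_closure (e.symm i).2
  · rw [← mem_closure_iff_wev, hr, hS]

theorem re_fg {n : ℕ} {G : Subgroup (GL (Fin n) ℚ)} (hG : G.FG) :
    REPred (fun A : Matrix (Fin n) (Fin n) ℚ => ∃ x ∈ G, (x : Matrix (Fin n) (Fin n) ℚ) = A) := by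
  obtain ⟨k, s, _, hs⟩ := exists_gens hG
  have h : REPred (fun A : Matrix (Fin n) (Fin n) ℚ => ∃ w : List (Fin k × Bool),
      (wev s w : Matrix (Fin n) (Fin n) ℚ) = A) :=
    re_exists (re_eq ((pr_wev s).to_comp.comp Computable.snd) Computable.fst)
  refine h.of_eq (fun A => ?_)
  constructor
  · rintro ⟨w, hw⟩; exact ⟨wev s w, (hs _).2 ⟨w, rfl⟩, hw⟩
  · rintro ⟨x, hx, hxA⟩
    obtain ⟨w, rfl⟩ := (hs x).1 hx
    exact ⟨w, hxA⟩

/-- The additive closure of an r.e. set of matrices is r.e. -/
theorem re_addClosure {n : ℕ} {S : Set (Matrix (Fin n) (Fin n) ℚ)}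
    (hS : REPred (fun X => X ∈ S)) : REPred (fun X => X ∈ AddSubgroup.closure S) := by
  have h : REPred (fun X : Matrix (Fin n) (Fin n) ℚ => ∃ l : List (ℤ × Matrix (Fin n) (Fin n) ℚ),
      (∀ p ∈ l, p.2 ∈ S) ∧ (l.map (fun p => p.1 • p.2)).sum = X) := by
    refine re_exists (re_and ?_ (re_eq ?_ Computable.fst))
    · exact re_forall_list (R := fun (_ : Matrix (Fin n) (Fin n) ℚ ×
        List (ℤ × Matrix (Fin n) (Fin n) ℚ)) (p : ℤ × Matrix (Fin n) (Fin n) ℚ) => p.2 ∈ S)
        (re_comp hS (Computable.snd.comp Computable.snd)) Computable.snd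
    · have h1 : Primrec (fun p : ℤ × Matrix (Fin n) (Fin n) ℚ => p.1 • p.2) :=
        pr_mzsmul Primrec.fst Primrec.snd
      exact (pr_listSum.comp (pr_listMap h1)).to_comp.comp Computable.snd
  refine h.of_eq (fun X => ?_)
  constructor
  · rintro ⟨l, hl, rfl⟩
    refine AddSubgroup.list_sum_mem _ ?_
    intro Y hY
    obtain ⟨p, hp, rfl⟩ := List.mem_map.1 hY
    exact AddSubgroup.zsmul_mem _ (AddSubgroup.subset_closure (hl p hp)) _
  · intro hX
    refine AddSubgroup.closure_induction (p := fun X _ => ∃ l : List (ℤ × Matrix (Fin n) (Fin n) ℚ),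
      (∀ p ∈ l, p.2 ∈ S) ∧ (l.map (fun p => p.1 • p.2)).sum = X) ?_ ?_ ?_ ?_ hX
    · intro x hx
      exact ⟨[(1, x)], by simpa using hx, by simp⟩
    · exact ⟨[], by simp, by simp⟩
    · rintro a b _ _ ⟨l, hl, rfl⟩ ⟨l', hl', rfl⟩
      refine ⟨l ++ l', ?_, by simp⟩
      intro p hp
      rcases List.mem_append.1 hp with h | h
      · exact hl p h
      · exact hl' p h
    · rintro a _ ⟨l, hl, rfl⟩
      refine ⟨l.map (fun p => (-p.1, p.2)), ?_, ?_⟩
      · intro p hp
        obtain ⟨q, hq, rfl⟩ := List.mem_map.1 hp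
        exact hl q hq
      · rw [List.map_map]
        have : (fun p : ℤ × Matrix (Fin n) (Fin n) ℚ => p.1 • p.2) ∘
            (fun p : ℤ × Matrix (Fin n) (Fin n) ℚ => (-p.1, p.2)) =
            fun p => -(p.1 • p.2) := by
          funext p; simp
        rw [this]
        have key : ∀ l : List (ℤ × Matrix (Fin n) (Fin n) ℚ),
            (l.map (fun p => -(p.1 • p.2))).sum = -(l.map (fun p => p.1 • p.2)).sum := by
          intro l
          induction l with
          | nil => simp
          | cons p l ih =>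
            simp only [List.map_cons, List.sum_cons]
            rw [ih]
            abel
        exact key l

end Prim

end Pool.Agent.CQ
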